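import Mathlib
import Pool.Agent.Q4.Opt.Mon

set_option autoImplicit false
set_option linter.unusedSectionVars false

/-!
# Davenport's inequality, and leading coefficients along a ray
-/

namespace Pool.Agent.Q4.Hall

open MvPolynomial Pool.Agent.Q4.Cov Pool.Agent.Q4.Tube Pool.Agent.Q4.Gcd

/-- **Davenport's inequality**, for polynomials over a domain of characteristic zero. -/
theorem dav {A : Type*} [CommRing A] [IsDomain A] [CharZero A] (f g : Polynomial A) (a b D E : ℕ)
    (hf : f.natDegree = D) (hD : 0 < D) (hb : 0 < b) (ha : 0 < a) (hE : b * E = a * D)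
    (hne : g ^ b ≠ f ^ a) :
    (a - 1) * D + 1 ≤ (g ^ b - f ^ a).natDegree + E := by
  obtain ⟨a', rfl⟩ : ∃ a', a = a' + 1 := ⟨a - 1, by omega⟩
  obtain ⟨b', rfl⟩ : ∃ b', b = b' + 1 := ⟨b - 1, by omega⟩
  rw [Nat.add_sub_cancel]
  have hE' : b' * E + E = a' * D + D := by
    rw [add_mul, add_mul, one_mul, one_mul] at hE
    exact hE
  set h := g ^ (b' + 1) - f ^ (a' + 1) with hh
  have hh0 : h ≠ 0 := sub_ne_zero.2 hne
  have hf0 : f ≠ 0 := by
    rintro rfl
    simp at hf
    omega
  have hfa : (f ^ (a' + 1)).natDegree = a' * D + D := by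
    rw [Polynomial.natDegree_pow, hf]
    ring
  by_cases hg : g.natDegree = E
  · set m := h.natDegree with hm
    have hid : f * h.derivative - Polynomial.C ((a' + 1 : ℕ) : A) * f.derivative * h
        = g ^ b' * (Polynomial.C ((b' + 1 : ℕ) : A) * f * g.derivative
          - Polynomial.C ((a' + 1 : ℕ) : A) * f.derivative * g) := by
      rw [hh, Polynomial.derivative_sub, Polynomial.derivative_pow, Polynomial.derivative_pow,
        Nat.add_sub_cancel, Nat.add_sub_cancel]
      ring
    set W := Polynomial.C ((b' + 1 : ℕ) : A) * f * g.derivative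
          - Polynomial.C ((a' + 1 : ℕ) : A) * f.derivative * g with hW
    have hlf : f.leadingCoeff ≠ 0 := Polynomial.leadingCoeff_ne_zero.2 hf0
    have hlh : h.leadingCoeff ≠ 0 := Polynomial.leadingCoeff_ne_zero.2 hh0
    have hdf : f.derivative.natDegree ≤ D - 1 := by
      rw [← hf]
      exact Polynomial.natDegree_derivative_le f
    have hdh : h.derivative.natDegree ≤ m - 1 := Polynomial.natDegree_derivative_le h
    by_cases hW0 : W = 0
    · rw [hW0, mul_zero, sub_eq_zero] at hid
      -- compare coefficients
      have h1 : (Polynomial.C ((a' + 1 : ℕ) : A) * f.derivative * h).coeff (D - 1 + m)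
          = ((a' + 1 : ℕ) : A) * (D * f.leadingCoeff) * h.leadingCoeff := by
        rw [mul_assoc, Polynomial.coeff_C_mul, Polynomial.coeff_mul_add_eq_of_natDegree_le hdf le_rfl,
          Polynomial.coeff_derivative]
        have e1 : D - 1 + 1 = D := by omega
        rw [e1]
        have e2 : ((D - 1 : ℕ) : A) + 1 = D := by
          have : ((D - 1 + 1 : ℕ) : A) = D := by rw [e1]
          push_cast at this
          exact this
        rw [e2]
        have e3 : f.coeff D = f.leadingCoeff := by rw [← hf]; rfl
        have e4 : h.coeff m = h.leadingCoeff := rfl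
        rw [e3, e4]
        ring
      rw [← hid] at h1
      rcases Nat.eq_zero_or_pos m with hm0 | hm0
      · exfalso
        have h2 : h.derivative = 0 := by
          rw [Polynomial.eq_C_of_natDegree_eq_zero hm0, Polynomial.derivative_C]
        rw [h2, mul_zero, Polynomial.coeff_zero] at h1
        have h3 : ((a' + 1 : ℕ) : A) * (D * f.leadingCoeff) * h.leadingCoeff ≠ 0 := by
          refine mul_ne_zero (mul_ne_zero ?_ (mul_ne_zero ?_ hlf)) hlh
          · exact_mod_cast Nat.succ_ne_zero a'
          · exact_mod_cast hD.ne'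
        exact h3 h1.symm
      · have h2 : (f * h.derivative).coeff (D - 1 + m) = f.leadingCoeff * (m * h.leadingCoeff) := by
          have e0 : D - 1 + m = D + (m - 1) := by omega
          rw [e0, Polynomial.coeff_mul_add_eq_of_natDegree_le hf.le hdh, Polynomial.coeff_derivative]
          have e1 : m - 1 + 1 = m := by omega
          rw [e1]
          have e2 : ((m - 1 : ℕ) : A) + 1 = m := by
            have : ((m - 1 + 1 : ℕ) : A) = m := by rw [e1]
            push_cast at this
            exact this
          rw [e2]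
          have e3 : f.coeff D = f.leadingCoeff := by rw [← hf]; rfl
          have e4 : h.coeff m = h.leadingCoeff := rfl
          rw [e3, e4]
          ring
        rw [h2] at h1
        have h3 : (m : A) = ((a' + 1) * D : ℕ) := by
          have h4 : (f.leadingCoeff * h.leadingCoeff) * (m : A)
              = (f.leadingCoeff * h.leadingCoeff) * (((a' + 1) * D : ℕ) : A) := by
            push_cast
            push_cast at h1
            linear_combination h1
          exact mul_left_cancel₀ (mul_ne_zero hlf hlh) h4
        have h4 : m = (a' + 1) * D := by exact_mod_cast h3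
        rw [h4, add_mul, one_mul]
        omega
    · have hg0 : g ≠ 0 := by
        rintro rfl
        apply hW0
        rw [hW]
        simp
      have h1 : (g ^ b' * W).natDegree = b' * E + W.natDegree := by
        rw [Polynomial.natDegree_mul (pow_ne_zero _ hg0) hW0, Polynomial.natDegree_pow, hg]
      have h2 : (f * h.derivative - Polynomial.C ((a' + 1 : ℕ) : A) * f.derivative * h).natDegree
          ≤ D + m - 1 := by
        refine (Polynomial.natDegree_sub_le _ _).trans (max_le ?_ ?_)
        · rcases Nat.eq_zero_or_pos m with hm0 | hm0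
          · have h2 : h.derivative = 0 := by
              rw [Polynomial.eq_C_of_natDegree_eq_zero hm0, Polynomial.derivative_C]
            rw [h2, mul_zero, Polynomial.natDegree_zero]
            exact Nat.zero_le _
          · refine Polynomial.natDegree_mul_le.trans ?_
            rw [hf]
            omega
        · refine Polynomial.natDegree_mul_le.trans ?_
          have h3 : (Polynomial.C ((a' + 1 : ℕ) : A) * f.derivative).natDegree ≤ D - 1 :=
            (Polynomial.natDegree_C_mul_le _ _).trans hdf
          have h4 : h.natDegree = m := rfl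
          omega
      rw [hid, h1] at h2
      omega
  · have h1 : (g ^ (b' + 1)).natDegree ≠ (f ^ (a' + 1)).natDegree := by
      rw [hfa, Polynomial.natDegree_pow]
      intro h2
      apply hg
      have h3 : (b' + 1) * g.natDegree = (b' + 1) * E := by
        rw [h2, hE, add_mul, one_mul]
      exact Nat.eq_of_mul_eq_mul_left (Nat.succ_pos b') h3
    have h2 : a' * D + D ≤ h.natDegree := by
      rcases Nat.lt_or_gt_of_ne h1 with h3 | h3
      · rw [hh, Polynomial.natDegree_sub_eq_right_of_natDegree_lt h3, hfa]
      · rw [hh, Polynomial.natDegree_sub_eq_left_of_natDegree_lt h3, ← hfa]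
        exact h3.le
    omega

section
variable {σ : Type} [Fintype σ] [DecidableEq σ]

/-- the polynomial `F(q, θ q - t)` in `q` -/
noncomputable def Phi (θ : σ → ℝ) : MvPolynomial (Option σ) ℝ →ₐ[ℝ] Polynomial (MvPolynomial σ ℝ) :=
  (optionEquivLeft ℝ σ).toAlgHom.comp (tw θ)

lemma Phi_natDegree (θ : σ → ℝ) (F : MvPolynomial (Option σ) ℝ) :
    (Phi θ F).natDegree = degreeOf none (tw θ F) := natDegree_optionEquivLeft ℝ (tw θ F)

lemma Phi_le (θ : σ → ℝ) {F : MvPolynomial (Option σ) ℝ} {D : ℕ} (hF : F.totalDegree ≤ D) :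
    (Phi θ F).natDegree ≤ D := by
  rw [Phi_natDegree]
  exact ((degreeOf_le_totalDegree _ _).trans (Pool.Agent.Q4.Opt.tw_deg θ F)).trans hF

lemma Phi_monomial (θ : σ → ℝ) (m : Option σ →₀ ℕ) (c : ℝ) :
    Phi θ (monomial m c) = Polynomial.C (C c) * (Polynomial.X ^ (m none)
      * ∏ s, (Polynomial.C (C (θ s)) * Polynomial.X - Polynomial.C (X s)) ^ (m (some s))) := by
  change optionEquivLeft ℝ σ (tw θ (monomial m c)) = _
  have h1 : tw θ (monomial m c)
      = C c * m.prod (fun o e => (o.elim (X none) (fun s => C (θ s) * X none - X (some s)) :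
        MvPolynomial (Option σ) ℝ) ^ e) := by
    unfold tw
    rw [bind₁_monomial]
    rfl
  rw [h1, Finsupp.prod_fintype _ _ (by simp), Fintype.prod_option]
  simp only [Option.elim, map_mul, map_pow, map_prod, map_sub, optionEquivLeft_X_none,
    optionEquivLeft_C, optionEquivLeft_X_some]

lemma Phi_coeff (θ : σ → ℝ) (F : MvPolynomial (Option σ) ℤ) {D : ℕ} (hF : F.totalDegree ≤ D) :
    (Phi θ (map (Int.castRingHom ℝ) F)).coeff D = C (topv D F θ) := by
  classical
  have hlin : ∀ s, (Polynomial.C (C (θ s)) * Polynomial.X - Polynomial.C (X s) :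
      Polynomial (MvPolynomial σ ℝ)).natDegree ≤ 1 := by
    intro s
    refine (Polynomial.natDegree_sub_le _ _).trans (max_le ?_ ?_)
    · exact (Polynomial.natDegree_C_mul_le _ _).trans Polynomial.natDegree_X_le
    · rw [Polynomial.natDegree_C]
      exact Nat.zero_le _
  have hlin1 : ∀ s, (Polynomial.C (C (θ s)) * Polynomial.X - Polynomial.C (X s) :
      Polynomial (MvPolynomial σ ℝ)).coeff 1 = C (θ s) := by
    intro s
    rw [Polynomial.coeff_sub, Polynomial.coeff_C_mul, Polynomial.coeff_X_one,
      Polynomial.coeff_C_of_ne_zero one_ne_zero]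
    ring
  -- the products
  have hprod : ∀ (m : Option σ →₀ ℕ) (s : Finset σ),
      (∏ s ∈ s, (Polynomial.C (C (θ s)) * Polynomial.X - Polynomial.C (X s) :
        Polynomial (MvPolynomial σ ℝ)) ^ (m (some s))).natDegree ≤ ∑ s ∈ s, m (some s) ∧
      (∏ s ∈ s, (Polynomial.C (C (θ s)) * Polynomial.X - Polynomial.C (X s) :
        Polynomial (MvPolynomial σ ℝ)) ^ (m (some s))).coeff (∑ s ∈ s, m (some s))
        = ∏ s ∈ s, (C (θ s)) ^ (m (some s)) := by
    intro m s
    induction s using Finset.induction_on with
    | empty => simp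
    | insert i s hi ih =>
      rw [Finset.prod_insert hi, Finset.sum_insert hi, Finset.prod_insert hi]
      have h1 : ((Polynomial.C (C (θ i)) * Polynomial.X - Polynomial.C (X i) :
        Polynomial (MvPolynomial σ ℝ)) ^ (m (some i))).natDegree ≤ m (some i) := by
        have := Polynomial.natDegree_pow_le_of_le (m (some i)) (hlin i)
        rwa [mul_one] at this
      refine ⟨Polynomial.natDegree_mul_le.trans (add_le_add h1 ih.1), ?_⟩
      rw [Polynomial.coeff_mul_add_eq_of_natDegree_le h1 ih.1, ih.2]
      congr 1
      have h2 := Polynomial.coeff_pow_of_natDegree_le (m := m (some i)) (hlin i)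
      rw [mul_one] at h2
      rw [h2, hlin1]
  have hmon : ∀ (m : Option σ →₀ ℕ) (c : ℝ), ∑ i, m i ≤ D →
      (Phi θ (monomial m c)).coeff D = if ∑ i, m i = D then C (c * ∏ s, θ s ^ (m (some s))) else 0 := by
    intro m c hm
    rw [Phi_monomial, Polynomial.coeff_C_mul]
    have h1 := hprod m Finset.univ
    have h2 : (Polynomial.X ^ (m none) : Polynomial (MvPolynomial σ ℝ)).natDegree ≤ m none :=
      Polynomial.natDegree_X_pow_le _
    have h3 := Polynomial.coeff_mul_add_eq_of_natDegree_le h2 h1.1
    rw [h1.2, Polynomial.coeff_X_pow_self, one_mul] at h3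
    have hs : ∑ i, m i = m none + ∑ s, m (some s) := Fintype.sum_option _
    split_ifs with h
    · have h5 : D = m none + ∑ s, m (some s) := by omega
      rw [h5, h3, map_mul, map_prod]
      simp only [map_pow]
    · rw [Polynomial.coeff_eq_zero_of_natDegree_lt, mul_zero]
      refine lt_of_le_of_lt Polynomial.natDegree_mul_le ?_
      have h4 := h1.1
      omega
  have hsum : map (Int.castRingHom ℝ) F = ∑ m ∈ F.support, monomial m ((coeff m F : ℤ) : ℝ) := by
    conv_lhs => rw [as_sum F]
    rw [map_sum]
    refine Finset.sum_congr rfl fun m _ => ?_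
    rw [map_monomial]
    rfl
  rw [hsum, map_sum, Polynomial.finsetSum_coeff, topv_eq, map_sum, Finset.sum_filter]
  refine Finset.sum_congr rfl fun m hm => ?_
  have h6 : ∑ i, m i ≤ D := by
    have := le_totalDegree hm
    rw [sum_fs] at this
    exact this.trans hF
  rw [hmon m _ h6]

lemma Phi_eq (θ : σ → ℝ) {F : MvPolynomial (Option σ) ℤ} {D : ℕ} (hF : F.totalDegree ≤ D)
    (htop : topv D F θ ≠ 0) : (Phi θ (map (Int.castRingHom ℝ) F)).natDegree = D := by
  refine le_antisymm (Phi_le θ ((Finset.sup_mono (support_map_subset _ _)).trans hF)) ?_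
  apply Polynomial.le_natDegree_of_ne_zero
  rw [Phi_coeff θ F hF]
  intro h
  apply htop
  have := C_injective σ ℝ (h.trans (map_zero C).symm)
  exact this

lemma topv_pow (θ : σ → ℝ) {F : MvPolynomial (Option σ) ℤ} {D : ℕ} (hF : F.totalDegree ≤ D) (a : ℕ) :
    topv (a * D) (F ^ a) θ = (topv D F θ) ^ a := by
  apply C_injective σ ℝ
  rw [← Phi_coeff θ (F ^ a) ((totalDegree_pow _ _).trans (Nat.mul_le_mul_left _ hF)), map_pow,
    map_pow, map_pow, ← Phi_coeff θ F hF]
  exact Polynomial.coeff_pow_of_natDegree_le (m := a)
    (Phi_le θ ((Finset.sup_mono (support_map_subset _ _)).trans hF))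

end

end Pool.Agent.Q4.Hall
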