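import Mathlib
import Pool.Agent.Q4.Hall.Dav
import Pool.Agent.Q4.Tube.Thue
import Pool.Agent.Q4.Tube.Cf2

set_option autoImplicit false
set_option linter.unusedSectionVars false

/-!
# Powers close to powers of polynomial values at integral points near a ray
-/

namespace Pool.Agent.Q4.Hall

open Filter Topology Pool.Agent.TH932.Abs Pool.Agent.TH932.Germs Pool.Agent.TH932.Chi
open Pool.Agent.TH796.AL Pool.Agent.Q4.Blk Pool.Agent.Q4.Gcd Pool.Agent.Q4.Cov Module MvPolynomial
open Pool.Agent.Q4.Tube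

section
variable {σ : Type} [Fintype σ] [DecidableEq σ]
variable (S : Finset ℕ) (hS : ∀ p ∈ S, p.Prime) {θ : σ → ℝ} (halg : ∀ s, IsAlgebraic ℚ (θ s))
  (hind : LinearIndependent ℚ (fun o : Option σ => (o.elim 1 (fun s => θ s) : ℝ)))
  {q : ℕ → ℕ} {x : ℕ → σ → ℤ} (H : Tub S θ q x)

include H in
/-- the size of the values of a polynomial -/
lemma sm_val (R : MvPolynomial (Option σ) ℤ) {D : ℕ} (hR : R.totalDegree ≤ D) :
    Sm q D (fun n => ((eval (px (q n) (x n)) R : ℤ) : ℂ)) := by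
  classical
  have h2 := Sm.sum H.big R.support (e := D)
    (fun α n => ((R.coeff α : ℤ) : ℂ) * ∏ i, ((px (q n) (x n) i : ℤ) : ℂ) ^ (α i)) (by
    intro α hα
    have h3 : ∀ s : Finset (Option σ), Sm q (∑ i ∈ s, (α i : ℝ))
        (fun n => ∏ i ∈ s, ((px (q n) (x n) i : ℤ) : ℂ) ^ (α i)) := by
      intro s
      induction s using Finset.induction_on with
      | empty => simpa using Sm.const H.big 1
      | insert i s hi ih =>
        simp only [Finset.prod_insert hi, Finset.sum_insert hi]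
        have h4 := Sm.pow H.big (sm_px S H i) (α i)
        rw [mul_one] at h4
        exact Sm.mul H.big h4 ih
    have h4 := Sm.mul H.big (Sm.const H.big ((R.coeff α : ℤ) : ℂ)) (h3 Finset.univ)
    rw [zero_add] at h4
    refine h4.mono H.big ?_
    have h5 := (le_totalDegree hα).trans hR
    rw [Finsupp.sum_fintype _ _ (fun _ => rfl)] at h5
    exact_mod_cast h5)
  refine h2.congr (Eventually.of_forall fun n => ?_)
  rw [eval_eq']
  push_cast
  rfl

include hS halg hind H

/-- integers whose powers are close to powers of values of a polynomial are values of polynomials -/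
theorem near_pow {F : MvPolynomial (Option σ) ℤ} {D : ℕ} (hF : F.totalDegree ≤ D)
    (htop : topv D F θ ≠ 0) {a b E : ℕ} (hb : 0 < b) (hE : b * E = a * D) (y : ℕ → ℤ) {δ : ℝ}
    (hδ : 0 < δ) (hy : Sm q (((b - 1) * E : ℕ) - δ)
      (fun n => (y n : ℂ) ^ b - ((eval (px (q n) (x n)) F : ℤ) : ℂ) ^ a)) :
    ∃ G : MvPolynomial (Option σ) ℚ, G.totalDegree ≤ E ∧
      ∀ᶠ n in (UU : Filter ℕ), (y n : ℚ) = va (q n) (x n) G := by
  classical
  set P : Polynomial (MvPolynomial (Option σ) ℤ) := Polynomial.X ^ b - Polynomial.C (F ^ a) with hP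
  have hPd : P.natDegree = b := Polynomial.natDegree_X_pow_sub_C
  have hPm : P.Monic := Polynomial.monic_X_pow_sub_C _ hb.ne'
  have hlead : topv 0 P.leadingCoeff θ ≠ 0 := by
    rw [hPm.leadingCoeff, topv_one]
    exact one_ne_zero
  have hFa : (F ^ a).totalDegree ≤ a * D := (totalDegree_pow _ _).trans (Nat.mul_le_mul_left _ hF)
  have hcoef : ∀ i, P.coeff i = (if i = b then 1 else 0) - (if i = 0 then F ^ a else 0) := by
    intro i
    rw [hP, Polynomial.coeff_sub, Polynomial.coeff_X_pow, Polynomial.coeff_C]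
  have hdeg : ∀ i, (P.coeff i).totalDegree ≤ (P.natDegree - i) * E + 0 := by
    intro i
    rw [hPd, add_zero, hcoef]
    by_cases h0 : i = 0
    · rw [h0, if_neg (by omega), if_pos rfl, zero_sub, totalDegree_neg, Nat.sub_zero, hE]
      exact hFa
    · rw [if_neg h0, sub_zero]
      split_ifs
      · rw [totalDegree_one]
        exact Nat.zero_le _
      · rw [totalDegree_zero]
        exact Nat.zero_le _
  have hpnf : pnf P E 0 θ = Polynomial.X ^ b - Polynomial.C ((topv D F θ) ^ a) := by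
    ext j
    rw [Polynomial.coeff_sub, Polynomial.coeff_X_pow, Polynomial.coeff_C]
    by_cases hj : j ≤ b
    · rw [pnf_coeff θ (by rw [hPd]; exact hj), hPd, add_zero, hcoef]
      by_cases h0 : j = 0
      · rw [h0, if_neg (by omega), if_pos rfl, if_neg (by omega), if_pos rfl, Nat.sub_zero, hE,
          zero_sub, zero_sub, ← topv_pow θ hF a]
        unfold topv
        rw [map_neg, map_neg]
      · rw [if_neg h0, if_neg h0, sub_zero, sub_zero]
        split_ifs with h1
        · rw [h1, Nat.sub_self, zero_mul]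
          exact topv_one θ
        · unfold topv
          rw [map_zero, map_zero]
    · rw [if_neg (by omega), if_neg (by omega), sub_zero]
      unfold pnf
      rw [Polynomial.finsetSum_coeff]
      refine Finset.sum_eq_zero fun i hi => ?_
      have hi' := Finset.mem_range.1 hi
      rw [hPd] at hi'
      rw [Polynomial.coeff_C_mul, Polynomial.coeff_X_pow, if_neg (by omega), mul_zero]
  have hsep : (pnf P E 0 θ).Separable := by
    rw [hpnf]
    exact Polynomial.separable_X_pow_sub_C _ (by exact_mod_cast hb.ne') (pow_ne_zero _ htop)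
  set f : ℕ → Polynomial ℂ := fun n => P.map (evx (q n) (x n) ℂ) with hf
  have hfe : ∀ n (z : ℂ), (f n).eval z = z ^ b - ((eval (px (q n) (x n)) F : ℤ) : ℂ) ^ a := by
    intro n z
    rw [hf]
    simp only []
    rw [hP, Polynomial.map_sub, Polynomial.map_pow, Polynomial.map_X, Polynomial.map_C,
      Polynomial.eval_sub, Polynomial.eval_pow, Polynomial.eval_X, Polynomial.eval_C, map_pow]
    rfl
  have hfd : ∀ n, (f n).natDegree = b := by
    intro n
    rw [hf]
    simp only []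
    rw [hPm.natDegree_map, hPd]
  have hnear : ∀ n, ∃ ρ : ℂ, (f n).eval ρ = 0 ∧
      ‖(y n : ℂ) - ρ‖ * ‖(f n).derivative.eval ρ‖ ≤ 2 ^ ((f n).natDegree - 1)
        * ‖(f n).eval (y n : ℂ)‖ := fun n => nearest (f n) (by rw [hfd]; exact hb) _
  choose ρ hρ0 hρ1 using hnear
  obtain ⟨c, hcpos, hder⟩ := deriv_seq S halg H (by rw [hPd]; exact hb) hlead hdeg hsep ρ
    (Eventually.of_forall hρ0)
  obtain ⟨cf, hcf⟩ := Pool.Agent.Q4.Tube.root_exp H halg hlead hdeg hsep ρ (Eventually.of_forall hρ0) 0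
  -- closeness
  have hclose : Sm q (-δ) (fun n => (y n : ℂ) - ρ n) := by
    have h1 := Sm.mul H.big (Sm.const H.big ((2 ^ (b - 1) / c : ℝ) : ℂ))
      (Sm.mul H.big hy (Sm.pow H.big (Sm.qinv H.big) ((b - 1) * E)))
    have e1 : (0 : ℝ) + (((b - 1) * E : ℕ) - δ + (((b - 1) * E : ℕ) : ℝ) * (-1)) = -δ := by ring
    rw [e1] at h1
    refine h1.le ?_
    filter_upwards [hder] with n hn
    have hqp := qpos H.big n
    rw [hPd, add_zero] at hn
    have h2 := hρ1 n
    rw [hfd, hfe] at h2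
    have h3 : ‖(y n : ℂ) - ρ n‖ * (c * (q n : ℝ) ^ ((b - 1) * E)) ≤ 2 ^ (b - 1)
        * ‖(y n : ℂ) ^ b - ((eval (px (q n) (x n)) F : ℤ) : ℂ) ^ a‖ :=
      (mul_le_mul_of_nonneg_left hn (norm_nonneg _)).trans h2
    have h4 : ‖((2 ^ (b - 1) / c : ℝ) : ℂ) * (((y n : ℂ) ^ b
        - ((eval (px (q n) (x n)) F : ℤ) : ℂ) ^ a) * (1 / (q n : ℂ)) ^ ((b - 1) * E))‖
        = (2 ^ (b - 1) / c) * (‖(y n : ℂ) ^ b - ((eval (px (q n) (x n)) F : ℤ) : ℂ) ^ a‖
          * (1 / (q n : ℝ)) ^ ((b - 1) * E)) := by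
      rw [norm_mul, norm_mul, norm_pow, norm_div, norm_one, Complex.norm_natCast,
        Complex.norm_real, Real.norm_eq_abs, abs_of_nonneg (by positivity)]
    rw [h4]
    have h5 : (2 ^ (b - 1) / c) * (‖(y n : ℂ) ^ b - ((eval (px (q n) (x n)) F : ℤ) : ℂ) ^ a‖
          * (1 / (q n : ℝ)) ^ ((b - 1) * E))
        = (2 ^ (b - 1) * ‖(y n : ℂ) ^ b - ((eval (px (q n) (x n)) F : ℤ) : ℂ) ^ a‖)
          / (c * (q n : ℝ) ^ ((b - 1) * E)) := by
      rw [one_div, inv_pow]
      field_simp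
    rw [h5, le_div_iff₀ (by positivity)]
    exact h3
  -- the engine
  obtain ⟨G, hG1, hG⟩ := engineT S hS halg hind H (0 + E) (fun _ => 1) (fun _ => one_ne_zero)
    (fun _ => by simp) 0 0 (fun n => by simp) y cf (min δ 1) (lt_min hδ one_pos) (by
      have h1 := Sm.add H.big (hclose.mono H.big (show -δ ≤ -min δ 1 by
        have := min_le_left δ 1
        linarith)) (hcf.mono H.big (show (-1 : ℝ) ≤ -min δ 1 by
        have := min_le_right δ 1
        linarith))
      refine h1.congr (Eventually.of_forall fun n => ?_)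
      simp only [pow_zero, Nat.cast_one, div_one, one_mul]
      ring)
  refine ⟨G, by rwa [zero_add] at hG1, ?_⟩
  filter_upwards [hG] with n hn
  rw [hn]
  simp

/-- values of real polynomials -/
lemma eval_real_va (G : MvPolynomial (Option σ) ℚ) (n : ℕ) :
    eval (fun o => ((px (q n) (x n) o : ℤ) : ℝ)) (map (algebraMap ℚ ℝ) G)
      = ((va (q n) (x n) G : ℚ) : ℝ) := by
  have h1 := eval₂_comp_left (algebraMap ℚ ℝ) (algebraMap ℚ ℚ) (fun i => (px (q n) (x n) i : ℚ)) G
  unfold va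
  rw [aeval_def, eval_map]
  have h2 : ((eval₂ (algebraMap ℚ ℚ) (fun i => ((px (q n) (x n) i : ℤ) : ℚ)) G : ℚ) : ℝ)
      = (algebraMap ℚ ℝ) (eval₂ (algebraMap ℚ ℚ) (fun i => ((px (q n) (x n) i : ℤ) : ℚ)) G) := rfl
  rw [h2, h1]
  congr 1

/-- **Hall's inequality** for the values of a polynomial along a sequence of points near a ray. -/
theorem hall_seq {F : MvPolynomial (Option σ) ℤ} {D : ℕ} (hF : F.totalDegree ≤ D) (hD : 0 < D)
    (htop : topv D F θ ≠ 0) {a b E : ℕ} (ha : 0 < a) (hb : 0 < b) (hE : b * E = a * D) (y : ℕ → ℤ)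
    (hne : ∀ n, (y n) ^ b ≠ (eval (px (q n) (x n)) F) ^ a) {ε : ℝ} (hε : 0 < ε) :
    ∀ᶠ n in (UU : Filter ℕ), (q n : ℝ) ^ ((((a - 1) * D + 1 : ℕ) : ℝ) - E - ε)
      ≤ |((y n : ℝ)) ^ b - ((eval (px (q n) (x n)) F : ℤ) : ℝ) ^ a| := by
  classical
  by_contra hcon
  have hcon' := Ultrafilter.eventually_not.2 hcon
  have hEle : ((a - 1) * D + 1) ≤ (b - 1) * E + E := by
    have h1 : (b - 1) * E + E = b * E := by
      obtain ⟨b', rfl⟩ : ∃ b', b = b' + 1 := ⟨b - 1, by omega⟩
      rw [Nat.add_sub_cancel]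
      ring
    have h2 : (a - 1) * D + D = a * D := by
      obtain ⟨a', rfl⟩ : ∃ a', a = a' + 1 := ⟨a - 1, by omega⟩
      rw [Nat.add_sub_cancel]
      ring
    omega
  have hsm : Sm q ((((a - 1) * D + 1 : ℕ) : ℝ) - E - ε)
      (fun n => (y n : ℂ) ^ b - ((eval (px (q n) (x n)) F : ℤ) : ℂ) ^ a) := by
    intro ε' hε'
    filter_upwards [hcon'] with n hn
    rw [not_le] at hn
    have h1 : (y n : ℂ) ^ b - ((eval (px (q n) (x n)) F : ℤ) : ℂ) ^ a
        = (((y n : ℝ) ^ b - ((eval (px (q n) (x n)) F : ℤ) : ℝ) ^ a : ℝ) : ℂ) := by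
      push_cast
      rfl
    rw [h1, Complex.norm_real, Real.norm_eq_abs]
    exact hn.le.trans (Real.rpow_le_rpow_of_exponent_le (qone H.big n) (by linarith))
  obtain ⟨G, -, hG⟩ := near_pow S hS halg hind H hF htop hb hE y hε (hsm.mono H.big (by
    have h1 : (((a - 1) * D + 1 : ℕ) : ℝ) ≤ (((b - 1) * E + E : ℕ) : ℝ) := by exact_mod_cast hEle
    push_cast at h1 ⊢
    linarith))
  set R : MvPolynomial (Option σ) ℚ := G ^ b - (map (Int.castRingHom ℚ) F) ^ a with hR
  have hRv : ∀ᶠ n in (UU : Filter ℕ), va (q n) (x n) R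
      = (y n : ℚ) ^ b - ((eval (px (q n) (x n)) F : ℤ) : ℚ) ^ a := by
    filter_upwards [hG] with n hn
    rw [hR, map_sub, map_pow, map_pow, ← hn, map_px]
  have hR0 : R ≠ 0 := by
    intro h
    obtain ⟨n, hn⟩ := hRv.exists
    rw [h, map_zero] at hn
    apply hne n
    have h2 : (y n : ℚ) ^ b = ((eval (px (q n) (x n)) F : ℤ) : ℚ) ^ a := (sub_eq_zero.1 hn.symm)
    exact_mod_cast h2
  set F' : MvPolynomial (Option σ) ℝ := map (Int.castRingHom ℝ) F with hF'
  set G' : MvPolynomial (Option σ) ℝ := map (algebraMap ℚ ℝ) G with hG'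
  have hRR : map (algebraMap ℚ ℝ) R = G' ^ b - F' ^ a := by
    rw [hR, map_sub, map_pow, map_pow, MvPolynomial.map_map]
    congr 2
  have hRR0 : map (algebraMap ℚ ℝ) R ≠ 0 := by
    intro h
    exact hR0 (map_injective _ (algebraMap ℚ ℝ).injective (h.trans (map_zero _).symm))
  have hdav := dav (Phi θ F') (Phi θ G') a b D E (Phi_eq θ hF htop) hD hb ha hE (by
    intro h
    have h1 : Phi θ (G' ^ b - F' ^ a) = 0 := by
      rw [map_sub, map_pow (Phi θ) G' b, map_pow (Phi θ) F' a, h, sub_self]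
    have h2 : tw θ (G' ^ b - F' ^ a) = 0 := (map_eq_zero_iff _ (optionEquivLeft ℝ σ).injective).1 h1
    exact tw_ne θ (by rw [← hRR]; exact hRR0) h2)
  have hPR : Phi θ G' ^ b - Phi θ F' ^ a = Phi θ (map (algebraMap ℚ ℝ) R) := by
    rw [hRR, map_sub, map_pow (Phi θ) G' b, map_pow (Phi θ) F' a]
  rw [hPR, Phi_natDegree] at hdav
  have hlow := realT S hS halg hind H (map (algebraMap ℚ ℝ) R) (fun m => by
    rw [coeff_map]
    exact isAlgebraic_algebraMap _) hRR0 (half_pos hε)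
  have hval : ∀ᶠ n in (UU : Filter ℕ), eval (fun o => ((px (q n) (x n) o : ℤ) : ℝ))
      (map (algebraMap ℚ ℝ) R) = (y n : ℝ) ^ b - ((eval (px (q n) (x n)) F : ℤ) : ℝ) ^ a := by
    filter_upwards [hRv] with n hn
    rw [eval_real_va S hS halg hind H, hn]
    push_cast
    rfl
  obtain ⟨n, h1, h2, h3, h4⟩ := (hcon'.and (hlow.and (hval.and
    (big_ev H.big 2 (half_pos hε))))).exists
  rw [h3] at h2
  rw [not_le] at h1
  have h5 := h2.trans_lt h1
  have h6 := (Real.rpow_lt_rpow_left_iff (by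
    have := H.big n
    exact_mod_cast (by omega : 1 < q n))).1 h5
  have h7 : (((a - 1) * D + 1 : ℕ) : ℝ) ≤ (degreeOf none (tw θ (map (algebraMap ℚ ℝ) R)) : ℝ) + E := by
    exact_mod_cast hdav
  linarith

end

end Pool.Agent.Q4.Hall
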