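import Mathlib
import Pool.Agent.Q4.Hall.Seq
import Pool.Agent.Q4.Tube.Sel

set_option autoImplicit false
set_option linter.unusedSectionVars false

/-!
# Hall's inequality for polynomial values over all integral points near a ray
-/

namespace Pool.Agent.Q4.Hall

open Filter Topology Pool.Agent.TH932.Abs Pool.Agent.TH932.Germs Pool.Agent.TH932.Chi
open Pool.Agent.TH796.AL Pool.Agent.Q4.Blk Pool.Agent.Q4.Gcd Pool.Agent.Q4.Cov Module MvPolynomial
open Pool.Agent.Q4.Tube

section
variable {σ : Type} [Fintype σ] [DecidableEq σ]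

theorem hall_main (S : Finset ℕ) (hS : ∀ p ∈ S, p.Prime) {θ : σ → ℝ}
    (halg : ∀ s, IsAlgebraic ℚ (θ s))
    (hind : LinearIndependent ℚ (fun o : Option σ => (o.elim 1 (fun s => θ s) : ℝ)))
    {F : MvPolynomial (Option σ) ℤ} {D : ℕ} (hF : F.totalDegree ≤ D) (hD : 0 < D)
    (htop : topv D F θ ≠ 0) {a b E : ℕ} (ha : 0 < a) (hb : 0 < b) (hE : b * E = a * D)
    (hEa : E ≤ (a - 1) * D) (e : ℝ) (he : e * D < (((a - 1) * D + 1 : ℕ) : ℝ) - E) :
    ∃ (η : ℝ) (N : ℕ), 0 < η ∧ ∀ q ≥ N, ∀ x, Near S θ η q x → ∀ y : ℤ,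
      y ^ b ≠ (eval (px q x) F) ^ a →
      |((eval (px q x) F : ℤ) : ℝ)| ^ e < |(y : ℝ) ^ b - ((eval (px q x) F : ℤ) : ℝ) ^ a| := by
  classical
  obtain ⟨η, N, hη, h⟩ := none_left S θ (Δ := ℤ) (fun q x y => y ^ b ≠ (eval (px q x) F) ^ a ∧
      |(y : ℝ) ^ b - ((eval (px q x) F : ℤ) : ℝ) ^ a| ≤ |((eval (px q x) F : ℤ) : ℝ)| ^ e) (by
    intro q x y H hd
    set g : ℝ := (((a - 1) * D + 1 : ℕ) : ℝ) - E with hg
    have hg1 : 1 ≤ g := by
      have h1 : (E : ℝ) ≤ (((a - 1) * D : ℕ) : ℝ) := by exact_mod_cast hEa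
      rw [hg]
      push_cast at h1 ⊢
      linarith
    -- the upper bound
    have hup : ∃ δ : ℝ, 0 < δ ∧ ∀ᶠ n in (UU : Filter ℕ),
        |((eval (px (q n) (x n)) F : ℤ) : ℝ)| ^ e ≤ (q n : ℝ) ^ (g - δ) := by
      rcases le_or_gt e 0 with h0 | h0
      · refine ⟨1 / 2, by norm_num, Eventually.of_forall fun n => ?_⟩
        have h1 : |((eval (px (q n) (x n)) F : ℤ) : ℝ)| ^ e ≤ 1 := by
          rcases eq_or_ne (eval (px (q n) (x n)) F) 0 with h2 | h2
          · rw [h2, Int.cast_zero, abs_zero]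
            rcases eq_or_lt_of_le h0 with h3 | h3
            · rw [h3, Real.rpow_zero]
            · rw [Real.zero_rpow h3.ne]
              exact zero_le_one
          · apply Real.rpow_le_one_of_one_le_of_nonpos _ h0
            exact_mod_cast Int.one_le_abs h2
        exact h1.trans (Real.one_le_rpow (qone H.big n) (by linarith))
      · set δ : ℝ := (g - e * D) / 2 with hδ
        have hδ0 : 0 < δ := by rw [hδ]; linarith
        refine ⟨δ, hδ0, ?_⟩
        filter_upwards [sm_val S H F hF (δ / e) (by positivity)] with n hn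
        rw [Complex.norm_intCast] at hn
        refine (Real.rpow_le_rpow (abs_nonneg _) hn h0.le).trans (le_of_eq ?_)
        rw [← Real.rpow_mul (qpos H.big n).le]
        congr 1
        field_simp
        rw [hδ]
        ring
    obtain ⟨δ, hδ, hup⟩ := hup
    obtain ⟨n, h1, h2⟩ := (hup.and (hall_seq S hS halg hind H hF hD htop ha hb hE y
      (fun n => (hd n).1) (half_pos hδ))).exists
    have h3 := h2.trans ((hd n).2.trans h1)
    have h4 := (Real.rpow_le_rpow_left_iff (by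
      have := H.big n
      exact_mod_cast (by omega : 1 < q n))).1 h3
    rw [← hg] at h4
    linarith)
  refine ⟨η, N, hη, fun q hq x hx y hy => ?_⟩
  by_contra hcon
  exact h q hq x hx y ⟨hy, not_lt.1 hcon⟩

end

end Pool.Agent.Q4.Hall
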