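import Mathlib
import Pool.Agent.Q4.Hall.Main

set_option autoImplicit false
set_option linter.unusedSectionVars false

/-!
# Integral points on Weierstrass curves with abscissae near a ray
-/

namespace Pool.Agent.Q4.Hall

open Filter Topology Pool.Agent.TH932.Abs Pool.Agent.TH932.Germs Pool.Agent.TH932.Chi
open Pool.Agent.TH796.AL Pool.Agent.Q4.Blk Pool.Agent.Q4.Gcd Pool.Agent.Q4.Cov Module MvPolynomial
open Pool.Agent.Q4.Tube

/-- a Weierstrass equation with constant coefficients has no polynomial solutions -/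
theorem no_point {A : Type*} [CommRing A] [IsDomain A] [CharZero A] (f g α β : Polynomial A) (D : ℕ)
    (hf : f.natDegree = D) (hD : 0 < D) (heq : g ^ 2 = f ^ 3 + α * f + β) (hα : α.natDegree = 0)
    (hβ : β.natDegree = 0) (hΔ : 4 * α ^ 3 + 27 * β ^ 2 ≠ 0) : False := by
  obtain ⟨a, rfl⟩ : ∃ a, α = Polynomial.C a := ⟨_, Polynomial.eq_C_of_natDegree_eq_zero hα⟩
  obtain ⟨b, rfl⟩ : ∃ b, β = Polynomial.C b := ⟨_, Polynomial.eq_C_of_natDegree_eq_zero hβ⟩
  have hf0 : f ≠ 0 := by
    rintro rfl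
    simp at hf
    omega
  have hder : 2 * g * g.derivative = (3 * f ^ 2 + Polynomial.C a) * f.derivative := by
    have h1 := congrArg Polynomial.derivative heq
    simp only [Polynomial.derivative_add, Polynomial.derivative_mul, Polynomial.derivative_pow,
      Polynomial.derivative_C, zero_mul, zero_add, add_zero] at h1
    norm_num at h1
    simp only [map_ofNat] at h1
    linear_combination h1
  have hdvd : g ∣ (4 * Polynomial.C a ^ 3 + 27 * Polynomial.C b ^ 2) * f.derivative := by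
    refine ⟨2 * (6 * Polynomial.C a * f ^ 2 - 9 * Polynomial.C b * f + 4 * Polynomial.C a ^ 2)
      * g.derivative - (18 * Polynomial.C a * f - 27 * Polynomial.C b) * g * f.derivative, ?_⟩
    linear_combination (-(6 * Polynomial.C a * f ^ 2 - 9 * Polynomial.C b * f
      + 4 * Polynomial.C a ^ 2)) * hder + (18 * Polynomial.C a * f - 27 * Polynomial.C b)
        * f.derivative * heq
  have hf' : f.derivative ≠ 0 := by
    intro h
    have h1 := Polynomial.derivative_eq_zero.1 h
    omega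
  have h1 := Polynomial.natDegree_le_of_dvd hdvd (mul_ne_zero hΔ hf')
  have h2 : (4 * Polynomial.C a ^ 3 + 27 * Polynomial.C b ^ 2).natDegree = 0 := by
    have : (4 * Polynomial.C a ^ 3 + 27 * Polynomial.C b ^ 2)
        = Polynomial.C (4 * a ^ 3 + 27 * b ^ 2) := by
      simp only [map_add, map_mul, map_pow, map_ofNat]
    rw [this, Polynomial.natDegree_C]
  have h3 : ((4 * Polynomial.C a ^ 3 + 27 * Polynomial.C b ^ 2) * f.derivative).natDegree ≤ D - 1 := by
    refine Polynomial.natDegree_mul_le.trans ?_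
    rw [h2, zero_add, ← hf]
    exact Polynomial.natDegree_derivative_le f
  have h4 : (g ^ 2).natDegree = 3 * D := by
    rw [heq]
    have h5 : (f ^ 3).natDegree = 3 * D := by rw [Polynomial.natDegree_pow, hf]
    have h6 : (Polynomial.C a * f + Polynomial.C b).natDegree < (f ^ 3).natDegree := by
      rw [h5]
      refine lt_of_le_of_lt (Polynomial.natDegree_add_le _ _) ?_
      rw [Polynomial.natDegree_C]
      have h7 := Polynomial.natDegree_C_mul_le a f
      rw [hf] at h7
      rw [max_lt_iff]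
      constructor <;> omega
    rw [add_assoc, Polynomial.natDegree_add_eq_left_of_natDegree_lt h6, h5]
  rw [Polynomial.natDegree_pow] at h4
  omega

section
variable {σ : Type} [Fintype σ] [DecidableEq σ]
variable (S : Finset ℕ) (hS : ∀ p ∈ S, p.Prime) {θ : σ → ℝ} (halg : ∀ s, IsAlgebraic ℚ (θ s))
  (hind : LinearIndependent ℚ (fun o : Option σ => (o.elim 1 (fun s => θ s) : ℝ)))
  {q : ℕ → ℕ} {x : ℕ → σ → ℤ} (H : Tub S θ q x)

include hS halg hind H

/-- the degree along the ray of a polynomial with small values -/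
lemma deg_le_of_sm (Q : MvPolynomial (Option σ) ℚ) {e : ℝ} (he0 : 0 ≤ e)
    (hQ : Sm q e (fun n => ((va (q n) (x n) Q : ℚ) : ℂ))) :
    ((Phi θ (map (algebraMap ℚ ℝ) Q)).natDegree : ℝ) ≤ e := by
  by_cases h0 : Q = 0
  · rw [h0, map_zero, map_zero, Polynomial.natDegree_zero]
    exact_mod_cast he0
  have h1 : map (algebraMap ℚ ℝ) Q ≠ 0 := by
    intro h
    exact h0 (map_injective _ (algebraMap ℚ ℝ).injective (h.trans (map_zero _).symm))
  rw [Phi_natDegree]
  refine le_of_forall_pos_le_add fun ε hε => ?_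
  have h2 := realT S hS halg hind H (map (algebraMap ℚ ℝ) Q) (fun m => by
    rw [coeff_map]
    exact isAlgebraic_algebraMap _) h1 (half_pos hε)
  obtain ⟨n, h3, h4⟩ := (h2.and (hQ (ε / 2) (half_pos hε))).exists
  rw [eval_real_va S hS halg hind H] at h3
  have h5 : ‖((va (q n) (x n) Q : ℚ) : ℂ)‖ = |((va (q n) (x n) Q : ℚ) : ℝ)| := by
    rw [← Complex.ofReal_ratCast, Complex.norm_real, Real.norm_eq_abs]
  rw [h5] at h4
  have h6 := (Real.rpow_le_rpow_left_iff (by
    have := H.big n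
    exact_mod_cast (by omega : 1 < q n))).1 (h3.trans h4)
  linarith

/-- the lower bound of a polynomial that does not vanish at infinity -/
lemma low_val {F : MvPolynomial (Option σ) ℤ} {D : ℕ} (hF : F.totalDegree ≤ D)
    (htop : topv D F θ ≠ 0) {ε : ℝ} (hε : 0 < ε) : ∀ᶠ n in (UU : Filter ℕ),
    (q n : ℝ) ^ ((D : ℝ) - ε) ≤ |((eval (px (q n) (x n)) F : ℤ) : ℝ)| := by
  have hF0 : F ≠ 0 := topv_ne htop
  have h1 : map (Int.castRingHom ℝ) F ≠ 0 := by
    intro h
    exact hF0 (map_injective _ Int.cast_injective (h.trans (map_zero _).symm))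
  have h2 := realT S hS halg hind H (map (Int.castRingHom ℝ) F) (fun m => by
    rw [coeff_map]
    exact isAlgebraic_intCast _) h1 hε
  rw [← Phi_natDegree, Phi_eq θ hF htop] at h2
  filter_upwards [h2] with n hn
  have h3 : eval (fun o => ((px (q n) (x n) o : ℤ) : ℝ)) (map (Int.castRingHom ℝ) F)
      = ((eval (px (q n) (x n)) F : ℤ) : ℝ) := by
    have h4 := eval₂_comp_left (Int.castRingHom ℝ) (RingHom.id ℤ) (px (q n) (x n)) F
    rw [eval₂_id] at h4
    rw [eval_map]
    exact h4.symm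
  rwa [h3] at hn

/-- coefficients of Weierstrass curves with an integral point of given abscissa are values of
polynomials, if they are small -/
theorem lang_seq {F : MvPolynomial (Option σ) ℤ} {k : ℕ} (hF : F.totalDegree ≤ 2 * k)
    (hk : 0 < k) (htop : topv (2 * k) F θ ≠ 0) (y A B : ℕ → ℤ)
    (heq : ∀ n, (y n) ^ 2 = (eval (px (q n) (x n)) F) ^ 3 + A n * (eval (px (q n) (x n)) F) + B n)
    {e : ℝ} (he : e < k) (hA : Sm q e (fun n => (A n : ℂ))) (hB : Sm q e (fun n => (B n : ℂ))) :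
    ∃ G A' B' : MvPolynomial (Option σ) ℚ,
      (∀ᶠ n in (UU : Filter ℕ), (A n : ℚ) = va (q n) (x n) A') ∧
      (∀ᶠ n in (UU : Filter ℕ), (B n : ℚ) = va (q n) (x n) B') ∧
      G ^ 2 = (map (Int.castRingHom ℚ) F) ^ 3 + A' * map (Int.castRingHom ℚ) F + B' := by
  classical
  set Fn : ℕ → ℤ := fun n => eval (px (q n) (x n)) F with hFn
  have hsF := sm_val S H F hF
  have hkr : (1 : ℝ) ≤ k := by exact_mod_cast hk
  -- the ordinate
  obtain ⟨G, -, hG⟩ := near_pow S hS halg hind H hF htop (a := 3) (b := 2) (E := 3 * k)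
    (by norm_num) (by ring) y (δ := k - e) (by linarith) (by
      have h1 := Sm.mul H.big hA hsF
      have h2 := Sm.add H.big h1 (hB.mono H.big (show e ≤ e + ((2 * k : ℕ) : ℝ) by
        have : (0 : ℝ) ≤ ((2 * k : ℕ) : ℝ) := Nat.cast_nonneg _
        linarith))
      refine (h2.mono H.big ?_).congr (Eventually.of_forall fun n => ?_)
      · push_cast
        norm_num
        linarith
      · have h3 := heq n
        have h4 : ((y n : ℂ)) ^ 2 = ((eval (px (q n) (x n)) F : ℤ) : ℂ) ^ 3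
            + A n * ((eval (px (q n) (x n)) F : ℤ) : ℂ) + B n := by exact_mod_cast h3
        rw [h4]
        ring)
  set FQ : MvPolynomial (Option σ) ℚ := map (Int.castRingHom ℚ) F with hFQ
  obtain ⟨m, R', hm0, hR'⟩ := exists_int (G ^ 2 - FQ ^ 3)
  have hvR : ∀ᶠ n in (UU : Filter ℕ), eval (px (q n) (x n)) R' = m * (A n * Fn n + B n) := by
    filter_upwards [hG] with n hn
    have h1 : va (q n) (x n) (map (Int.castRingHom ℚ) R')
        = m * ((y n : ℚ) ^ 2 - (Fn n : ℚ) ^ 3) := by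
      rw [hR', map_mul, map_sub, map_pow, map_pow, ← hn, hFQ, map_px]
      congr 1
      unfold va
      rw [aeval_C]
      rfl
    rw [map_px] at h1
    have h2 : eval (px (q n) (x n)) R' = m * ((y n) ^ 2 - (Fn n) ^ 3) := by exact_mod_cast h1
    rw [h2, heq n]
    ring
  -- the coefficient `A`
  set Gm : MvPolynomial (Option σ) ℤ := C m * F with hGm
  have hGmd : Gm.totalDegree ≤ 2 * k := by
    refine (totalDegree_mul _ _).trans ?_
    rw [totalDegree_C, zero_add]
    exact hF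
  have hGmt : topv (2 * k) Gm θ ≠ 0 := by
    have h1 : topv (2 * k) Gm θ = (m : ℝ) * topv (2 * k) F θ := by
      unfold topv
      rw [hGm, homogeneousComponent_C_mul, map_mul]
      congr 1
      simp
    rw [h1]
    exact mul_ne_zero (by exact_mod_cast hm0) htop
  have hGm0 : Gm ≠ 0 := topv_ne hGmt
  have hGme : ∀ n, eval (px (q n) (x n)) Gm = m * Fn n := fun n => by
    rw [hGm, map_mul, eval_C]
  have hFn0 : ∀ᶠ n in (UU : Filter ℕ), Fn n ≠ 0 := by
    filter_upwards [low_val S hS halg hind H hF htop one_pos] with n hn h0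
    have h1 : eval (px (q n) (x n)) F = 0 := h0
    rw [h1, Int.cast_zero, abs_zero] at hn
    have := qpos H.big n
    have h2 : 0 < (q n : ℝ) ^ (((2 * k : ℕ) : ℝ) - 1) := by positivity
    linarith
  set ρ : ℕ → ℂ := fun n => ((eval (px (q n) (x n)) R' : ℤ) : ℂ) / ((eval (px (q n) (x n)) Gm : ℤ) : ℂ)
    with hρ
  have hroot : ∀ᶠ n in (UU : Filter ℕ), ((lin R' Gm).map (evx (q n) (x n) ℂ)).eval (ρ n) = 0 := by
    filter_upwards [hFn0] with n hn
    exact lin_root (px (q n) (x n)) (by rw [hGme]; exact mul_ne_zero hm0 hn) (q n) (x n) rfl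
  obtain ⟨cf, hcf⟩ := Pool.Agent.Q4.Tube.root_exp H halg (P := lin R' Gm) (D := R'.totalDegree)
    (d := 2 * k) (by rw [lin_lc hGm0]; exact hGmt)
    (fun i => lin_hdeg hGm0 (Nat.le_add_right _ _) hGmd i) (lin_sep hGmt) ρ hroot 0
  have hclose : Sm q (-1) (fun n => (A n : ℂ) - ρ n) := by
    intro ε hε
    filter_upwards [hB (ε / 2) (half_pos hε), low_val S hS halg hind H hF htop (half_pos hε),
      hFn0, hvR] with n h1 h2 h3 h4
    have hqp := qpos H.big n
    have hmc : (m : ℂ) ≠ 0 := by exact_mod_cast hm0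
    have hFc : (Fn n : ℂ) ≠ 0 := by exact_mod_cast h3
    have h5 : (A n : ℂ) - ρ n = -((B n : ℂ) / (Fn n : ℂ)) := by
      rw [hρ]
      simp only []
      rw [h4, hGme]
      push_cast
      field_simp
      ring
    rw [h5, norm_neg, norm_div, Complex.norm_intCast (Fn n)]
    have h6 : 0 < |((Fn n : ℤ) : ℝ)| := by
      rw [abs_pos]
      exact_mod_cast h3
    rw [div_le_iff₀ h6]
    refine h1.trans ?_
    have h7 : (q n : ℝ) ^ (e + ε / 2) ≤ (q n : ℝ) ^ (-1 + ε) * (q n : ℝ) ^ (((2 * k : ℕ) : ℝ) - ε / 2) := by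
      rw [← Real.rpow_add hqp]
      apply Real.rpow_le_rpow_of_exponent_le (qone H.big n)
      push_cast
      linarith
    refine h7.trans ?_
    exact mul_le_mul_of_nonneg_left h2 (by positivity)
  obtain ⟨A', -, hA'⟩ := engineT S hS halg hind H (0 + R'.totalDegree) (fun _ => 1)
    (fun _ => one_ne_zero) (fun _ => by simp) 0 0 (fun n => by simp) A cf 1 one_pos (by
      refine (Sm.add H.big hclose hcf).congr (Eventually.of_forall fun n => ?_)
      simp only [pow_zero, Nat.cast_one, div_one, one_mul]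
      ring)
  have hA1 : ∀ᶠ n in (UU : Filter ℕ), (A n : ℚ) = va (q n) (x n) A' := by
    filter_upwards [hA'] with n hn
    rw [hn]
    simp
  refine ⟨G, A', G ^ 2 - FQ ^ 3 - A' * FQ, hA1, ?_, by ring⟩
  filter_upwards [hA1, hG] with n h1 h2
  have h3 : ((y n : ℚ)) ^ 2 = (Fn n : ℚ) ^ 3 + A n * (Fn n : ℚ) + B n := by exact_mod_cast heq n
  have h4 : va (q n) (x n) FQ = (Fn n : ℚ) := by rw [hFQ, map_px]
  rw [map_sub, map_sub, map_mul, map_pow, map_pow, ← h1, ← h2, h4, h3]
  ring

/-- **Coefficients are large**, along sequences. -/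
theorem lang_one {F : MvPolynomial (Option σ) ℤ} {k : ℕ} (hF : F.totalDegree ≤ 2 * k)
    (hk : 0 < k) (htop : topv (2 * k) F θ ≠ 0) (y A B : ℕ → ℤ)
    (heq : ∀ n, (y n) ^ 2 = (eval (px (q n) (x n)) F) ^ 3 + A n * (eval (px (q n) (x n)) F) + B n)
    (hdisc : ∀ n, 4 * (A n) ^ 3 + 27 * (B n) ^ 2 ≠ 0)
    {e : ℝ} (he0 : 0 ≤ e) (he : e < 1) (hA : Sm q e (fun n => (A n : ℂ)))
    (hB : Sm q e (fun n => (B n : ℂ))) : False := by
  have hkr : (1 : ℝ) ≤ k := by exact_mod_cast hk
  obtain ⟨G, A', B', hA', hB', hG⟩ := lang_seq S hS halg hind H hF hk htop y A B heq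
    (e := e) (by linarith) hA hB
  have hda := deg_le_of_sm S hS halg hind H A' he0 (hA.congr (by
    filter_upwards [hA'] with n hn
    rw [← hn]
    push_cast
    rfl))
  have hdb := deg_le_of_sm S hS halg hind H B' he0 (hB.congr (by
    filter_upwards [hB'] with n hn
    rw [← hn]
    push_cast
    rfl))
  have hda0 : (Phi θ (map (algebraMap ℚ ℝ) A')).natDegree = 0 := by
    have h1 : ((Phi θ (map (algebraMap ℚ ℝ) A')).natDegree : ℝ) < 1 := lt_of_le_of_lt hda he
    have h2 : (Phi θ (map (algebraMap ℚ ℝ) A')).natDegree < 1 := by exact_mod_cast h1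
    omega
  have hdb0 : (Phi θ (map (algebraMap ℚ ℝ) B')).natDegree = 0 := by
    have h1 : ((Phi θ (map (algebraMap ℚ ℝ) B')).natDegree : ℝ) < 1 := lt_of_le_of_lt hdb he
    have h2 : (Phi θ (map (algebraMap ℚ ℝ) B')).natDegree < 1 := by exact_mod_cast h1
    omega
  set Ψ : MvPolynomial (Option σ) ℚ →+* Polynomial (MvPolynomial σ ℝ) :=
    (Phi θ : MvPolynomial (Option σ) ℝ →+* Polynomial (MvPolynomial σ ℝ)).comp
      (map (algebraMap ℚ ℝ)) with hΨ
  have hΨi : Function.Injective Ψ := by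
    rw [injective_iff_map_eq_zero]
    intro R hR
    have h2 : tw θ (map (algebraMap ℚ ℝ) R) = 0 :=
      (map_eq_zero_iff _ (optionEquivLeft ℝ σ).injective).1 hR
    by_contra hne
    refine tw_ne θ (fun h => hne ?_) h2
    exact map_injective _ (algebraMap ℚ ℝ).injective (h.trans (map_zero _).symm)
  have hFd : (Ψ (map (Int.castRingHom ℚ) F)).natDegree = 2 * k := by
    have h1 : Ψ (map (Int.castRingHom ℚ) F) = Phi θ (map (Int.castRingHom ℝ) F) := by
      rw [hΨ, RingHom.comp_apply, MvPolynomial.map_map]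
      rfl
    rw [h1]
    exact Phi_eq θ hF htop
  refine no_point (Ψ (map (Int.castRingHom ℚ) F)) (Ψ G) (Ψ A') (Ψ B') (2 * k) hFd (by omega) ?_
    hda0 hdb0 ?_
  · rw [← map_pow, hG]
    simp only [map_add, map_mul, map_pow]
  · have h1 : 4 * (Ψ A') ^ 3 + 27 * (Ψ B') ^ 2 = Ψ (4 * A' ^ 3 + 27 * B' ^ 2) := by
      simp only [map_add, map_mul, map_pow, map_ofNat]
    rw [h1]
    intro h2
    have h3 : 4 * A' ^ 3 + 27 * B' ^ 2 = 0 := hΨi (h2.trans (map_zero Ψ).symm)
    obtain ⟨n, h4, h5⟩ := (hA'.and hB').exists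
    have h6 := congrArg (va (q n) (x n)) h3
    simp only [map_add, map_mul, map_pow, map_ofNat, map_zero] at h6
    rw [← h4, ← h5] at h6
    exact hdisc n (by exact_mod_cast h6)

end

section
variable {σ : Type} [Fintype σ] [DecidableEq σ]

/-- **Coefficients are large**, for all points near a ray. -/
theorem lang_main (S : Finset ℕ) (hS : ∀ p ∈ S, p.Prime) {θ : σ → ℝ}
    (halg : ∀ s, IsAlgebraic ℚ (θ s))
    (hind : LinearIndependent ℚ (fun o : Option σ => (o.elim 1 (fun s => θ s) : ℝ)))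
    {F : MvPolynomial (Option σ) ℤ} {k : ℕ} (hF : F.totalDegree ≤ 2 * k)
    (hk : 0 < k) (htop : topv (2 * k) F θ ≠ 0) {e : ℝ} (he0 : 0 ≤ e) (he : e < 1) :
    ∃ (η : ℝ) (N : ℕ), 0 < η ∧ ∀ q ≥ N, ∀ x, Near S θ η q x → ∀ y A B : ℤ,
      4 * A ^ 3 + 27 * B ^ 2 ≠ 0 → y ^ 2 = (eval (px q x) F) ^ 3 + A * (eval (px q x) F) + B →
      (q : ℝ) ^ e < max |(A : ℝ)| |(B : ℝ)| := by
  classical
  obtain ⟨η, N, hη, h⟩ := none_left S θ (Δ := ℤ × ℤ × ℤ) (fun q x d =>
      4 * d.2.1 ^ 3 + 27 * d.2.2 ^ 2 ≠ 0 ∧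
      d.1 ^ 2 = (eval (px q x) F) ^ 3 + d.2.1 * (eval (px q x) F) + d.2.2 ∧
      max |(d.2.1 : ℝ)| |(d.2.2 : ℝ)| ≤ (q : ℝ) ^ e) (by
    intro q x d H hd
    refine lang_one S hS halg hind H hF hk htop (fun n => (d n).1) (fun n => (d n).2.1)
      (fun n => (d n).2.2) (fun n => (hd n).2.1) (fun n => (hd n).1) he0 he ?_ ?_
    · intro ε hε
      refine Eventually.of_forall fun n => ?_
      rw [Complex.norm_intCast]
      exact ((le_max_left _ _).trans (hd n).2.2).trans
        (Real.rpow_le_rpow_of_exponent_le (qone H.big n) (by linarith))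
    · intro ε hε
      refine Eventually.of_forall fun n => ?_
      rw [Complex.norm_intCast]
      exact ((le_max_right _ _).trans (hd n).2.2).trans
        (Real.rpow_le_rpow_of_exponent_le (qone H.big n) (by linarith)))
  refine ⟨η, N, hη, fun q hq x hx y A B h1 h2 => ?_⟩
  by_contra hcon
  exact h q hq x hx (y, A, B) ⟨h1, h2, not_lt.1 hcon⟩

end

end Pool.Agent.Q4.Hall
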