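import Mathlib
import Pool.Agent.Q4.Hall.Lang

set_option autoImplicit false
set_option linter.unusedSectionVars false

/-!
# The size of the point in terms of the coefficients
-/

namespace Pool.Agent.Q4.Hall

open Filter Topology Pool.Agent.TH932.Abs Pool.Agent.TH932.Germs Pool.Agent.TH932.Chi
open Pool.Agent.TH796.AL Pool.Agent.Q4.Blk Pool.Agent.Q4.Gcd Pool.Agent.Q4.Cov Module MvPolynomial
open Pool.Agent.Q4.Tube

/-- an elementary bound for ordinates -/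
lemma ord_le {X Y A B Z M : ℝ} (heq : Y ^ 2 = X ^ 3 + A * X + B) (hX : |X| ≤ Z) (hM : M ≤ Z ^ 2)
    (hA : |A| ≤ M) (hB : |B| ≤ M) (hZ : 1 ≤ Z) : |Y| ≤ 2 * Z ^ (3 / 2 : ℝ) := by
  have hZ0 : 0 ≤ Z := by linarith
  have h1 : Y ^ 2 ≤ 3 * Z ^ 3 := by
    rw [heq]
    have h2 : X ^ 3 ≤ Z ^ 3 := by
      refine (le_abs_self _).trans ?_
      rw [abs_pow]
      exact pow_le_pow_left₀ (abs_nonneg _) hX 3
    have h3 : A * X ≤ Z ^ 3 := by
      refine (le_abs_self _).trans ?_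
      rw [abs_mul]
      calc |A| * |X| ≤ Z ^ 2 * Z := mul_le_mul (hA.trans hM) hX (abs_nonneg _) (by positivity)
        _ = Z ^ 3 := by ring
    have h4 : B ≤ Z ^ 3 := by
      refine (le_abs_self _).trans (hB.trans (hM.trans ?_))
      exact pow_le_pow_right₀ hZ (by norm_num)
    linarith
  have h5 : (Z ^ (3 / 2 : ℝ)) ^ 2 = Z ^ 3 := by
    rw [← Real.rpow_natCast, ← Real.rpow_mul hZ0]
    norm_num
  have h6 : |Y| ^ 2 ≤ (2 * Z ^ (3 / 2 : ℝ)) ^ 2 := by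
    rw [sq_abs, mul_pow, h5]
    have : 0 ≤ Z ^ 3 := by positivity
    linarith
  exact le_of_sq_le_sq h6 (by positivity)

section
variable {σ : Type} [Fintype σ] [DecidableEq σ]

/-- points whose coefficients are large compared with `q` -/
theorem size_main (S : Finset ℕ) {θ : σ → ℝ} {F : MvPolynomial (Option σ) ℤ} {k : ℕ}
    (hF : F.totalDegree ≤ 2 * k) (hk : 0 < k) {e : ℝ} (he0 : 0 < e) (he : e ≤ 1) {ε : ℝ} (hε : 0 < ε) :
    ∃ (η : ℝ) (N : ℕ), 0 < η ∧ ∀ q ≥ N, ∀ x, Near S θ η q x → ∀ y A B : ℤ,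
      y ^ 2 = (eval (px q x) F) ^ 3 + A * (eval (px q x) F) + B →
      (q : ℝ) ^ e < max |(A : ℝ)| |(B : ℝ)| →
      max |((eval (px q x) F : ℤ) : ℝ)| |(y : ℝ)| < (max |(A : ℝ)| |(B : ℝ)|) ^ (3 * k / e + ε) := by
  classical
  obtain ⟨η, N, hη, h⟩ := none_left S θ (Δ := ℤ × ℤ × ℤ) (fun q x d =>
      d.1 ^ 2 = (eval (px q x) F) ^ 3 + d.2.1 * (eval (px q x) F) + d.2.2 ∧
      (q : ℝ) ^ e < max |(d.2.1 : ℝ)| |(d.2.2 : ℝ)| ∧
      (max |(d.2.1 : ℝ)| |(d.2.2 : ℝ)|) ^ (3 * k / e + ε)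
        ≤ max |((eval (px q x) F : ℤ) : ℝ)| |(d.1 : ℝ)|) (by
    intro q x d H hd
    have hkr : (1 : ℝ) ≤ k := by exact_mod_cast hk
    obtain ⟨n, h1, h2⟩ := ((sm_val S H F hF (ε * e / 3) (by positivity)).and
      (big_ev H.big 3 (show 0 < e * ε / 2 by positivity))).exists
    rw [Complex.norm_intCast] at h1
    obtain ⟨h3, h4, h5⟩ := hd n
    set M : ℝ := max |((d n).2.1 : ℝ)| |((d n).2.2 : ℝ)| with hM
    set X : ℝ := ((eval (px (q n) (x n)) F : ℤ) : ℝ) with hX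
    have hq1 := qone H.big n
    have hqp := qpos H.big n
    have hM1 : 1 ≤ M := (Real.one_le_rpow hq1 he0.le).trans h4.le
    have hM0 : 0 < M := by linarith
    set c : ℝ := (((2 * k : ℕ) : ℝ) + ε * e / 3) / e with hc
    have hc1 : 1 / 2 ≤ c := by
      rw [hc, le_div_iff₀ he0]
      push_cast
      have : 0 < ε * e / 3 := by positivity
      linarith
    have hqM : (q n : ℝ) ^ (((2 * k : ℕ) : ℝ) + ε * e / 3) ≤ M ^ c := by
      have h6 : (q n : ℝ) ^ (((2 * k : ℕ) : ℝ) + ε * e / 3) = ((q n : ℝ) ^ e) ^ c := by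
        rw [← Real.rpow_mul hqp.le]
        congr 1
        rw [hc]
        field_simp
      rw [h6]
      exact Real.rpow_le_rpow (by positivity) h4.le (by linarith)
    have hXZ : |X| ≤ M ^ c := h1.trans hqM
    have hZ1 : 1 ≤ M ^ c := Real.one_le_rpow hM1 (by linarith)
    have hMZ : M ≤ (M ^ c) ^ 2 := by
      rw [← Real.rpow_natCast, ← Real.rpow_mul hM0.le]
      conv_lhs => rw [← Real.rpow_one M]
      apply Real.rpow_le_rpow_of_exponent_le hM1
      push_cast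
      linarith
    have h7 : |((d n).1 : ℝ)| ≤ 2 * (M ^ c) ^ (3 / 2 : ℝ) := by
      refine ord_le (X := X) (A := ((d n).2.1 : ℝ)) (B := ((d n).2.2 : ℝ)) ?_ hXZ hMZ (le_max_left _ _)
        (le_max_right _ _) hZ1
      rw [hX]
      exact_mod_cast h3
    have h8 : max |X| |((d n).1 : ℝ)| ≤ 2 * (M ^ c) ^ (3 / 2 : ℝ) := by
      refine max_le (hXZ.trans ?_) h7
      have h9 : M ^ c ≤ (M ^ c) ^ (3 / 2 : ℝ) := by
        conv_lhs => rw [← Real.rpow_one (M ^ c)]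
        exact Real.rpow_le_rpow_of_exponent_le hZ1 (by norm_num)
      have h10 : 0 ≤ (M ^ c) ^ (3 / 2 : ℝ) := by positivity
      linarith
    have h9 : (M ^ c) ^ (3 / 2 : ℝ) = M ^ (3 * k / e + ε / 2) := by
      rw [← Real.rpow_mul hM0.le]
      congr 1
      rw [hc]
      push_cast
      field_simp
    have h10 : (3 : ℝ) ≤ M ^ (ε / 2) := by
      refine h2.trans ?_
      have h11 : (q n : ℝ) ^ (e * ε / 2) = ((q n : ℝ) ^ e) ^ (ε / 2) := by
        rw [← Real.rpow_mul hqp.le]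
        congr 1
        ring
      rw [h11]
      exact Real.rpow_le_rpow (by positivity) h4.le (by positivity)
    have h11 : M ^ (3 * k / e + ε) = M ^ (ε / 2) * M ^ (3 * k / e + ε / 2) := by
      rw [← Real.rpow_add hM0]
      congr 1
      ring
    rw [h9] at h8
    rw [h11] at h5
    have h12 : 0 < M ^ (3 * k / e + ε / 2) := by positivity
    have h13 := h5.trans h8
    nlinarith)
  refine ⟨η, N, hη, fun q hq x hx y A B h1 h2 => ?_⟩
  by_contra hcon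
  exact h q hq x hx (y, A, B) ⟨h1, h2, not_lt.1 hcon⟩

omit [Fintype σ] [DecidableEq σ] in
lemma Near.mono {S : Finset ℕ} {θ : σ → ℝ} {η η' : ℝ} (h : η ≤ η') {q : ℕ} (hq : 1 ≤ q) {x : σ → ℤ}
    (hx : Near S θ η q x) : Near S θ η' q x := by
  have hq1 : (1 : ℝ) ≤ q := by exact_mod_cast hq
  obtain ⟨⟨u, w, h1, h2, h3⟩, h4⟩ := hx
  have h5 : (q : ℝ) ^ η ≤ (q : ℝ) ^ η' := Real.rpow_le_rpow_of_exponent_le hq1 h
  exact ⟨⟨u, w, h1, h2, h3.trans h5⟩, fun s => (h4 s).trans h5⟩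

end

end Pool.Agent.Q4.Hall
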