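import Mathlib
import Pool.Agent.Q4.Hall.Seq
import Pool.Agent.Q4.Opt.Few

set_option autoImplicit false
set_option linter.unusedSectionVars false

/-!
# Powers close to powers of polynomial values at nearly optimal approximations
-/

namespace Pool.Agent.Q4.Hall

open Filter Topology Pool.Agent.TH932.Abs Pool.Agent.TH932.Germs Pool.Agent.TH932.Chi
open Pool.Agent.TH796.AL Pool.Agent.Q4.Blk Pool.Agent.Q4.Gcd Pool.Agent.Q4.Cov Module
open Pool.Agent.Q4.Tube hiding Near sm_fr sm_vs sm_dl dl_tendsto dl_le_one sm_ord sm_any lim_evr branch' expand' px_ne root_bnd approxS root_exp deriv_seq sm_px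
open Pool.Agent.Q4.Opt
open MvPolynomial

/-- a rational polynomial vanishing to order `m` at an algebraic number of degree `≥ 3` -/
lemma mult_deg' {θ : ℝ} (hθ : IsAlgebraic ℚ θ)
    {r : Polynomial ℚ} (hr : r ≠ 0) {m : ℕ}
    (hm : (Polynomial.X - Polynomial.C θ) ^ m ∣ r.map (algebraMap ℚ ℝ)) : (minpoly ℚ θ).natDegree * m ≤ r.natDegree := by
  set f := minpoly ℚ θ with hf
  have hirr : Irreducible f := minpoly.irreducible hθ.isIntegral
  have hfin : FiniteMultiplicity f r := by
    refine Polynomial.finiteMultiplicity_of_degree_pos_of_monic ?_ (minpoly.monic hθ.isIntegral) hr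
    exact minpoly.degree_pos hθ.isIntegral
  obtain ⟨g, hg, hfg⟩ := hfin.exists_eq_pow_mul_and_not_dvd
  set k := multiplicity f r with hk
  have hrm : r.map (algebraMap ℚ ℝ) ≠ 0 := (Polynomial.map_ne_zero_iff (algebraMap ℚ ℝ).injective).2 hr
  have h1 : m ≤ (r.map (algebraMap ℚ ℝ)).rootMultiplicity θ := (Polynomial.le_rootMultiplicity_iff hrm).2 hm
  have hg0 : g ≠ 0 := by
    rintro rfl
    exact hfg (dvd_zero _)
  have hgm : (g.map (algebraMap ℚ ℝ)).rootMultiplicity θ = 0 := by
    apply Polynomial.rootMultiplicity_eq_zero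
    intro h
    apply hfg
    rw [hf]
    apply minpoly.dvd
    rw [Polynomial.aeval_def, ← Polynomial.eval_map]
    exact h
  have hfm : (f.map (algebraMap ℚ ℝ)).rootMultiplicity θ ≤ 1 := by
    have hsep : (f.map (algebraMap ℚ ℝ)).Separable := hirr.separable.map
    have h5 := Polynomial.rootMultiplicity_le_one_of_separable hsep θ
    exact h5
  have hff : f.map (algebraMap ℚ ℝ) ≠ 0 :=
    (Polynomial.map_ne_zero_iff (algebraMap ℚ ℝ).injective).2 hirr.ne_zero
  have h2 : (r.map (algebraMap ℚ ℝ)).rootMultiplicity θ ≤ k := by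
    rw [hg, Polynomial.map_mul, Polynomial.map_pow, Polynomial.rootMultiplicity_mul, hgm, add_zero]
    · have h3 : ∀ j : ℕ, (f.map (algebraMap ℚ ℝ) ^ j).rootMultiplicity θ ≤ j := by
        intro j
        induction j with
        | zero => simp
        | succ j ih =>
          rw [pow_succ, Polynomial.rootMultiplicity_mul (mul_ne_zero (pow_ne_zero _ hff) hff)]
          omega
      exact h3 k
    · exact mul_ne_zero (pow_ne_zero _ hff)
        ((Polynomial.map_ne_zero_iff (algebraMap ℚ ℝ).injective).2 hg0)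
  have h4 : r.natDegree = k * f.natDegree + g.natDegree := by
    conv_lhs => rw [hg]
    rw [Polynomial.natDegree_mul (pow_ne_zero _ hirr.ne_zero) hg0, Polynomial.natDegree_pow]
  rw [h4]
  nlinarith

/-- **No form over the rationals has large multiplicity at the point.** -/
theorem top_form' {θ : ℝ} (hθ : IsAlgebraic ℚ θ) {D : ℕ}
    {G : MvPolynomial (Option Unit) ℚ} (hG : G.IsHomogeneous D) (hG0 : G ≠ 0) :
    ∃ m ∈ (tw (fun _ : Unit => θ) (map (algebraMap ℚ ℝ) G)).support,
      (minpoly ℚ θ).natDegree * m (some ()) ≤ D := by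
  classical
  by_contra hcon
  push Not at hcon
  -- dehomogenisation
  set r : Polynomial ℚ := aeval (fun o : Option Unit => (o.elim 1 (fun _ => Polynomial.X) : Polynomial ℚ)) G
    with hr
  have hsum : ∀ m ∈ G.support, m none + m (some ()) = D := by
    intro m hm
    have := hG (mem_support_iff.1 hm)
    rw [← this, Finsupp.weight_apply, Finsupp.sum_fintype _ _ (by simp), Fintype.sum_option]
    simp
  have hre : r = ∑ m ∈ G.support, Polynomial.C (coeff m G) * Polynomial.X ^ (m (some ())) := by
    rw [hr]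
    conv_lhs => rw [as_sum G]
    rw [map_sum]
    refine Finset.sum_congr rfl fun m _ => ?_
    rw [aeval_monomial, Finsupp.prod_fintype _ _ (by simp), Fintype.prod_option]
    simp
  have hr0 : r ≠ 0 := by
    obtain ⟨m, hm⟩ := support_nonempty.2 hG0
    intro h
    have h1 := congrArg (fun p : Polynomial ℚ => p.coeff (m (some ()))) hre
    simp only [h, Polynomial.coeff_zero, Polynomial.finsetSum_coeff, Polynomial.coeff_C_mul,
      Polynomial.coeff_X_pow] at h1
    rw [Finset.sum_eq_single m] at h1
    · rw [if_pos rfl, mul_one] at h1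
      exact mem_support_iff.1 hm h1.symm
    · intro m' hm' hne
      rw [if_neg, mul_zero]
      intro h2
      apply hne
      ext o
      cases o with
      | none =>
        have h3 := hsum m hm
        have h4 := hsum m' hm'
        omega
      | some u => exact h2.symm
    · intro h2
      exact absurd hm h2
  have hrd : r.natDegree ≤ D := by
    rw [hre]
    refine Polynomial.natDegree_sum_le_of_forall_le _ _ fun m hm => ?_
    refine (Polynomial.natDegree_C_mul_X_pow_le _ _).trans ?_
    have := hsum m hm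
    omega
  set T := tw (fun _ : Unit => θ) (map (algebraMap ℚ ℝ) G) with hT
  have hTh : T.IsHomogeneous D := tw_hom _ (hG.map _)
  have hrT : r.map (algebraMap ℚ ℝ)
      = ∑ m ∈ T.support, Polynomial.C (coeff m T) * (Polynomial.C θ - Polynomial.X) ^ (m (some ())) := by
    have h1 : map (algebraMap ℚ ℝ) G = tw (fun _ : Unit => θ) T := by rw [hT, tw_tw]
    have h2 : r.map (algebraMap ℚ ℝ) = aeval (fun o : Option Unit =>
        (o.elim 1 (fun _ => Polynomial.X) : Polynomial ℝ)) (map (algebraMap ℚ ℝ) G) := by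
      rw [hr, aeval_map_algebraMap]
      have h5 : (Polynomial.mapAlgHom (Algebra.ofId ℚ ℝ) : Polynomial ℚ →ₐ[ℚ] Polynomial ℝ)
          (aeval (fun o : Option Unit => (o.elim 1 (fun _ => Polynomial.X) : Polynomial ℚ)) G)
          = aeval (fun o => (Polynomial.mapAlgHom (Algebra.ofId ℚ ℝ) : Polynomial ℚ →ₐ[ℚ] Polynomial ℝ)
            (o.elim 1 (fun _ => Polynomial.X))) G := by
        rw [← AlgHom.comp_apply, comp_aeval]
      have h6 : (Polynomial.mapAlgHom (Algebra.ofId ℚ ℝ) : Polynomial ℚ →ₐ[ℚ] Polynomial ℝ)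
          (aeval (fun o : Option Unit => (o.elim 1 (fun _ => Polynomial.X) : Polynomial ℚ)) G)
          = Polynomial.map (algebraMap ℚ ℝ)
          (aeval (fun o : Option Unit => (o.elim 1 (fun _ => Polynomial.X) : Polynomial ℚ)) G) := rfl
      rw [← h6, h5]
      congr 2
      funext o
      cases o with
      | none => simp
      | some u => simp
    rw [h2, h1]
    unfold tw
    rw [aeval_bind₁]
    conv_lhs => rw [as_sum T]
    rw [map_sum]
    refine Finset.sum_congr rfl fun m _ => ?_
    rw [aeval_monomial, Finsupp.prod_fintype _ _ (by simp), Fintype.prod_option]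
    simp
  set dd := (minpoly ℚ θ).natDegree with hdd
  have hdd0 : 0 < dd := minpoly.natDegree_pos hθ.isIntegral
  have h7 : (Polynomial.X - Polynomial.C θ) ^ (D / dd + 1) ∣ r.map (algebraMap ℚ ℝ) := by
    rw [hrT]
    refine Finset.dvd_sum fun m hm => Dvd.dvd.mul_left ?_ _
    have h8 := hcon m hm
    have h9 : Polynomial.C θ - Polynomial.X = -(Polynomial.X - Polynomial.C θ) := by ring
    rw [h9, neg_pow]
    refine Dvd.dvd.mul_left (pow_dvd_pow _ ?_) _
    exact Nat.succ_le_of_lt ((Nat.div_lt_iff_lt_mul hdd0).2 (by rw [mul_comm]; exact h8))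
  have h8 := mult_deg' hθ hr0 h7
  have h9 := Nat.lt_mul_div_succ D hdd0
  rw [← hdd] at h8
  omega


/-- **Nonconstant polynomials are not small** at nearly optimal approximations. -/
theorem notsmO' {S : Finset ℕ} {hS : ∀ p ∈ S, p.Prime} {θ : Unit → ℝ} {q : ℕ → ℕ}
    {x : ℕ → Unit → ℤ} (H : Ext S hS θ q x (fun _ => 0) (fun _ => 1))
    (halg : IsAlgebraic ℚ (θ ())) (h3 : 3 ≤ (minpoly ℚ (θ ())).natDegree)
    (G : MvPolynomial (Option Unit) ℚ) (hG0 : G ≠ 0) (e : ℝ)
    (he : Sm q e (fun n => ((va (q n) (x n) G : ℚ) : ℂ))) :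
    (1 - 2 / ((minpoly ℚ (θ ())).natDegree : ℝ)) * G.totalDegree ≤ e := by
  classical
  have hind : ∀ R : MvPolynomial (Option Unit) ℚ, Rel q x R → R = 0 :=
    fun R hR => indep H halg h3 (by simp) R hR
  set D := G.totalDegree with hD
  set T := tw θ (map (algebraMap ℚ ℝ) G) with hT
  have hTa : ∀ m, IsAlgebraic ℚ (coeff m T) := by
    intro m
    refine tw_alg (fun _ => halg) (fun k => ?_) m
    rw [coeff_map]
    exact isAlgebraic_algebraMap _
  -- the top form
  set Gt := homogeneousComponent D G with hGt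
  have hGt0 : Gt ≠ 0 := by
    obtain ⟨m, hm, hmd⟩ := Finset.exists_mem_eq_sup G.support (support_nonempty.2 hG0)
      (fun m => m.sum fun _ e => e)
    intro h
    have h1 := congrArg (coeff m) h
    rw [hGt, coeff_homogeneousComponent, if_pos, coeff_zero] at h1
    · exact MvPolynomial.mem_support_iff.1 hm h1
    · rw [hD, totalDegree, hmd]
      rfl
  obtain ⟨m, hm, hlt⟩ : ∃ m ∈ (tw (fun _ : Unit => θ ()) (map (algebraMap ℚ ℝ) Gt)).support,
      (minpoly ℚ (θ ())).natDegree * m (some ()) ≤ D :=
    top_form' halg (homogeneousComponent_isHomogeneous D G) hGt0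
  have h1 : tw (fun _ : Unit => θ ()) (map (algebraMap ℚ ℝ) Gt) = homogeneousComponent D T := by
    have h2 : map (algebraMap ℚ ℝ) G
        = ∑ i ∈ Finset.range (D + 1), map (algebraMap ℚ ℝ) (homogeneousComponent i G) := by
      conv_lhs => rw [← sum_homogeneousComponent G]
      rw [map_sum]
    have h4 : (fun _ : Unit => θ ()) = θ := rfl
    rw [h4, hT, h2, map_sum, map_sum, Finset.sum_eq_single D]
    · rw [homogeneousComponent_of_mem (tw_hom θ
        ((homogeneousComponent_isHomogeneous D G).map (algebraMap ℚ ℝ))), if_pos rfl]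
    · intro i _ hi
      rw [homogeneousComponent_of_mem (tw_hom θ
        ((homogeneousComponent_isHomogeneous i G).map (algebraMap ℚ ℝ))), if_neg (Ne.symm hi)]
    · intro h5
      exact absurd (Finset.mem_range.2 (Nat.lt_succ_self D)) h5
  rw [h1] at hm
  have h2 : coeff m T ≠ 0 := by
    rw [MvPolynomial.mem_support_iff] at hm
    rw [coeff_homogeneousComponent] at hm
    split_ifs at hm with h
    · exact hm
    · exact absurd rfl hm
  have hTd : T.totalDegree ≤ D := by
    refine (tw_deg θ _).trans ?_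
    refine Finset.sup_mono (support_map_subset _ _)
  have hmD : (m : Option Unit → ℕ) ∈ Ex (Option Unit) D := by
    rw [mem_Ex, ← sum_fs]
    exact (le_totalDegree (MvPolynomial.mem_support_iff.2 h2)).trans hTd
  have h4 := lowO H (fun _ => halg) hind (d := D) (fun a => coeff (fs a.1) T) (fun a => hTa _) e (by
    refine he.congr (Eventually.of_forall fun n => ?_)
    have h5 := va_tw θ G (le_refl D) (q n) (x n)
    rw [← h5]
    push_cast
    rfl) ⟨(m : Option Unit → ℕ), hmD⟩ (by
    simp only [fs_coe]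
    exact h2)
  unfold ex at h4
  simp only [Finset.univ_unique, Finset.sum_singleton, one_mul] at h4
  have h6 : (m (some default) : ℝ) = m (some ()) := rfl
  rw [h6] at h4
  set dd := (minpoly ℚ (θ ())).natDegree with hdd
  have hdd0 : (0 : ℝ) < dd := by exact_mod_cast (by omega : 0 < dd)
  have h7 : (m (some ()) : ℝ) ≤ D / dd := by
    rw [le_div_iff₀ hdd0, mul_comm]
    exact_mod_cast hlt
  have h8 : (m none : ℝ) + m (some ()) = D := by
    have h9 := (tw_hom θ ((homogeneousComponent_isHomogeneous D G).map (algebraMap ℚ ℝ)))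
      (show coeff m (tw θ (map (algebraMap ℚ ℝ) Gt)) ≠ 0 from by
        have h10 : tw θ (map (algebraMap ℚ ℝ) Gt) = homogeneousComponent D T := h1
        rw [h10]
        exact MvPolynomial.mem_support_iff.1 hm)
    rw [Finsupp.weight_apply, Finsupp.sum_fintype _ _ (by simp), Fintype.sum_option] at h9
    simp only [Pi.one_apply, smul_eq_mul, mul_one, Finset.univ_unique, Finset.sum_singleton] at h9
    have h11 : (default : Unit) = () := rfl
    rw [h11] at h9
    exact_mod_cast h9
  have h9 : (1 - 2 / (dd : ℝ)) * D = D - 2 * (D / dd) := by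
    field_simp
  rw [h9]
  linarith


section
variable {σ : Type} [Fintype σ] [DecidableEq σ]
variable {θ : σ → ℝ} {q : ℕ → ℕ} {x : ℕ → σ → ℤ}

/-- lower bound for the derivative at a sequence of roots -/
theorem deriv_seqN (H : Nr θ q x) (halg : ∀ s, IsAlgebraic ℚ (θ s))
    {P : Polynomial (MvPolynomial (Option σ) ℤ)} {D d : ℕ} (hk : 0 < P.natDegree) (hlead : topv d P.leadingCoeff θ ≠ 0)
    (hdeg : ∀ i, (P.coeff i).totalDegree ≤ (P.natDegree - i) * D + d)
    (hsep : (pnf P D d θ).Separable)
    (ρ : ℕ → ℂ) (hρ : ∀ᶠ n in (UU : Filter ℕ), (P.map (evx (q n) (x n) ℂ)).eval (ρ n) = 0) :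
    ∃ c : ℝ, 0 < c ∧ ∀ᶠ n in (UU : Filter ℕ), c * (q n : ℝ) ^ ((P.natDegree - 1) * D + d)
      ≤ ‖(P.map (evx (q n) (x n) ℂ)).derivative.eval (ρ n)‖ := by
  have hqn0 : ∀ n, q n ≠ 0 := px_ne H
  set θK : σ → QB := fun s => ⟨(θ s : ℂ), mem_algebraicClosure_iff.2 (alg_of_real.2 (halg s))⟩ with hθK
  have hθ : ∀ s, phi (θK s) = (θ s : ℂ) := fun s => rfl
  have hlead' : topv d P.leadingCoeff θK ≠ 0 := by
    intro h
    have h1 := topv_map phi d P.leadingCoeff θK
    rw [h, map_zero] at h1
    have h2 := topv_map (algebraMap ℝ ℂ) d P.leadingCoeff θ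
    have h3 : (fun s => phi (θK s)) = fun s => algebraMap ℝ ℂ (θ s) := rfl
    rw [h3, ← h2] at h1
    exact hlead ((map_eq_zero _).1 h1.symm)
  obtain ⟨M, hM⟩ := root_bnd (P := P) (D := D) (d := d) H θK hlead' hdeg
  set p : Polynomial (MvPolynomial (Option σ) QB) := ptl P D d θK with hp
  have hcc := ptl_cc hdeg θK
  set Y : ℕ → ℂ := fun n => ρ n / (q n : ℂ) ^ D with hY
  have hqc : ∀ n, (q n : ℂ) ≠ 0 := fun n => by exact_mod_cast hqn0 n
  have hroot : ∀ᶠ n in (UU : Filter ℕ), (p.map (evr phi (vs θ q x n))).eval (Y n) = 0 := by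
    filter_upwards [hρ] with n h1
    rw [← ptl_eval hθ hdeg (hqn0 n) (x n) (ρ n)] at h1
    exact (mul_eq_zero.1 h1).resolve_left (pow_ne_zero _ (hqc n))
  obtain ⟨η, hη⟩ := exists_limc Y M (by
    filter_upwards [hM, hroot] with n h1 h2
    exact h1 _ h2)
  -- limits of values of polynomials
  have hlim : ∀ g : Polynomial (MvPolynomial (Option σ) QB), Tendsto
      (fun n => (g.map (evr phi (vs θ q x n))).eval (Y n)) (UU : Filter ℕ)
      (𝓝 (((g.map constantCoeff).map phi).eval η)) := by
    intro g
    have hsum : ∀ (n : ℕ) (z : ℂ), (g.map (evr phi (vs θ q x n))).eval z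
        = ∑ i ∈ Finset.range (g.natDegree + 1), evr phi (vs θ q x n) (g.coeff i) * z ^ i := by
      intro n z
      rw [Polynomial.eval_map, Polynomial.eval₂_eq_sum_range]
    have h2 : ((g.map constantCoeff).map phi).eval η
        = ∑ i ∈ Finset.range (g.natDegree + 1), phi (constantCoeff (g.coeff i)) * η ^ i := by
      rw [Polynomial.map_map, Polynomial.eval_map, Polynomial.eval₂_eq_sum_range]
      rfl
    rw [h2]
    simp only [hsum]
    exact tendsto_finsetSum _ fun i _ => (lim_evr phi H _).mul (hη.pow i)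
  have h3 : (pnf P D d (fun s => (θ s : ℂ))).Separable := by
    have h4 := hsep.map (f := algebraMap ℝ ℂ)
    rw [pnf_map] at h4
    exact h4
  have h4 : (pnf P D d θK).map phi = pnf P D d (fun s => (θ s : ℂ)) := pnf_map phi θK
  have hη0 : (pnf P D d (fun s => (θ s : ℂ))).eval η = 0 := by
    have h1 := hlim p
    rw [hp, hcc, h4] at h1
    refine tendsto_nhds_unique h1 ?_
    refine tendsto_const_nhds.congr' ?_
    filter_upwards [hroot] with n hn
    exact hn.symm
  have hη1 : (pnf P D d (fun s => (θ s : ℂ))).derivative.eval η ≠ 0 := by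
    obtain ⟨a, b, hab⟩ := h3
    intro h
    have h5 := congrArg (Polynomial.eval η) hab
    rw [Polynomial.eval_add, Polynomial.eval_mul, Polynomial.eval_mul, hη0, h] at h5
    simp at h5
  have hd1 := hlim p.derivative
  have hd2 : ((p.derivative.map constantCoeff).map phi).eval η
      = (pnf P D d (fun s => (θ s : ℂ))).derivative.eval η := by
    rw [← Polynomial.derivative_map, ← Polynomial.derivative_map, hp, hcc, h4]
  rw [hd2] at hd1
  set c : ℝ := ‖(pnf P D d (fun s => (θ s : ℂ))).derivative.eval η‖ / 2 with hc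
  have hc0 : 0 < c := by
    have := norm_pos_iff.2 hη1
    positivity
  refine ⟨c, hc0, ?_⟩
  have hc1 : c < ‖(pnf P D d (fun s => (θ s : ℂ))).derivative.eval η‖ := by
    have := norm_pos_iff.2 hη1
    rw [hc]
    linarith
  filter_upwards [hd1.norm.eventually (lt_mem_nhds hc1)] with n hn
  -- the scaling
  have hsc : P.map (evx (q n) (x n) ℂ) = Polynomial.C ((q n : ℂ) ^ (P.natDegree * D + d))
      * (p.map (evr phi (vs θ q x n))).comp (Polynomial.C (((q n : ℂ) ^ D)⁻¹) * Polynomial.X) := by
    apply Polynomial.funext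
    intro z
    rw [← ptl_eval hθ hdeg (hqn0 n) (x n) z, Polynomial.eval_mul, Polynomial.eval_C,
      Polynomial.eval_comp, Polynomial.eval_mul, Polynomial.eval_C, Polynomial.eval_X]
    congr 2
    rw [div_eq_mul_inv, mul_comm]
  have hder : (P.map (evx (q n) (x n) ℂ)).derivative.eval (ρ n)
      = (q n : ℂ) ^ ((P.natDegree - 1) * D + d)
        * ((p.derivative.map (evr phi (vs θ q x n))).eval (Y n)) := by
    rw [hsc, Polynomial.derivative_mul, Polynomial.derivative_C, zero_mul, zero_add,
      Polynomial.derivative_comp, Polynomial.eval_mul, Polynomial.eval_mul, Polynomial.eval_C,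
      Polynomial.eval_comp, Polynomial.derivative_map]
    simp only [Polynomial.eval_mul, Polynomial.eval_C, Polynomial.eval_X, Polynomial.derivative_mul,
      Polynomial.derivative_C, zero_mul, Polynomial.derivative_X, mul_one, zero_add]
    have e1 : ((q n : ℂ) ^ D)⁻¹ * ρ n = Y n := by
      rw [hY]
      simp only []
      rw [div_eq_mul_inv, mul_comm]
    rw [e1]
    have e2 : (q n : ℂ) ^ (P.natDegree * D + d) = (q n : ℂ) ^ ((P.natDegree - 1) * D + d) * (q n : ℂ) ^ D := by
      rw [← pow_add]
      congr 1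
      have : P.natDegree = (P.natDegree - 1) + 1 := by omega
      conv_lhs => rw [this]
      ring
    rw [e2]
    have := pow_ne_zero D (hqc n)
    field_simp
  rw [hder, norm_mul, norm_pow, Complex.norm_natCast, mul_comm]
  exact mul_le_mul_of_nonneg_left hn.le (by positivity)


end

end Pool.Agent.Q4.Hall
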