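import Mathlib
import Pool.Agent.Q4.Hall.Opt
import Pool.Agent.Q4.Hall.Lang

set_option autoImplicit false
set_option linter.unusedSectionVars false

/-!
# Hall's inequality at nearly optimal approximations
-/

namespace Pool.Agent.Q4.Hall

open Filter Topology Pool.Agent.TH932.Abs Pool.Agent.TH932.Germs Pool.Agent.TH932.Chi
open Pool.Agent.TH796.AL Pool.Agent.Q4.Blk Pool.Agent.Q4.Gcd Pool.Agent.Q4.Cov Module
open Pool.Agent.Q4.Tube hiding Near sm_fr sm_vs sm_dl dl_tendsto dl_le_one sm_ord sm_any lim_evr branch' expand' px_ne root_bnd approxS root_exp deriv_seq sm_px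
open Pool.Agent.Q4.Opt
open MvPolynomial

section
variable {σ : Type} [Fintype σ] [DecidableEq σ]
variable {S : Finset ℕ} {hS : ∀ p ∈ S, p.Prime} {θ : σ → ℝ} {q : ℕ → ℕ} {x : ℕ → σ → ℤ}
  {β : Fin S.card → ℝ} {w : σ → ℝ}

/-- integers whose powers are close to powers of values of a polynomial are values of polynomials -/
theorem near_powO (H : Ext S hS θ q x β w) (halg : ∀ s, IsAlgebraic ℚ (θ s))
    (hind : ∀ R : MvPolynomial (Option σ) ℚ, Rel q x R → R = 0) {F : MvPolynomial (Option σ) ℤ} {D : ℕ} (hF : F.totalDegree ≤ D)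
    (htop : topv D F θ ≠ 0) {a b E : ℕ} (hb : 0 < b) (hE : b * E = a * D) (y : ℕ → ℤ) {δ : ℝ}
    (hδ : 0 < δ) (hy : Sm q (((b - 1) * E : ℕ) - δ)
      (fun n => (y n : ℂ) ^ b - ((eval (px (q n) (x n)) F : ℤ) : ℂ) ^ a)) :
    ∃ G : MvPolynomial (Option σ) ℚ, G.totalDegree ≤ E ∧
      ∀ᶠ n in (UU : Filter ℕ), (y n : ℚ) = va (q n) (x n) G := by
  classical
  set P : Polynomial (MvPolynomial (Option σ) ℤ) := Polynomial.X ^ b - Polynomial.C (F ^ a) with hP
  have hPd : P.natDegree = b := Polynomial.natDegree_X_pow_sub_C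
  have hPm : P.Monic := Polynomial.monic_X_pow_sub_C _ hb.ne'
  have hlead : topv 0 P.leadingCoeff θ ≠ 0 := by
    rw [hPm.leadingCoeff, topv_one]
    exact one_ne_zero
  have hFa : (F ^ a).totalDegree ≤ a * D := (totalDegree_pow _ _).trans (Nat.mul_le_mul_left _ hF)
  have hcoef : ∀ i, P.coeff i = (if i = b then 1 else 0) - (if i = 0 then F ^ a else 0) := by
    intro i
    rw [hP, Polynomial.coeff_sub, Polynomial.coeff_X_pow, Polynomial.coeff_C]
  have hdeg : ∀ i, (P.coeff i).totalDegree ≤ (P.natDegree - i) * E + 0 := by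
    intro i
    rw [hPd, add_zero, hcoef]
    by_cases h0 : i = 0
    · rw [h0, if_neg (by omega), if_pos rfl, zero_sub, totalDegree_neg, Nat.sub_zero, hE]
      exact hFa
    · rw [if_neg h0, sub_zero]
      split_ifs
      · rw [totalDegree_one]
        exact Nat.zero_le _
      · rw [totalDegree_zero]
        exact Nat.zero_le _
  have hpnf : pnf P E 0 θ = Polynomial.X ^ b - Polynomial.C ((topv D F θ) ^ a) := by
    ext j
    rw [Polynomial.coeff_sub, Polynomial.coeff_X_pow, Polynomial.coeff_C]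
    by_cases hj : j ≤ b
    · rw [pnf_coeff θ (by rw [hPd]; exact hj), hPd, add_zero, hcoef]
      by_cases h0 : j = 0
      · rw [h0, if_neg (by omega), if_pos rfl, if_neg (by omega), if_pos rfl, Nat.sub_zero, hE,
          zero_sub, zero_sub, ← topv_pow θ hF a]
        unfold topv
        rw [map_neg, map_neg]
      · rw [if_neg h0, if_neg h0, sub_zero, sub_zero]
        split_ifs with h1
        · rw [h1, Nat.sub_self, zero_mul]
          exact topv_one θ
        · unfold topv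
          rw [map_zero, map_zero]
    · rw [if_neg (by omega), if_neg (by omega), sub_zero]
      unfold pnf
      rw [Polynomial.finsetSum_coeff]
      refine Finset.sum_eq_zero fun i hi => ?_
      have hi' := Finset.mem_range.1 hi
      rw [hPd] at hi'
      rw [Polynomial.coeff_C_mul, Polynomial.coeff_X_pow, if_neg (by omega), mul_zero]
  have hsep : (pnf P E 0 θ).Separable := by
    rw [hpnf]
    exact Polynomial.separable_X_pow_sub_C _ (by exact_mod_cast hb.ne') (pow_ne_zero _ htop)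
  set f : ℕ → Polynomial ℂ := fun n => P.map (evx (q n) (x n) ℂ) with hf
  have hfe : ∀ n (z : ℂ), (f n).eval z = z ^ b - ((eval (px (q n) (x n)) F : ℤ) : ℂ) ^ a := by
    intro n z
    rw [hf]
    simp only []
    rw [hP, Polynomial.map_sub, Polynomial.map_pow, Polynomial.map_X, Polynomial.map_C,
      Polynomial.eval_sub, Polynomial.eval_pow, Polynomial.eval_X, Polynomial.eval_C, map_pow]
    rfl
  have hfd : ∀ n, (f n).natDegree = b := by
    intro n
    rw [hf]
    simp only []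
    rw [hPm.natDegree_map, hPd]
  have hnear : ∀ n, ∃ ρ : ℂ, (f n).eval ρ = 0 ∧
      ‖(y n : ℂ) - ρ‖ * ‖(f n).derivative.eval ρ‖ ≤ 2 ^ ((f n).natDegree - 1)
        * ‖(f n).eval (y n : ℂ)‖ := fun n => nearest (f n) (by rw [hfd]; exact hb) _
  choose ρ hρ0 hρ1 using hnear
  obtain ⟨c, hcpos, hder⟩ := deriv_seqN H.nr halg (by rw [hPd]; exact hb) hlead hdeg hsep ρ
    (Eventually.of_forall hρ0)
  obtain ⟨cf, hcf⟩ := Pool.Agent.Q4.Opt.root_exp H.nr halg hlead hdeg hsep ρ (Eventually.of_forall hρ0) 0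
  -- closeness
  have hclose : Sm q (-δ) (fun n => (y n : ℂ) - ρ n) := by
    have h1 := Sm.mul H.big (Sm.const H.big ((2 ^ (b - 1) / c : ℝ) : ℂ))
      (Sm.mul H.big hy (Sm.pow H.big (Sm.qinv H.big) ((b - 1) * E)))
    have e1 : (0 : ℝ) + (((b - 1) * E : ℕ) - δ + (((b - 1) * E : ℕ) : ℝ) * (-1)) = -δ := by ring
    rw [e1] at h1
    refine h1.le ?_
    filter_upwards [hder] with n hn
    have hqp := qpos H.big n
    rw [hPd, add_zero] at hn
    have h2 := hρ1 n
    rw [hfd, hfe] at h2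
    have h3 : ‖(y n : ℂ) - ρ n‖ * (c * (q n : ℝ) ^ ((b - 1) * E)) ≤ 2 ^ (b - 1)
        * ‖(y n : ℂ) ^ b - ((eval (px (q n) (x n)) F : ℤ) : ℂ) ^ a‖ :=
      (mul_le_mul_of_nonneg_left hn (norm_nonneg _)).trans h2
    have h4 : ‖((2 ^ (b - 1) / c : ℝ) : ℂ) * (((y n : ℂ) ^ b
        - ((eval (px (q n) (x n)) F : ℤ) : ℂ) ^ a) * (1 / (q n : ℂ)) ^ ((b - 1) * E))‖
        = (2 ^ (b - 1) / c) * (‖(y n : ℂ) ^ b - ((eval (px (q n) (x n)) F : ℤ) : ℂ) ^ a‖
          * (1 / (q n : ℝ)) ^ ((b - 1) * E)) := by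
      rw [norm_mul, norm_mul, norm_pow, norm_div, norm_one, Complex.norm_natCast,
        Complex.norm_real, Real.norm_eq_abs, abs_of_nonneg (by positivity)]
    rw [h4]
    have h5 : (2 ^ (b - 1) / c) * (‖(y n : ℂ) ^ b - ((eval (px (q n) (x n)) F : ℤ) : ℂ) ^ a‖
          * (1 / (q n : ℝ)) ^ ((b - 1) * E))
        = (2 ^ (b - 1) * ‖(y n : ℂ) ^ b - ((eval (px (q n) (x n)) F : ℤ) : ℂ) ^ a‖)
          / (c * (q n : ℝ) ^ ((b - 1) * E)) := by
      rw [one_div, inv_pow]
      field_simp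
    rw [h5, le_div_iff₀ (by positivity)]
    exact h3
  -- the engine
  obtain ⟨G, hG1, hG⟩ := engineO H halg hind (0 + E) y cf (min δ 1) (lt_min hδ one_pos) (by
      have h1 := Sm.add H.big (hclose.mono H.big (show -δ ≤ -min δ 1 by
        have := min_le_left δ 1
        linarith)) (hcf.mono H.big (show (-1 : ℝ) ≤ -min δ 1 by
        have := min_le_right δ 1
        linarith))
      refine h1.congr (Eventually.of_forall fun n => ?_)
      simp only [pow_zero, one_mul]
      ring)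
  exact ⟨G, by rwa [zero_add] at hG1, hG⟩


end

section
variable {S : Finset ℕ} {hS : ∀ p ∈ S, p.Prime} {θ : Unit → ℝ} {q : ℕ → ℕ} {x : ℕ → Unit → ℤ}

/-- the degree along the ray is at most the total degree -/
lemma Phi_le_total (θ : Unit → ℝ) (R : MvPolynomial (Option Unit) ℚ) :
    (Phi θ (map (algebraMap ℚ ℝ) R)).natDegree ≤ R.totalDegree :=
  Phi_le θ (Finset.sup_mono (support_map_subset _ _))

/-- the map to polynomials over a domain -/
noncomputable def Psi {σ : Type} [Fintype σ] [DecidableEq σ] (θ : σ → ℝ) :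
    MvPolynomial (Option σ) ℚ →+* Polynomial (MvPolynomial σ ℝ) :=
  (Phi θ : MvPolynomial (Option σ) ℝ →+* Polynomial (MvPolynomial σ ℝ)).comp (map (algebraMap ℚ ℝ))

lemma Psi_inj {σ : Type} [Fintype σ] [DecidableEq σ] (θ : σ → ℝ) : Function.Injective (Psi θ) := by
  rw [injective_iff_map_eq_zero]
  intro R hR
  have h2 : tw θ (map (algebraMap ℚ ℝ) R) = 0 :=
    (map_eq_zero_iff _ (optionEquivLeft ℝ σ).injective).1 hR
  by_contra hne
  refine tw_ne θ (fun h => hne ?_) h2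
  exact map_injective _ (algebraMap ℚ ℝ).injective (h.trans (map_zero _).symm)

lemma Psi_int {σ : Type} [Fintype σ] [DecidableEq σ] (θ : σ → ℝ) (F : MvPolynomial (Option σ) ℤ) :
    Psi θ (map (Int.castRingHom ℚ) F) = Phi θ (map (Int.castRingHom ℝ) F) := by
  unfold Psi
  rw [RingHom.comp_apply, MvPolynomial.map_map]
  rfl

/-- **Hall's inequality** at nearly optimal approximations, along sequences. -/
theorem hall_seqO (H : Ext S hS θ q x (fun _ => 0) (fun _ => 1)) (halg : IsAlgebraic ℚ (θ ()))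
    (h3 : 3 ≤ (minpoly ℚ (θ ())).natDegree)
    {F : MvPolynomial (Option Unit) ℤ} {D : ℕ} (hF : F.totalDegree ≤ D) (hD : 0 < D)
    (htop : topv D F θ ≠ 0) {a b E : ℕ} (ha : 0 < a) (hb : 0 < b) (hE : b * E = a * D)
    (hEa : E ≤ (a - 1) * D + 1) (y : ℕ → ℤ)
    (hne : ∀ n, (y n) ^ b ≠ (eval (px (q n) (x n)) F) ^ a) {e : ℝ}
    (he : e < (1 - 2 / ((minpoly ℚ (θ ())).natDegree : ℝ)) * ((((a - 1) * D + 1 : ℕ) : ℝ) - E)) :
    ¬ Sm q e (fun n => (y n : ℂ) ^ b - ((eval (px (q n) (x n)) F : ℤ) : ℂ) ^ a) := by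
  classical
  intro hsm
  have hind : ∀ R : MvPolynomial (Option Unit) ℚ, Rel q x R → R = 0 :=
    fun R hR => indep H halg h3 (by simp) R hR
  set dd : ℝ := ((minpoly ℚ (θ ())).natDegree : ℝ) with hdd
  have hdd3 : 3 ≤ dd := by rw [hdd]; exact_mod_cast h3
  have hfac0 : 0 < 1 - 2 / dd := by
    rw [sub_pos, div_lt_one (by linarith)]
    linarith
  have hfac1 : 1 - 2 / dd ≤ 1 := by
    have : 0 < 2 / dd := by positivity
    linarith
  have hEle : ((a - 1) * D + 1) ≤ (b - 1) * E + E := by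
    have h1 : (b - 1) * E + E = b * E := by
      obtain ⟨b', rfl⟩ : ∃ b', b = b' + 1 := ⟨b - 1, by omega⟩
      rw [Nat.add_sub_cancel]
      ring
    have h2 : (a - 1) * D + D = a * D := by
      obtain ⟨a', rfl⟩ : ∃ a', a = a' + 1 := ⟨a - 1, by omega⟩
      rw [Nat.add_sub_cancel]
      ring
    omega
  set g : ℝ := (((a - 1) * D + 1 : ℕ) : ℝ) - E with hg
  have hg0 : 0 ≤ g := by
    rw [hg, sub_nonneg]
    exact_mod_cast hEa
  have hgb : g ≤ (((b - 1) * E : ℕ) : ℝ) := by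
    have h1 : (((a - 1) * D + 1 : ℕ) : ℝ) ≤ (((b - 1) * E + E : ℕ) : ℝ) := by exact_mod_cast hEle
    rw [hg]
    push_cast at h1 ⊢
    linarith
  obtain ⟨G, -, hG⟩ := near_powO H (fun _ => halg) hind hF htop hb hE y
    (δ := (1 - 2 / dd) * g - e) (by linarith) (hsm.mono H.big (by
      have h1 : (1 - 2 / dd) * g ≤ g := by nlinarith
      linarith))
  set R : MvPolynomial (Option Unit) ℚ := G ^ b - (map (Int.castRingHom ℚ) F) ^ a with hR
  have hRv : ∀ᶠ n in (UU : Filter ℕ), va (q n) (x n) R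
      = (y n : ℚ) ^ b - ((eval (px (q n) (x n)) F : ℤ) : ℚ) ^ a := by
    filter_upwards [hG] with n hn
    rw [hR, map_sub, map_pow, map_pow, ← hn, map_px]
  have hR0 : R ≠ 0 := by
    intro h
    obtain ⟨n, hn⟩ := hRv.exists
    rw [h, map_zero] at hn
    apply hne n
    have h2 : (y n : ℚ) ^ b = ((eval (px (q n) (x n)) F : ℤ) : ℚ) ^ a := (sub_eq_zero.1 hn.symm)
    exact_mod_cast h2
  have hPR : Psi θ R = Psi θ G ^ b - Phi θ (map (Int.castRingHom ℝ) F) ^ a := by
    rw [hR, map_sub, map_pow, map_pow, Psi_int]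
  have hdav := dav (Phi θ (map (Int.castRingHom ℝ) F)) (Psi θ G) a b D E (Phi_eq θ hF htop) hD hb ha
    hE (by
    intro h
    apply hR0
    apply Psi_inj θ
    rw [hPR, h, sub_self, map_zero])
  rw [← hPR] at hdav
  have h1 : (Psi θ R).natDegree ≤ R.totalDegree := Phi_le_total θ R
  have h2 := notsmO' H halg h3 R hR0 e (hsm.congr (by
    filter_upwards [hRv] with n hn
    rw [hn]
    push_cast
    rfl))
  rw [← hdd] at h2
  have h4 : g ≤ R.totalDegree := by
    have h5 : (((a - 1) * D + 1 : ℕ) : ℝ) ≤ ((R.totalDegree + E : ℕ) : ℝ) := by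
      exact_mod_cast (by omega : (a - 1) * D + 1 ≤ R.totalDegree + E)
    rw [hg]
    push_cast at h5 ⊢
    linarith
  have h5 : (1 - 2 / dd) * g ≤ (1 - 2 / dd) * R.totalDegree := mul_le_mul_of_nonneg_left h4 hfac0.le
  linarith

/-- **Hall's inequality** at all nearly optimal approximations. -/
theorem hall_mainO (θ : Unit → ℝ) (halg : IsAlgebraic ℚ (θ ()))
    (h3 : 3 ≤ (minpoly ℚ (θ ())).natDegree)
    {F : MvPolynomial (Option Unit) ℤ} {D : ℕ} (hF : F.totalDegree ≤ D) (hD : 0 < D)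
    (htop : topv D F θ ≠ 0) {a b E : ℕ} (ha : 0 < a) (hb : 0 < b) (hE : b * E = a * D)
    (hEa : E ≤ (a - 1) * D) (e : ℝ)
    (he : e * D < (1 - 2 / ((minpoly ℚ (θ ())).natDegree : ℝ)) * ((((a - 1) * D + 1 : ℕ) : ℝ) - E)) :
    ∃ (η : ℝ) (N : ℕ), 0 < η ∧ ∀ q ≥ N, ∀ x : Unit → ℤ,
      (q : ℝ) * |θ () * q - x ()| ≤ (q : ℝ) ^ η → ∀ y : ℤ,
      y ^ b ≠ (eval (px q x) F) ^ a →
      |((eval (px q x) F : ℤ) : ℝ)| ^ e < |(y : ℝ) ^ b - ((eval (px q x) F : ℤ) : ℝ) ^ a| := by
  classical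
  obtain ⟨η, N, hη, h⟩ := none_leftO ∅ (by simp) θ (Δ := ℤ) (fun η q x y =>
      ((q : ℝ) * |θ () * q - x ()| ≤ (q : ℝ) ^ η) ∧ y ^ b ≠ (eval (px q x) F) ^ a ∧
      |(y : ℝ) ^ b - ((eval (px q x) F : ℤ) : ℝ) ^ a| ≤ |((eval (px q x) F : ℤ) : ℝ)| ^ e) (by
    intro q x y β w H' _ hd
    have H : Ext ∅ (by simp) θ q x (fun _ => 0) (fun _ => 1) := ext_one H'.big (fun n => (hd n).1)
    set dd : ℝ := ((minpoly ℚ (θ ())).natDegree : ℝ) with hdd
    have hdd3 : 3 ≤ dd := by rw [hdd]; exact_mod_cast h3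
    have hfac0 : 0 < 1 - 2 / dd := by
      rw [sub_pos, div_lt_one (by linarith)]
      linarith
    set g : ℝ := (((a - 1) * D + 1 : ℕ) : ℝ) - E with hg
    have hg1 : 1 ≤ g := by
      have h1 : (E : ℝ) ≤ (((a - 1) * D : ℕ) : ℝ) := by exact_mod_cast hEa
      rw [hg]
      push_cast at h1 ⊢
      linarith
    have hgp : 0 < (1 - 2 / dd) * g := by positivity
    -- the upper bound
    have hup : ∃ δ : ℝ, 0 < δ ∧ ∀ᶠ n in (UU : Filter ℕ),
        |((eval (px (q n) (x n)) F : ℤ) : ℝ)| ^ e ≤ (q n : ℝ) ^ ((1 - 2 / dd) * g - δ) := by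
      rcases le_or_gt e 0 with h0 | h0
      · refine ⟨(1 - 2 / dd) * g / 2, by positivity, Eventually.of_forall fun n => ?_⟩
        have h1 : |((eval (px (q n) (x n)) F : ℤ) : ℝ)| ^ e ≤ 1 := by
          rcases eq_or_ne (eval (px (q n) (x n)) F) 0 with h2 | h2
          · rw [h2, Int.cast_zero, abs_zero]
            rcases eq_or_lt_of_le h0 with h3 | h3
            · rw [h3, Real.rpow_zero]
            · rw [Real.zero_rpow h3.ne]
              exact zero_le_one
          · apply Real.rpow_le_one_of_one_le_of_nonpos _ h0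
            exact_mod_cast Int.one_le_abs h2
        exact h1.trans (Real.one_le_rpow (qone H.big n) (by linarith))
      · set δ : ℝ := ((1 - 2 / dd) * g - e * D) / 2 with hδ
        have hδ0 : 0 < δ := by rw [hδ]; linarith
        refine ⟨δ, hδ0, ?_⟩
        filter_upwards [(H.sm_val F).mono H.big (show ((F.totalDegree : ℕ) : ℝ) ≤ (D : ℝ) by
          exact_mod_cast hF) (δ / e) (by positivity)] with n hn
        rw [Complex.norm_intCast] at hn
        refine (Real.rpow_le_rpow (abs_nonneg _) hn h0.le).trans (le_of_eq ?_)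
        rw [← Real.rpow_mul (qpos H.big n).le]
        congr 1
        have h8 : ((D : ℝ) + δ / e) * e = D * e + δ := by field_simp
        rw [h8]
        linarith
    obtain ⟨δ, hδ, hup⟩ := hup
    refine hall_seqO H halg h3 hF hD htop ha hb hE (by omega) y (fun n => (hd n).2.1)
      (e := (1 - 2 / dd) * g - δ) (by rw [← hdd, ← hg]; linarith) ?_
    intro ε' hε'
    filter_upwards [hup] with n hn
    have h1 : (y n : ℂ) ^ b - ((eval (px (q n) (x n)) F : ℤ) : ℂ) ^ a
        = (((y n : ℝ) ^ b - ((eval (px (q n) (x n)) F : ℤ) : ℝ) ^ a : ℝ) : ℂ) := by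
      push_cast
      rfl
    rw [h1, Complex.norm_real, Real.norm_eq_abs]
    exact ((hd n).2.2.trans hn).trans
      (Real.rpow_le_rpow_of_exponent_le (qone H.big n) (by linarith)))
  refine ⟨η, N, hη, fun q hq x hx y hy => ?_⟩
  by_contra hcon
  exact h q hq x ⟨1, q, (one_mul q).symm, by simp, hx⟩ y ⟨hx, hy, not_lt.1 hcon⟩

end

end Pool.Agent.Q4.Hall
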