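import Mathlib
import Pool.Agent.Q4.Hall.OptMain
import Pool.Agent.Q4.Hall.Bound

set_option autoImplicit false
set_option linter.unusedSectionVars false

/-!
# Integral points on Weierstrass curves with abscissae at nearly optimal approximations
-/

namespace Pool.Agent.Q4.Hall

open Filter Topology Pool.Agent.TH932.Abs Pool.Agent.TH932.Germs Pool.Agent.TH932.Chi
open Pool.Agent.TH796.AL Pool.Agent.Q4.Blk Pool.Agent.Q4.Gcd Pool.Agent.Q4.Cov Module
open Pool.Agent.Q4.Tube hiding Near sm_fr sm_vs sm_dl dl_tendsto dl_le_one sm_ord sm_any lim_evr branch' expand' px_ne root_bnd approxS root_exp deriv_seq sm_px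
open Pool.Agent.Q4.Opt
open MvPolynomial

section
variable {σ : Type} [Fintype σ] [DecidableEq σ]

/-- the lower bound of a polynomial that does not vanish at infinity -/
lemma low_valN {θ : σ → ℝ} {q : ℕ → ℕ} {x : ℕ → σ → ℤ} (H : Nr θ q x)
    (halg : ∀ s, IsAlgebraic ℚ (θ s)) {F : MvPolynomial (Option σ) ℤ} {D : ℕ}
    (hF : F.totalDegree ≤ D) (htop : topv D F θ ≠ 0) {ε : ℝ} (hε : 0 < ε) :
    ∀ᶠ n in (UU : Filter ℕ),
      (q n : ℝ) ^ ((D : ℝ) - ε) ≤ |((eval (px (q n) (x n)) F : ℤ) : ℝ)| := by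
  set θK : σ → QB := fun s => ⟨(θ s : ℂ), mem_algebraicClosure_iff.2 (alg_of_real.2 (halg s))⟩ with hθK
  have hθ : ∀ s, phi (θK s) = (θ s : ℂ) := fun s => rfl
  have htop' : topv D F θK ≠ 0 := by
    intro h
    have h1 := topv_map phi D F θK
    rw [h, map_zero] at h1
    have h2 := topv_map (algebraMap ℝ ℂ) D F θ
    have h3 : (fun s => phi (θK s)) = fun s => algebraMap ℝ ℂ (θ s) := rfl
    rw [h3, ← h2] at h1
    exact htop ((map_eq_zero _).1 h1.symm)
  have hlim := (Pool.Agent.Q4.Opt.lim_evr phi H (hmg θK D F)).norm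
  rw [cc_hmg θK D _ hF] at hlim
  set c : ℝ := ‖phi (topv D F θK)‖ with hc
  have hc0 : 0 < c := norm_pos_iff.2 ((map_ne_zero _).2 htop')
  filter_upwards [hlim.eventually (lt_mem_nhds (show c / 2 < c by linarith)),
    big_ev H.big (2 / c) hε] with n h1 h2
  have hqp := qpos H.big n
  have hq0 : q n ≠ 0 := by
    have := H.big n
    omega
  have h3 := evr_hmgx phi hθ D F hF (q n) hq0 (x n)
  have h4 : |((eval (px (q n) (x n)) F : ℤ) : ℝ)|
      = (q n : ℝ) ^ D * ‖evr phi (vs θ q x n) (hmg θK D F)‖ := by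
    rw [← Complex.norm_intCast, ← h3, norm_mul, norm_pow, Complex.norm_natCast]
    rfl
  rw [h4]
  have h5 : (q n : ℝ) ^ ((D : ℝ) - ε) = (q n : ℝ) ^ D / (q n : ℝ) ^ ε := by
    rw [Real.rpow_sub hqp, Real.rpow_natCast]
  rw [h5, div_eq_mul_inv]
  apply mul_le_mul_of_nonneg_left _ (by positivity)
  have h6 : ((q n : ℝ) ^ ε)⁻¹ ≤ c / 2 := by
    rw [inv_le_comm₀ (by positivity) (by positivity)]
    refine le_trans (le_of_eq ?_) h2
    rw [inv_div]
  exact h6.trans h1.le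

variable {S : Finset ℕ} {hS : ∀ p ∈ S, p.Prime} {θ : σ → ℝ} {q : ℕ → ℕ} {x : ℕ → σ → ℤ}
  {β : Fin S.card → ℝ} {w : σ → ℝ}

/-- coefficients of Weierstrass curves with an integral point of given abscissa are values of
polynomials, if they are small -/
theorem lang_seqO (H : Ext S hS θ q x β w) (halg : ∀ s, IsAlgebraic ℚ (θ s))
    (hind : ∀ R : MvPolynomial (Option σ) ℚ, Rel q x R → R = 0) {F : MvPolynomial (Option σ) ℤ} {k : ℕ} (hF : F.totalDegree ≤ 2 * k)
    (hk : 0 < k) (htop : topv (2 * k) F θ ≠ 0) (y A B : ℕ → ℤ)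
    (heq : ∀ n, (y n) ^ 2 = (eval (px (q n) (x n)) F) ^ 3 + A n * (eval (px (q n) (x n)) F) + B n)
    {e : ℝ} (he : e < k) (hA : Sm q e (fun n => (A n : ℂ))) (hB : Sm q e (fun n => (B n : ℂ))) :
    ∃ G A' B' : MvPolynomial (Option σ) ℚ,
      (∀ᶠ n in (UU : Filter ℕ), (A n : ℚ) = va (q n) (x n) A') ∧
      (∀ᶠ n in (UU : Filter ℕ), (B n : ℚ) = va (q n) (x n) B') ∧
      G ^ 2 = (map (Int.castRingHom ℚ) F) ^ 3 + A' * map (Int.castRingHom ℚ) F + B' := by
  classical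
  set Fn : ℕ → ℤ := fun n => eval (px (q n) (x n)) F with hFn
  have hsF := (H.sm_val F).mono H.big (show ((F.totalDegree : ℕ) : ℝ) ≤ ((2 * k : ℕ) : ℝ) by
    exact_mod_cast hF)
  have hkr : (1 : ℝ) ≤ k := by exact_mod_cast hk
  -- the ordinate
  obtain ⟨G, -, hG⟩ := near_powO H halg hind hF htop (a := 3) (b := 2) (E := 3 * k)
    (by norm_num) (by ring) y (δ := k - e) (by linarith) (by
      have h1 := Sm.mul H.big hA hsF
      have h2 := Sm.add H.big h1 (hB.mono H.big (show e ≤ e + ((2 * k : ℕ) : ℝ) by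
        have : (0 : ℝ) ≤ ((2 * k : ℕ) : ℝ) := Nat.cast_nonneg _
        linarith))
      refine (h2.mono H.big ?_).congr (Eventually.of_forall fun n => ?_)
      · push_cast
        norm_num
        linarith
      · have h3 := heq n
        have h4 : ((y n : ℂ)) ^ 2 = ((eval (px (q n) (x n)) F : ℤ) : ℂ) ^ 3
            + A n * ((eval (px (q n) (x n)) F : ℤ) : ℂ) + B n := by exact_mod_cast h3
        rw [h4]
        ring)
  set FQ : MvPolynomial (Option σ) ℚ := map (Int.castRingHom ℚ) F with hFQ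
  obtain ⟨m, R', hm0, hR'⟩ := exists_int (G ^ 2 - FQ ^ 3)
  have hvR : ∀ᶠ n in (UU : Filter ℕ), eval (px (q n) (x n)) R' = m * (A n * Fn n + B n) := by
    filter_upwards [hG] with n hn
    have h1 : va (q n) (x n) (map (Int.castRingHom ℚ) R')
        = m * ((y n : ℚ) ^ 2 - (Fn n : ℚ) ^ 3) := by
      rw [hR', map_mul, map_sub, map_pow, map_pow, ← hn, hFQ, map_px]
      congr 1
      unfold va
      rw [aeval_C]
      rfl
    rw [map_px] at h1
    have h2 : eval (px (q n) (x n)) R' = m * ((y n) ^ 2 - (Fn n) ^ 3) := by exact_mod_cast h1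
    rw [h2, heq n]
    ring
  -- the coefficient `A`
  set Gm : MvPolynomial (Option σ) ℤ := C m * F with hGm
  have hGmd : Gm.totalDegree ≤ 2 * k := by
    refine (totalDegree_mul _ _).trans ?_
    rw [totalDegree_C, zero_add]
    exact hF
  have hGmt : topv (2 * k) Gm θ ≠ 0 := by
    have h1 : topv (2 * k) Gm θ = (m : ℝ) * topv (2 * k) F θ := by
      unfold topv
      rw [hGm, homogeneousComponent_C_mul, map_mul]
      congr 1
      simp
    rw [h1]
    exact mul_ne_zero (by exact_mod_cast hm0) htop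
  have hGm0 : Gm ≠ 0 := topv_ne hGmt
  have hGme : ∀ n, eval (px (q n) (x n)) Gm = m * Fn n := fun n => by
    rw [hGm, map_mul, eval_C]
  have hFn0 : ∀ᶠ n in (UU : Filter ℕ), Fn n ≠ 0 := by
    filter_upwards [low_valN H.nr halg hF htop one_pos] with n hn h0
    have h1 : eval (px (q n) (x n)) F = 0 := h0
    rw [h1, Int.cast_zero, abs_zero] at hn
    have := qpos H.big n
    have h2 : 0 < (q n : ℝ) ^ (((2 * k : ℕ) : ℝ) - 1) := by positivity
    linarith
  set ρ : ℕ → ℂ := fun n => ((eval (px (q n) (x n)) R' : ℤ) : ℂ) / ((eval (px (q n) (x n)) Gm : ℤ) : ℂ)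
    with hρ
  have hroot : ∀ᶠ n in (UU : Filter ℕ), ((lin R' Gm).map (evx (q n) (x n) ℂ)).eval (ρ n) = 0 := by
    filter_upwards [hFn0] with n hn
    exact lin_root (px (q n) (x n)) (by rw [hGme]; exact mul_ne_zero hm0 hn) (q n) (x n) rfl
  obtain ⟨cf, hcf⟩ := Pool.Agent.Q4.Opt.root_exp H.nr halg (P := lin R' Gm) (D := R'.totalDegree)
    (d := 2 * k) (by rw [lin_lc hGm0]; exact hGmt)
    (fun i => lin_hdeg hGm0 (Nat.le_add_right _ _) hGmd i) (lin_sep hGmt) ρ hroot 0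
  have hclose : Sm q (-1) (fun n => (A n : ℂ) - ρ n) := by
    intro ε hε
    filter_upwards [hB (ε / 2) (half_pos hε), low_valN H.nr halg hF htop (half_pos hε),
      hFn0, hvR] with n h1 h2 h3 h4
    have hqp := qpos H.big n
    have hmc : (m : ℂ) ≠ 0 := by exact_mod_cast hm0
    have hFc : (Fn n : ℂ) ≠ 0 := by exact_mod_cast h3
    have h5 : (A n : ℂ) - ρ n = -((B n : ℂ) / (Fn n : ℂ)) := by
      rw [hρ]
      simp only []
      rw [h4, hGme]
      push_cast
      field_simp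
      ring
    rw [h5, norm_neg, norm_div, Complex.norm_intCast (Fn n)]
    have h6 : 0 < |((Fn n : ℤ) : ℝ)| := by
      rw [abs_pos]
      exact_mod_cast h3
    rw [div_le_iff₀ h6]
    refine h1.trans ?_
    have h7 : (q n : ℝ) ^ (e + ε / 2) ≤ (q n : ℝ) ^ (-1 + ε) * (q n : ℝ) ^ (((2 * k : ℕ) : ℝ) - ε / 2) := by
      rw [← Real.rpow_add hqp]
      apply Real.rpow_le_rpow_of_exponent_le (qone H.big n)
      push_cast
      linarith
    refine h7.trans ?_
    exact mul_le_mul_of_nonneg_left h2 (by positivity)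
  obtain ⟨A', -, hA1⟩ := engineO H halg hind (0 + R'.totalDegree) A cf 1 one_pos (by
      refine (Sm.add H.big hclose hcf).congr (Eventually.of_forall fun n => ?_)
      simp only [pow_zero, one_mul]
      ring)
  refine ⟨G, A', G ^ 2 - FQ ^ 3 - A' * FQ, hA1, ?_, by ring⟩
  filter_upwards [hA1, hG] with n h1 h2
  have h3 : ((y n : ℚ)) ^ 2 = (Fn n : ℚ) ^ 3 + A n * (Fn n : ℚ) + B n := by exact_mod_cast heq n
  have h4 : va (q n) (x n) FQ = (Fn n : ℚ) := by rw [hFQ, map_px]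
  rw [map_sub, map_sub, map_mul, map_pow, map_pow, ← h1, ← h2, h4, h3]
  ring


end

section
variable {S : Finset ℕ} {hS : ∀ p ∈ S, p.Prime} {θ : Unit → ℝ} {q : ℕ → ℕ} {x : ℕ → Unit → ℤ}

/-- **Coefficients are large**, along sequences of nearly optimal approximations. -/
theorem lang_oneO (H : Ext S hS θ q x (fun _ => 0) (fun _ => 1)) (halg : IsAlgebraic ℚ (θ ()))
    (h3 : 3 ≤ (minpoly ℚ (θ ())).natDegree)
    {F : MvPolynomial (Option Unit) ℤ} {k : ℕ} (hF : F.totalDegree ≤ 2 * k)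
    (hk : 0 < k) (htop : topv (2 * k) F θ ≠ 0) (y A B : ℕ → ℤ)
    (heq : ∀ n, (y n) ^ 2 = (eval (px (q n) (x n)) F) ^ 3 + A n * (eval (px (q n) (x n)) F) + B n)
    (hdisc : ∀ n, 4 * (A n) ^ 3 + 27 * (B n) ^ 2 ≠ 0)
    {e : ℝ} (he0 : 0 ≤ e) (he : e < 1 - 2 / ((minpoly ℚ (θ ())).natDegree : ℝ))
    (hA : Sm q e (fun n => (A n : ℂ))) (hB : Sm q e (fun n => (B n : ℂ))) : False := by
  have hkr : (1 : ℝ) ≤ k := by exact_mod_cast hk
  have hind : ∀ R : MvPolynomial (Option Unit) ℚ, Rel q x R → R = 0 :=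
    fun R hR => indep H halg h3 (by simp) R hR
  set dd : ℝ := ((minpoly ℚ (θ ())).natDegree : ℝ) with hdd
  have hdd3 : 3 ≤ dd := by rw [hdd]; exact_mod_cast h3
  have hfac0 : 0 < 1 - 2 / dd := by
    rw [sub_pos, div_lt_one (by linarith)]
    linarith
  have hfac1 : 1 - 2 / dd ≤ 1 := by
    have : 0 < 2 / dd := by positivity
    linarith
  obtain ⟨G, A', B', hA', hB', hG⟩ := lang_seqO H (fun _ => halg) hind hF hk htop y A B heq
    (e := e) (by linarith) hA hB
  have hdeg : ∀ R : MvPolynomial (Option Unit) ℚ,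
      Sm q e (fun n => ((va (q n) (x n) R : ℚ) : ℂ)) → (Psi θ R).natDegree = 0 := by
    intro R hR
    by_cases h0 : R = 0
    · rw [h0, map_zero, Polynomial.natDegree_zero]
    have h1 := notsmO' H halg h3 R h0 e hR
    rw [← hdd] at h1
    have h2 : (R.totalDegree : ℝ) < 1 := by
      by_contra hcon
      push Not at hcon
      have h4 : (1 - 2 / dd) * 1 ≤ (1 - 2 / dd) * R.totalDegree :=
        mul_le_mul_of_nonneg_left hcon hfac0.le
      linarith
    have h4 : R.totalDegree < 1 := by exact_mod_cast h2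
    have h5 : (Psi θ R).natDegree ≤ R.totalDegree := Phi_le_total θ R
    omega
  have hda := hdeg A' (hA.congr (by
    filter_upwards [hA'] with n hn
    rw [← hn]
    push_cast
    rfl))
  have hdb := hdeg B' (hB.congr (by
    filter_upwards [hB'] with n hn
    rw [← hn]
    push_cast
    rfl))
  have hFd : (Psi θ (map (Int.castRingHom ℚ) F)).natDegree = 2 * k := by
    rw [Psi_int]
    exact Phi_eq θ hF htop
  refine no_point (Psi θ (map (Int.castRingHom ℚ) F)) (Psi θ G) (Psi θ A') (Psi θ B') (2 * k) hFd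
    (by omega) ?_ hda hdb ?_
  · rw [← map_pow, hG]
    simp only [map_add, map_mul, map_pow]
  · have h1 : 4 * (Psi θ A') ^ 3 + 27 * (Psi θ B') ^ 2 = Psi θ (4 * A' ^ 3 + 27 * B' ^ 2) := by
      simp only [map_add, map_mul, map_pow, map_ofNat]
    rw [h1]
    intro h2
    have h3' : 4 * A' ^ 3 + 27 * B' ^ 2 = 0 := Psi_inj θ (h2.trans (map_zero _).symm)
    obtain ⟨n, h4, h5⟩ := (hA'.and hB').exists
    have h6 := congrArg (va (q n) (x n)) h3'
    simp only [map_add, map_mul, map_pow, map_ofNat, map_zero] at h6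
    rw [← h4, ← h5] at h6
    exact hdisc n (by exact_mod_cast h6)

/-- **Coefficients are large**, for all nearly optimal approximations. -/
theorem lang_mainO (θ : Unit → ℝ) (halg : IsAlgebraic ℚ (θ ()))
    (h3 : 3 ≤ (minpoly ℚ (θ ())).natDegree)
    {F : MvPolynomial (Option Unit) ℤ} {k : ℕ} (hF : F.totalDegree ≤ 2 * k)
    (hk : 0 < k) (htop : topv (2 * k) F θ ≠ 0) {e : ℝ} (he0 : 0 ≤ e)
    (he : e < 1 - 2 / ((minpoly ℚ (θ ())).natDegree : ℝ)) :
    ∃ (η : ℝ) (N : ℕ), 0 < η ∧ ∀ q ≥ N, ∀ x : Unit → ℤ,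
      (q : ℝ) * |θ () * q - x ()| ≤ (q : ℝ) ^ η → ∀ y A B : ℤ,
      4 * A ^ 3 + 27 * B ^ 2 ≠ 0 → y ^ 2 = (eval (px q x) F) ^ 3 + A * (eval (px q x) F) + B →
      (q : ℝ) ^ e < max |(A : ℝ)| |(B : ℝ)| := by
  classical
  obtain ⟨η, N, hη, h⟩ := none_leftO ∅ (by simp) θ (Δ := ℤ × ℤ × ℤ) (fun η q x d =>
      ((q : ℝ) * |θ () * q - x ()| ≤ (q : ℝ) ^ η) ∧ 4 * d.2.1 ^ 3 + 27 * d.2.2 ^ 2 ≠ 0 ∧
      d.1 ^ 2 = (eval (px q x) F) ^ 3 + d.2.1 * (eval (px q x) F) + d.2.2 ∧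
      max |(d.2.1 : ℝ)| |(d.2.2 : ℝ)| ≤ (q : ℝ) ^ e) (by
    intro q x d β w H' _ hd
    have H : Ext ∅ (by simp) θ q x (fun _ => 0) (fun _ => 1) := ext_one H'.big (fun n => (hd n).1)
    refine lang_oneO H halg h3 hF hk htop (fun n => (d n).1) (fun n => (d n).2.1)
      (fun n => (d n).2.2) (fun n => (hd n).2.2.1) (fun n => (hd n).2.1) he0 he ?_ ?_
    · intro ε hε
      refine Eventually.of_forall fun n => ?_
      rw [Complex.norm_intCast]
      exact ((le_max_left _ _).trans (hd n).2.2.2).trans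
        (Real.rpow_le_rpow_of_exponent_le (qone H.big n) (by linarith))
    · intro ε hε
      refine Eventually.of_forall fun n => ?_
      rw [Complex.norm_intCast]
      exact ((le_max_right _ _).trans (hd n).2.2.2).trans
        (Real.rpow_le_rpow_of_exponent_le (qone H.big n) (by linarith)))
  refine ⟨η, N, hη, fun q hq x hx y A B h1 h2 => ?_⟩
  by_contra hcon
  exact h q hq x ⟨1, q, (one_mul q).symm, by simp, hx⟩ (y, A, B) ⟨hx, h1, h2, not_lt.1 hcon⟩

/-- points whose coefficients are large compared with `q` -/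
theorem size_mainO (θ : Unit → ℝ) {F : MvPolynomial (Option Unit) ℤ} {k : ℕ}
    (hF : F.totalDegree ≤ 2 * k) (hk : 0 < k) {e : ℝ} (he0 : 0 < e) (he : e ≤ 1) {ε : ℝ} (hε : 0 < ε) :
    ∃ (η : ℝ) (N : ℕ), 0 < η ∧ ∀ q ≥ N, ∀ x : Unit → ℤ,
      (q : ℝ) * |θ () * q - x ()| ≤ (q : ℝ) ^ η → ∀ y A B : ℤ,
      y ^ 2 = (eval (px q x) F) ^ 3 + A * (eval (px q x) F) + B →
      (q : ℝ) ^ e < max |(A : ℝ)| |(B : ℝ)| →
      max |((eval (px q x) F : ℤ) : ℝ)| |(y : ℝ)| < (max |(A : ℝ)| |(B : ℝ)|) ^ (3 * k / e + ε) := by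
  classical
  obtain ⟨η, N, hη, h⟩ := none_leftO ∅ (by simp) θ (Δ := ℤ × ℤ × ℤ) (fun η q x d =>
      ((q : ℝ) * |θ () * q - x ()| ≤ (q : ℝ) ^ η) ∧
      d.1 ^ 2 = (eval (px q x) F) ^ 3 + d.2.1 * (eval (px q x) F) + d.2.2 ∧
      (q : ℝ) ^ e < max |(d.2.1 : ℝ)| |(d.2.2 : ℝ)| ∧
      (max |(d.2.1 : ℝ)| |(d.2.2 : ℝ)|) ^ (3 * k / e + ε)
        ≤ max |((eval (px q x) F : ℤ) : ℝ)| |(d.1 : ℝ)|) (by
    intro q x d β w H' _ hd
    have H : Ext ∅ (by simp) θ q x (fun _ => 0) (fun _ => 1) := ext_one H'.big (fun n => (hd n).1)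
    have hkr : (1 : ℝ) ≤ k := by exact_mod_cast hk
    obtain ⟨n, h1, h2⟩ := (((H.sm_val F).mono H.big (show ((F.totalDegree : ℕ) : ℝ) ≤ ((2 * k : ℕ) : ℝ) by
      exact_mod_cast hF) (ε * e / 3) (by positivity)).and
      (big_ev H.big 3 (show 0 < e * ε / 2 by positivity))).exists
    rw [Complex.norm_intCast] at h1
    obtain ⟨-, h3, h4, h5⟩ := hd n
    set M : ℝ := max |((d n).2.1 : ℝ)| |((d n).2.2 : ℝ)| with hM
    set X : ℝ := ((eval (px (q n) (x n)) F : ℤ) : ℝ) with hX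
    have hq1 := qone H.big n
    have hqp := qpos H.big n
    have hM1 : 1 ≤ M := (Real.one_le_rpow hq1 he0.le).trans h4.le
    have hM0 : 0 < M := by linarith
    set c : ℝ := (((2 * k : ℕ) : ℝ) + ε * e / 3) / e with hc
    have hc1 : 1 / 2 ≤ c := by
      rw [hc, le_div_iff₀ he0]
      push_cast
      have : 0 < ε * e / 3 := by positivity
      linarith
    have hqM : (q n : ℝ) ^ (((2 * k : ℕ) : ℝ) + ε * e / 3) ≤ M ^ c := by
      have h6 : (q n : ℝ) ^ (((2 * k : ℕ) : ℝ) + ε * e / 3) = ((q n : ℝ) ^ e) ^ c := by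
        rw [← Real.rpow_mul hqp.le]
        congr 1
        rw [hc]
        field_simp
      rw [h6]
      exact Real.rpow_le_rpow (by positivity) h4.le (by linarith)
    have hXZ : |X| ≤ M ^ c := h1.trans hqM
    have hZ1 : 1 ≤ M ^ c := Real.one_le_rpow hM1 (by linarith)
    have hMZ : M ≤ (M ^ c) ^ 2 := by
      rw [← Real.rpow_natCast, ← Real.rpow_mul hM0.le]
      conv_lhs => rw [← Real.rpow_one M]
      apply Real.rpow_le_rpow_of_exponent_le hM1
      push_cast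
      linarith
    have h7 : |((d n).1 : ℝ)| ≤ 2 * (M ^ c) ^ (3 / 2 : ℝ) := by
      refine ord_le (X := X) (A := ((d n).2.1 : ℝ)) (B := ((d n).2.2 : ℝ)) ?_ hXZ hMZ (le_max_left _ _)
        (le_max_right _ _) hZ1
      rw [hX]
      exact_mod_cast h3
    have h8 : max |X| |((d n).1 : ℝ)| ≤ 2 * (M ^ c) ^ (3 / 2 : ℝ) := by
      refine max_le (hXZ.trans ?_) h7
      have h9 : M ^ c ≤ (M ^ c) ^ (3 / 2 : ℝ) := by
        conv_lhs => rw [← Real.rpow_one (M ^ c)]
        exact Real.rpow_le_rpow_of_exponent_le hZ1 (by norm_num)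
      have h10 : 0 ≤ (M ^ c) ^ (3 / 2 : ℝ) := by positivity
      linarith
    have h9 : (M ^ c) ^ (3 / 2 : ℝ) = M ^ (3 * k / e + ε / 2) := by
      rw [← Real.rpow_mul hM0.le]
      congr 1
      rw [hc]
      push_cast
      field_simp
    have h10 : (3 : ℝ) ≤ M ^ (ε / 2) := by
      refine h2.trans ?_
      have h11 : (q n : ℝ) ^ (e * ε / 2) = ((q n : ℝ) ^ e) ^ (ε / 2) := by
        rw [← Real.rpow_mul hqp.le]
        congr 1
        ring
      rw [h11]
      exact Real.rpow_le_rpow (by positivity) h4.le (by positivity)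
    have h11 : M ^ (3 * k / e + ε) = M ^ (ε / 2) * M ^ (3 * k / e + ε / 2) := by
      rw [← Real.rpow_add hM0]
      congr 1
      ring
    rw [h9] at h8
    rw [h11] at h5
    have h12 : 0 < M ^ (3 * k / e + ε / 2) := by positivity
    have h13 := h5.trans h8
    nlinarith)
  refine ⟨η, N, hη, fun q hq x hx y A B h1 h2 => ?_⟩
  by_contra hcon
  exact h q hq x ⟨1, q, (one_mul q).symm, by simp, hx⟩ (y, A, B) ⟨hx, h1, h2, not_lt.1 hcon⟩


end

end Pool.Agent.Q4.Hall
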