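import Mathlib
import Pool.Agent.Q4.Hall.OptLang

set_option autoImplicit false
set_option linter.unusedSectionVars false

/-!
# Integers where a polynomial with coefficients `P_i(x)` is small are values of polynomials
-/

namespace Pool.Agent.Q4.Hall

open Filter Topology Pool.Agent.TH932.Abs Pool.Agent.TH932.Germs Pool.Agent.TH932.Chi
open Pool.Agent.TH796.AL Pool.Agent.Q4.Blk Pool.Agent.Q4.Gcd Pool.Agent.Q4.Cov Module MvPolynomial
open Pool.Agent.Q4.Tube

section
variable {σ : Type} [Fintype σ] [DecidableEq σ]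
variable (S : Finset ℕ) (hS : ∀ p ∈ S, p.Prime) {θ : σ → ℝ} (halg : ∀ s, IsAlgebraic ℚ (θ s))
  (hind : LinearIndependent ℚ (fun o : Option σ => (o.elim 1 (fun s => θ s) : ℝ)))
  {q : ℕ → ℕ} {x : ℕ → σ → ℤ} (H : Tub S θ q x)

include hS halg hind H

/-- integers where a polynomial is small are values of polynomials -/
theorem near_rootT {P : Polynomial (MvPolynomial (Option σ) ℤ)} {D d : ℕ} (hk : 0 < P.natDegree)
    (hlead : topv d P.leadingCoeff θ ≠ 0) (hld : P.leadingCoeff.totalDegree ≤ d)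
    (hdeg : ∀ i, (P.coeff i).totalDegree ≤ (P.natDegree - i) * D + d)
    (hsep : (pnf P D d θ).Separable) (y : ℕ → ℤ) {δ : ℝ}
    (hδ : 0 < δ) (hy : Sm q ((((P.natDegree - 1) * D + d : ℕ) : ℝ) - δ)
      (fun n => (P.map (evx (q n) (x n) ℂ)).eval (y n : ℂ))) :
    ∃ G : MvPolynomial (Option σ) ℚ, G.totalDegree ≤ D ∧
      ∀ᶠ n in (UU : Filter ℕ), (y n : ℚ) = va (q n) (x n) G := by
  classical
  set b := P.natDegree with hb
  set f : ℕ → Polynomial ℂ := fun n => P.map (evx (q n) (x n) ℂ) with hf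
  have hl0 : ∀ᶠ n in (UU : Filter ℕ), evx (q n) (x n) ℂ P.leadingCoeff ≠ 0 := by
    filter_upwards [low_val S hS halg hind H hld hlead one_pos] with n hn h0
    have h1 : eval (px (q n) (x n)) P.leadingCoeff = 0 := by
      have : ((eval (px (q n) (x n)) P.leadingCoeff : ℤ) : ℂ) = 0 := h0
      exact_mod_cast this
    rw [h1, Int.cast_zero, abs_zero] at hn
    have := qpos H.big n
    have h2 : 0 < (q n : ℝ) ^ ((d : ℝ) - 1) := by positivity
    linarith
  have hfd : ∀ᶠ n in (UU : Filter ℕ), (f n).natDegree = b := by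
    filter_upwards [hl0] with n hn
    exact Polynomial.natDegree_map_of_leadingCoeff_ne_zero _ hn
  have hnear : ∀ n, ∃ ρ : ℂ, 0 < (f n).natDegree → (f n).eval ρ = 0 ∧
      ‖(y n : ℂ) - ρ‖ * ‖(f n).derivative.eval ρ‖ ≤ 2 ^ ((f n).natDegree - 1)
        * ‖(f n).eval (y n : ℂ)‖ := by
    intro n
    by_cases h : 0 < (f n).natDegree
    · obtain ⟨ρ, hρ⟩ := nearest (f n) h (y n : ℂ)
      exact ⟨ρ, fun _ => hρ⟩
    · exact ⟨0, fun h' => absurd h' h⟩
  choose ρ hρ using hnear
  have hρ0 : ∀ᶠ n in (UU : Filter ℕ), (f n).eval (ρ n) = 0 := by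
    filter_upwards [hfd] with n hn
    exact (hρ n (by rw [hn]; exact hk)).1
  obtain ⟨c, hcpos, hder⟩ := deriv_seq S halg H hk hlead hdeg hsep ρ hρ0
  obtain ⟨cf, hcf⟩ := Pool.Agent.Q4.Tube.root_exp H halg hlead hdeg hsep ρ hρ0 0
  -- closeness
  have hclose : Sm q (-δ) (fun n => (y n : ℂ) - ρ n) := by
    have h1 := Sm.mul H.big (Sm.const H.big ((2 ^ (b - 1) / c : ℝ) : ℂ))
      (Sm.mul H.big hy (Sm.pow H.big (Sm.qinv H.big) ((b - 1) * D + d)))
    have e1 : (0 : ℝ) + ((((b - 1) * D + d : ℕ) : ℝ) - δ + (((b - 1) * D + d : ℕ) : ℝ) * (-1)) = -δ := by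
      ring
    rw [e1] at h1
    refine h1.le ?_
    filter_upwards [hder, hfd] with n hn hfdn
    have hqp := qpos H.big n
    have h2 := (hρ n (by rw [hfdn]; exact hk)).2
    rw [hfdn] at h2
    have h3 : ‖(y n : ℂ) - ρ n‖ * (c * (q n : ℝ) ^ ((b - 1) * D + d)) ≤ 2 ^ (b - 1)
        * ‖(f n).eval (y n : ℂ)‖ :=
      (mul_le_mul_of_nonneg_left hn (norm_nonneg _)).trans h2
    have h4 : ‖((2 ^ (b - 1) / c : ℝ) : ℂ) * ((f n).eval (y n : ℂ)
        * (1 / (q n : ℂ)) ^ ((b - 1) * D + d))‖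
        = (2 ^ (b - 1) / c) * (‖(f n).eval (y n : ℂ)‖
          * (1 / (q n : ℝ)) ^ ((b - 1) * D + d)) := by
      rw [norm_mul, norm_mul, norm_pow, norm_div, norm_one, Complex.norm_natCast,
        Complex.norm_real, Real.norm_eq_abs, abs_of_nonneg (by positivity)]
    rw [h4]
    have h5 : (2 ^ (b - 1) / c) * (‖(f n).eval (y n : ℂ)‖
          * (1 / (q n : ℝ)) ^ ((b - 1) * D + d))
        = (2 ^ (b - 1) * ‖(f n).eval (y n : ℂ)‖)
          / (c * (q n : ℝ) ^ ((b - 1) * D + d)) := by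
      rw [one_div, inv_pow]
      field_simp
    rw [h5, le_div_iff₀ (by positivity)]
    exact h3
  -- the engine
  obtain ⟨G, hG1, hG⟩ := engineT S hS halg hind H (0 + D) (fun _ => 1) (fun _ => one_ne_zero)
    (fun _ => by simp) 0 0 (fun n => by simp) y cf (min δ 1) (lt_min hδ one_pos) (by
      have h1 := Sm.add H.big (hclose.mono H.big (show -δ ≤ -min δ 1 by
        have := min_le_left δ 1
        linarith)) (hcf.mono H.big (show (-1 : ℝ) ≤ -min δ 1 by
        have := min_le_right δ 1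
        linarith))
      refine h1.congr (Eventually.of_forall fun n => ?_)
      simp only [pow_zero, Nat.cast_one, div_one, one_mul]
      ring)
  refine ⟨G, by rwa [zero_add] at hG1, ?_⟩
  filter_upwards [hG] with n hn
  rw [hn]
  simp

end

end Pool.Agent.Q4.Hall

namespace Pool.Agent.Q4.Hall

open Filter Topology Pool.Agent.TH932.Abs Pool.Agent.TH932.Germs Pool.Agent.TH932.Chi
open Pool.Agent.TH796.AL Pool.Agent.Q4.Blk Pool.Agent.Q4.Gcd Pool.Agent.Q4.Cov Module
open Pool.Agent.Q4.Tube hiding Near sm_fr sm_vs sm_dl dl_tendsto dl_le_one sm_ord sm_any lim_evr branch' expand' px_ne root_bnd approxS root_exp deriv_seq sm_px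
open Pool.Agent.Q4.Opt
open MvPolynomial

section
variable {σ : Type} [Fintype σ] [DecidableEq σ]
variable {S : Finset ℕ} {hS : ∀ p ∈ S, p.Prime} {θ : σ → ℝ} {q : ℕ → ℕ} {x : ℕ → σ → ℤ}
  {β : Fin S.card → ℝ} {w : σ → ℝ}

/-- integers where a polynomial is small are values of polynomials -/
theorem near_rootO (H : Ext S hS θ q x β w) (halg : ∀ s, IsAlgebraic ℚ (θ s))
    (hind : ∀ R : MvPolynomial (Option σ) ℚ, Rel q x R → R = 0)
    {P : Polynomial (MvPolynomial (Option σ) ℤ)} {D d : ℕ} (hk : 0 < P.natDegree)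
    (hlead : topv d P.leadingCoeff θ ≠ 0) (hld : P.leadingCoeff.totalDegree ≤ d)
    (hdeg : ∀ i, (P.coeff i).totalDegree ≤ (P.natDegree - i) * D + d)
    (hsep : (pnf P D d θ).Separable) (y : ℕ → ℤ) {δ : ℝ}
    (hδ : 0 < δ) (hy : Sm q ((((P.natDegree - 1) * D + d : ℕ) : ℝ) - δ)
      (fun n => (P.map (evx (q n) (x n) ℂ)).eval (y n : ℂ))) :
    ∃ G : MvPolynomial (Option σ) ℚ, G.totalDegree ≤ D ∧
      ∀ᶠ n in (UU : Filter ℕ), (y n : ℚ) = va (q n) (x n) G := by
  classical
  set b := P.natDegree with hb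
  set f : ℕ → Polynomial ℂ := fun n => P.map (evx (q n) (x n) ℂ) with hf
  have hl0 : ∀ᶠ n in (UU : Filter ℕ), evx (q n) (x n) ℂ P.leadingCoeff ≠ 0 := by
    filter_upwards [low_valN H.nr halg hld hlead one_pos] with n hn h0
    have h1 : eval (px (q n) (x n)) P.leadingCoeff = 0 := by
      have : ((eval (px (q n) (x n)) P.leadingCoeff : ℤ) : ℂ) = 0 := h0
      exact_mod_cast this
    rw [h1, Int.cast_zero, abs_zero] at hn
    have := qpos H.big n
    have h2 : 0 < (q n : ℝ) ^ ((d : ℝ) - 1) := by positivity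
    linarith
  have hfd : ∀ᶠ n in (UU : Filter ℕ), (f n).natDegree = b := by
    filter_upwards [hl0] with n hn
    exact Polynomial.natDegree_map_of_leadingCoeff_ne_zero _ hn
  have hnear : ∀ n, ∃ ρ : ℂ, 0 < (f n).natDegree → (f n).eval ρ = 0 ∧
      ‖(y n : ℂ) - ρ‖ * ‖(f n).derivative.eval ρ‖ ≤ 2 ^ ((f n).natDegree - 1)
        * ‖(f n).eval (y n : ℂ)‖ := by
    intro n
    by_cases h : 0 < (f n).natDegree
    · obtain ⟨ρ, hρ⟩ := nearest (f n) h (y n : ℂ)
      exact ⟨ρ, fun _ => hρ⟩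
    · exact ⟨0, fun h' => absurd h' h⟩
  choose ρ hρ using hnear
  have hρ0 : ∀ᶠ n in (UU : Filter ℕ), (f n).eval (ρ n) = 0 := by
    filter_upwards [hfd] with n hn
    exact (hρ n (by rw [hn]; exact hk)).1
  obtain ⟨c, hcpos, hder⟩ := deriv_seqN H.nr halg hk hlead hdeg hsep ρ hρ0
  obtain ⟨cf, hcf⟩ := Pool.Agent.Q4.Opt.root_exp H.nr halg hlead hdeg hsep ρ hρ0 0
  -- closeness
  have hclose : Sm q (-δ) (fun n => (y n : ℂ) - ρ n) := by
    have h1 := Sm.mul H.big (Sm.const H.big ((2 ^ (b - 1) / c : ℝ) : ℂ))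
      (Sm.mul H.big hy (Sm.pow H.big (Sm.qinv H.big) ((b - 1) * D + d)))
    have e1 : (0 : ℝ) + ((((b - 1) * D + d : ℕ) : ℝ) - δ + (((b - 1) * D + d : ℕ) : ℝ) * (-1)) = -δ := by
      ring
    rw [e1] at h1
    refine h1.le ?_
    filter_upwards [hder, hfd] with n hn hfdn
    have hqp := qpos H.big n
    have h2 := (hρ n (by rw [hfdn]; exact hk)).2
    rw [hfdn] at h2
    have h3 : ‖(y n : ℂ) - ρ n‖ * (c * (q n : ℝ) ^ ((b - 1) * D + d)) ≤ 2 ^ (b - 1)
        * ‖(f n).eval (y n : ℂ)‖ :=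
      (mul_le_mul_of_nonneg_left hn (norm_nonneg _)).trans h2
    have h4 : ‖((2 ^ (b - 1) / c : ℝ) : ℂ) * ((f n).eval (y n : ℂ)
        * (1 / (q n : ℂ)) ^ ((b - 1) * D + d))‖
        = (2 ^ (b - 1) / c) * (‖(f n).eval (y n : ℂ)‖
          * (1 / (q n : ℝ)) ^ ((b - 1) * D + d)) := by
      rw [norm_mul, norm_mul, norm_pow, norm_div, norm_one, Complex.norm_natCast,
        Complex.norm_real, Real.norm_eq_abs, abs_of_nonneg (by positivity)]
    rw [h4]
    have h5 : (2 ^ (b - 1) / c) * (‖(f n).eval (y n : ℂ)‖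
          * (1 / (q n : ℝ)) ^ ((b - 1) * D + d))
        = (2 ^ (b - 1) * ‖(f n).eval (y n : ℂ)‖)
          / (c * (q n : ℝ) ^ ((b - 1) * D + d)) := by
      rw [one_div, inv_pow]
      field_simp
    rw [h5, le_div_iff₀ (by positivity)]
    exact h3
  -- the engine
  obtain ⟨G, hG1, hG⟩ := engineO H halg hind (0 + D) y cf (min δ 1) (lt_min hδ one_pos) (by
      have h1 := Sm.add H.big (hclose.mono H.big (show -δ ≤ -min δ 1 by
        have := min_le_left δ 1
        linarith)) (hcf.mono H.big (show (-1 : ℝ) ≤ -min δ 1 by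
        have := min_le_right δ 1
        linarith))
      refine h1.congr (Eventually.of_forall fun n => ?_)
      simp only [pow_zero, one_mul]
      ring)
  exact ⟨G, by rwa [zero_add] at hG1, hG⟩

end

end Pool.Agent.Q4.Hall

/-! ### binomials -/

namespace Pool.Agent.Q4.Hall

open Filter Topology Pool.Agent.TH932.Abs Pool.Agent.TH932.Germs Pool.Agent.TH932.Chi
open Pool.Agent.TH796.AL Pool.Agent.Q4.Blk Pool.Agent.Q4.Gcd Pool.Agent.Q4.Cov Module MvPolynomial
open Pool.Agent.Q4.Tube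

section
variable {σ : Type} [Fintype σ] [DecidableEq σ]

/-- the polynomial `N Y ^ b - M` -/
noncomputable def bino (N M : MvPolynomial (Option σ) ℤ) (b : ℕ) :
    Polynomial (MvPolynomial (Option σ) ℤ) :=
  Polynomial.C N * Polynomial.X ^ b - Polynomial.C M

variable {N M : MvPolynomial (Option σ) ℤ} {b : ℕ}

lemma bino_coeff (i : ℕ) : (bino N M b).coeff i = (if i = b then N else 0) - (if i = 0 then M else 0) := by
  rw [bino, Polynomial.coeff_sub, Polynomial.coeff_C_mul, Polynomial.coeff_X_pow, Polynomial.coeff_C]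
  split_ifs <;> simp

lemma bino_deg (hN : N ≠ 0) (hb : 0 < b) : (bino N M b).natDegree = b := by
  refine le_antisymm ?_ ?_
  · rw [bino]
    refine (Polynomial.natDegree_sub_le _ _).trans (max_le ?_ ?_)
    · exact Polynomial.natDegree_C_mul_X_pow_le _ _
    · rw [Polynomial.natDegree_C]
      exact Nat.zero_le _
  · apply Polynomial.le_natDegree_of_ne_zero
    rw [bino_coeff, if_pos rfl, if_neg (by omega), sub_zero]
    exact hN

lemma bino_lc (hN : N ≠ 0) (hb : 0 < b) : (bino N M b).leadingCoeff = N := by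
  rw [Polynomial.leadingCoeff, bino_deg hN hb, bino_coeff, if_pos rfl, if_neg (by omega), sub_zero]

lemma bino_hdeg (hN : N ≠ 0) (hb : 0 < b) {E d : ℕ} (hNd : N.totalDegree ≤ d)
    (hMd : M.totalDegree ≤ b * E + d) (i : ℕ) :
    ((bino N M b).coeff i).totalDegree ≤ ((bino N M b).natDegree - i) * E + d := by
  rw [bino_deg hN hb, bino_coeff]
  by_cases h0 : i = 0
  · rw [h0, if_neg (by omega), if_pos rfl, zero_sub, totalDegree_neg, Nat.sub_zero]
    exact hMd
  · rw [if_neg h0, sub_zero]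
    split_ifs
    · exact hNd.trans (Nat.le_add_left _ _)
    · rw [totalDegree_zero]
      exact Nat.zero_le _

lemma bino_pnf (hN : N ≠ 0) (hb : 0 < b) {E d : ℕ} {θ : σ → ℝ} :
    pnf (bino N M b) E d θ = Polynomial.C (topv d N θ) * Polynomial.X ^ b
      - Polynomial.C (topv (b * E + d) M θ) := by
  ext j
  rw [Polynomial.coeff_sub, Polynomial.coeff_C_mul, Polynomial.coeff_X_pow, Polynomial.coeff_C]
  by_cases hj : j ≤ b
  · rw [pnf_coeff θ (by rw [bino_deg hN hb]; exact hj), bino_deg hN hb, bino_coeff]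
    by_cases h0 : j = 0
    · rw [h0, if_neg (by omega), if_pos rfl, if_neg (by omega), if_pos rfl, Nat.sub_zero,
        zero_sub, mul_zero, zero_sub]
      unfold topv
      rw [map_neg, map_neg]
    · rw [if_neg h0, if_neg h0, sub_zero, sub_zero]
      split_ifs with h1
      · rw [h1, Nat.sub_self, zero_mul, zero_add, mul_one]
      · unfold topv
        rw [map_zero, map_zero, mul_zero]
  · rw [if_neg (by omega), if_neg (by omega), sub_zero, mul_zero]
    unfold pnf
    rw [Polynomial.finsetSum_coeff]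
    refine Finset.sum_eq_zero fun i hi => ?_
    have hi' := Finset.mem_range.1 hi
    rw [bino_deg hN hb] at hi'
    rw [Polynomial.coeff_C_mul, Polynomial.coeff_X_pow, if_neg (by omega), mul_zero]

lemma bino_sep (hN : N ≠ 0) (hb : 0 < b) {E d : ℕ} {θ : σ → ℝ} (h1 : topv d N θ ≠ 0)
    (h2 : topv (b * E + d) M θ ≠ 0) : (pnf (bino N M b) E d θ).Separable := by
  rw [bino_pnf hN hb]
  set u := topv d N θ with hu
  set v := topv (b * E + d) M θ with hv
  have h3 : Polynomial.C u * Polynomial.X ^ b - Polynomial.C v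
      = Polynomial.C u * (Polynomial.X ^ b - Polynomial.C (v / u)) := by
    rw [mul_sub, ← Polynomial.C_mul, mul_div_cancel₀ _ h1]
  rw [h3]
  have h4 : (Polynomial.X ^ b - Polynomial.C (v / u) : Polynomial ℝ).Separable :=
    Polynomial.separable_X_pow_sub_C _ (by exact_mod_cast hb.ne') (div_ne_zero h2 h1)
  have h5 : IsUnit (Polynomial.C u : Polynomial ℝ) := Polynomial.isUnit_C.2 (isUnit_iff_ne_zero.2 h1)
  exact Polynomial.Separable.unit_mul h5 h4

lemma bino_eval (q : ℕ) (x : σ → ℤ) (z : ℂ) :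
    ((bino N M b).map (evx q x ℂ)).eval z
      = ((eval (px q x) N : ℤ) : ℂ) * z ^ b - ((eval (px q x) M : ℤ) : ℂ) := by
  rw [bino, Polynomial.map_sub, Polynomial.map_mul, Polynomial.map_pow, Polynomial.map_X,
    Polynomial.map_C, Polynomial.map_C, Polynomial.eval_sub, Polynomial.eval_mul, Polynomial.eval_pow,
    Polynomial.eval_X, Polynomial.eval_C, Polynomial.eval_C]
  rfl

end

end Pool.Agent.Q4.Hall
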