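import Mathlib
import Pool.Agent.Q4.Hall.Root

set_option autoImplicit false
set_option linter.unusedSectionVars false

/-!
# Nearly optimal approximations at which a polynomial is a power or nearly a power
-/

namespace Pool.Agent.Q4.Hall

open MvPolynomial in
/-- the top component of a product -/
lemma hc_mul {σ R : Type*} [CommSemiring R] [DecidableEq σ] {F G : MvPolynomial σ R} {m n : ℕ}
    (hF : F.totalDegree ≤ m) (hG : G.totalDegree ≤ n) :
    homogeneousComponent (m + n) (F * G) = homogeneousComponent m F * homogeneousComponent n G := by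
  classical
  have hdeg : ∀ {H : MvPolynomial σ R} {k : ℕ} (hH : H.totalDegree ≤ k) {α : σ →₀ ℕ},
      k < α.degree → coeff α H = 0 := by
    intro H k hH α hα
    by_contra h0
    have h1 := le_totalDegree (mem_support_iff.2 h0)
    have h2 : (α.sum fun _ e => e) = α.degree := rfl
    omega
  ext α
  rw [coeff_homogeneousComponent, coeff_mul, coeff_mul]
  have hterm : ∀ p ∈ Finset.HasAntidiagonal.antidiagonal α, coeff p.1 (homogeneousComponent m F)
      * coeff p.2 (homogeneousComponent n G)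
      = if p.1.degree = m ∧ p.2.degree = n then coeff p.1 F * coeff p.2 G else 0 := by
    intro p _
    rw [coeff_homogeneousComponent, coeff_homogeneousComponent]
    by_cases h1 : p.1.degree = m <;> by_cases h2 : p.2.degree = n <;> simp [h1, h2]
  rw [Finset.sum_congr rfl hterm]
  split_ifs with h
  · refine Finset.sum_congr rfl fun p hp => ?_
    have h1 : p.1.degree + p.2.degree = m + n := by
      rw [← h, ← Finset.HasAntidiagonal.mem_antidiagonal.1 hp, map_add]
    split_ifs with h2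
    · rfl
    · rcases Nat.lt_trichotomy p.1.degree m with h3 | h3 | h3
      · rw [hdeg hG (show n < p.2.degree by omega), mul_zero]
      · exact absurd ⟨h3, by omega⟩ h2
      · rw [hdeg hF h3, zero_mul]
  · symm
    refine Finset.sum_eq_zero fun p hp => ?_
    rw [if_neg]
    rintro ⟨h1, h2⟩
    apply h
    rw [← Finset.HasAntidiagonal.mem_antidiagonal.1 hp, map_add, h1, h2]

open MvPolynomial in
/-- the top component of a power -/
lemma hc_pow {σ R : Type*} [CommSemiring R] [DecidableEq σ] {F : MvPolynomial σ R} {m : ℕ}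
    (hF : F.totalDegree ≤ m) (b : ℕ) :
    homogeneousComponent (b * m) (F ^ b) = homogeneousComponent m F ^ b := by
  induction b with
  | zero =>
    rw [zero_mul, pow_zero, pow_zero]
    have h1 : (1 : MvPolynomial σ R) = C 1 := rfl
    rw [h1, homogeneousComponent_zero, coeff_C, if_pos rfl]
  | succ b ih =>
    rw [pow_succ, pow_succ, add_mul, one_mul,
      hc_mul ((totalDegree_pow _ _).trans (Nat.mul_le_mul_left _ hF)) hF, ih]

open Filter Topology Pool.Agent.TH932.Abs Pool.Agent.TH932.Germs Pool.Agent.TH932.Chi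
open Pool.Agent.TH796.AL Pool.Agent.Q4.Blk Pool.Agent.Q4.Gcd Pool.Agent.Q4.Cov Module
open Pool.Agent.Q4.Tube hiding Near sm_fr sm_vs sm_dl dl_tendsto dl_le_one sm_ord sm_any lim_evr branch' expand' px_ne root_bnd approxS root_exp deriv_seq sm_px
open Pool.Agent.Q4.Opt
open MvPolynomial

/-- the values of the cover -/
lemma cover_val {σ : Type} [Fintype σ] [DecidableEq σ] (P : Polynomial (MvPolynomial (Option σ) ℤ))
    (G : MvPolynomial (Option σ) ℚ) (q : ℕ) (x : σ → ℤ) (y : ℤ) (hy : (y : ℚ) = va q x G) :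
    va q x ((P.map (MvPolynomial.map (Int.castRingHom ℚ))).eval G)
      = (((P.map (eval (px q x))).eval y : ℤ) : ℚ) := by
  rw [Polynomial.eval_map, Polynomial.eval_map]
  have h1 := Polynomial.hom_eval₂ P (MvPolynomial.map (Int.castRingHom ℚ))
    ((va q x : MvPolynomial (Option σ) ℚ →ₐ[ℚ] ℚ) : MvPolynomial (Option σ) ℚ →+* ℚ) G
  have h2 := Polynomial.hom_eval₂ P (eval (px q x)) (Int.castRingHom ℚ) y
  have h3 : (((va q x : MvPolynomial (Option σ) ℚ →ₐ[ℚ] ℚ) : MvPolynomial (Option σ) ℚ →+* ℚ).comp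
      (MvPolynomial.map (Int.castRingHom ℚ))) = (Int.castRingHom ℚ).comp (eval (px q x)) := by
    apply RingHom.ext
    intro R
    exact map_px R q x
  rw [h3] at h1
  refine h1.trans (Eq.trans ?_ h2.symm)
  congr 1
  exact hy.symm

/-- **Integral points on a cover** above nearly optimal approximations. -/
theorem cover_mainO (θ : Unit → ℝ) (halg : IsAlgebraic ℚ (θ ()))
    (h3 : 3 ≤ (minpoly ℚ (θ ())).natDegree)
    (P : Polynomial (MvPolynomial (Option Unit) ℤ)) {D d : ℕ} (hk : 0 < P.natDegree)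
    (hlead : topv d P.leadingCoeff θ ≠ 0) (hld : P.leadingCoeff.totalDegree ≤ d)
    (hdeg : ∀ i, (P.coeff i).totalDegree ≤ (P.natDegree - i) * D + d)
    (hsep : (pnf P D d θ).Separable)
    (hroot : ∀ G : MvPolynomial (Option Unit) ℚ,
      (P.map (MvPolynomial.map (Int.castRingHom ℚ))).eval G ≠ 0) :
    ∃ (η : ℝ) (N : ℕ), 0 < η ∧ ∀ q ≥ N, ∀ x : Unit → ℤ,
      (q : ℝ) * |θ () * q - x ()| ≤ (q : ℝ) ^ η → ∀ y : ℤ,
      (P.map (eval (px q x))).eval y ≠ 0 := by
  classical
  obtain ⟨η, N, hη, h⟩ := none_leftO ∅ (by simp) θ (Δ := ℤ) (fun η q x y =>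
      ((q : ℝ) * |θ () * q - x ()| ≤ (q : ℝ) ^ η) ∧ (P.map (eval (px q x))).eval y = 0) (by
    intro q x y β w H' _ hd
    have H : Ext ∅ (by simp) θ q x (fun _ => 0) (fun _ => 1) := ext_one H'.big (fun n => (hd n).1)
    have hind : ∀ R : MvPolynomial (Option Unit) ℚ, Rel q x R → R = 0 :=
      fun R hR => indep H halg h3 (by simp) R hR
    obtain ⟨G, -, hG⟩ := near_rootO H (fun _ => halg) hind hk hlead hld hdeg hsep y one_pos (by
      intro ε hε
      refine Eventually.of_forall fun n => ?_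
      have h1 : (P.map (evx (q n) (x n) ℂ)).eval (y n : ℂ) = 0 := by
        have h2 : P.map (evx (q n) (x n) ℂ) = (P.map (eval (px (q n) (x n)))).map (Int.castRingHom ℂ) := by
          rw [Polynomial.map_map]
          rfl
        have h4 : (y n : ℂ) = Int.castRingHom ℂ (y n) := rfl
        rw [h2, h4, Polynomial.eval_map_apply, (hd n).2, map_zero]
      beta_reduce
      rw [h1, norm_zero]
      positivity)
    apply hroot G
    apply hind
    filter_upwards [hG] with n hn
    rw [cover_val P G (q n) (x n) (y n) hn, (hd n).2, Int.cast_zero])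
  refine ⟨η, N, hη, fun q hq x hx y hy => ?_⟩
  exact h q hq x ⟨1, q, (one_mul q).symm, by simp, hx⟩ y ⟨hx, hy⟩

/-- **Near powers** at nearly optimal approximations. -/
theorem near_power_mainO (θ : Unit → ℝ) (halg : IsAlgebraic ℚ (θ ()))
    (h3 : 3 ≤ (minpoly ℚ (θ ())).natDegree)
    {F : MvPolynomial (Option Unit) ℤ} {b E : ℕ} (hb : 0 < b) (hF : F.totalDegree ≤ b * E)
    (htop : topv (b * E) F θ ≠ 0)
    (hpow : ∀ G : MvPolynomial (Option Unit) ℚ,
      G ^ b ≠ homogeneousComponent (b * E) (MvPolynomial.map (Int.castRingHom ℚ) F))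
    {e : ℝ} (he1 : e < (((b - 1) * E : ℕ) : ℝ))
    (he2 : e < (1 - 2 / ((minpoly ℚ (θ ())).natDegree : ℝ)) * ((b * E : ℕ) : ℝ)) :
    ∃ (η : ℝ) (N : ℕ), 0 < η ∧ ∀ q ≥ N, ∀ x : Unit → ℤ,
      (q : ℝ) * |θ () * q - x ()| ≤ (q : ℝ) ^ η → ∀ y : ℤ,
      (q : ℝ) ^ e < |(y : ℝ) ^ b - ((eval (px q x) F : ℤ) : ℝ)| := by
  classical
  obtain ⟨η, N, hη, h⟩ := none_leftO ∅ (by simp) θ (Δ := ℤ) (fun η q x y =>
      ((q : ℝ) * |θ () * q - x ()| ≤ (q : ℝ) ^ η) ∧
      |(y : ℝ) ^ b - ((eval (px q x) F : ℤ) : ℝ)| ≤ (q : ℝ) ^ e) (by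
    intro q x y β w H' _ hd
    have H : Ext ∅ (by simp) θ q x (fun _ => 0) (fun _ => 1) := ext_one H'.big (fun n => (hd n).1)
    have hind : ∀ R : MvPolynomial (Option Unit) ℚ, Rel q x R → R = 0 :=
      fun R hR => indep H halg h3 (by simp) R hR
    have hsm : Sm q e (fun n => (y n : ℂ) ^ b - ((eval (px (q n) (x n)) F : ℤ) : ℂ)) := by
      intro ε hε
      refine Eventually.of_forall fun n => ?_
      have h1 : (y n : ℂ) ^ b - ((eval (px (q n) (x n)) F : ℤ) : ℂ)
          = (((y n : ℝ) ^ b - ((eval (px (q n) (x n)) F : ℤ) : ℝ) : ℝ) : ℂ) := by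
        push_cast
        rfl
      beta_reduce
      rw [h1, Complex.norm_real, Real.norm_eq_abs]
      exact (hd n).2.trans (Real.rpow_le_rpow_of_exponent_le (qone H.big n) (by linarith))
    obtain ⟨G, hGd, hG⟩ := near_powO H (fun _ => halg) hind hF htop (a := 1) (b := b) (E := E) hb
      (by ring) y (δ := (((b - 1) * E : ℕ) : ℝ) - e) (by linarith) ((hsm.mono H.big (by linarith)).congr
      (Eventually.of_forall fun n => by rw [pow_one]))
    set R : MvPolynomial (Option Unit) ℚ := G ^ b - MvPolynomial.map (Int.castRingHom ℚ) F with hR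
    have hRv : ∀ᶠ n in (UU : Filter ℕ), va (q n) (x n) R
        = (y n : ℚ) ^ b - ((eval (px (q n) (x n)) F : ℤ) : ℚ) := by
      filter_upwards [hG] with n hn
      rw [hR, map_sub, map_pow, ← hn, map_px]
    have hRt : homogeneousComponent (b * E) R ≠ 0 := by
      rw [hR, map_sub, hc_pow hGd, sub_ne_zero]
      exact hpow _
    have hR0 : R ≠ 0 := by
      intro h
      rw [h, map_zero] at hRt
      exact hRt rfl
    have hRd : b * E ≤ R.totalDegree := by
      by_contra hcon
      exact hRt (homogeneousComponent_eq_zero _ _ (not_le.1 hcon))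
    have h2 := notsmO' H halg h3 R hR0 e (hsm.congr (by
      filter_upwards [hRv] with n hn
      rw [hn]
      push_cast
      rfl))
    have hdd3 : (3 : ℝ) ≤ ((minpoly ℚ (θ ())).natDegree : ℝ) := by exact_mod_cast h3
    have hfac0 : 0 < 1 - 2 / ((minpoly ℚ (θ ())).natDegree : ℝ) := by
      rw [sub_pos, div_lt_one (by linarith)]
      linarith
    have h4 : ((b * E : ℕ) : ℝ) ≤ R.totalDegree := by exact_mod_cast hRd
    have h5 := mul_le_mul_of_nonneg_left h4 hfac0.le
    linarith)
  refine ⟨η, N, hη, fun q hq x hx y => ?_⟩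
  by_contra hcon
  exact h q hq x ⟨1, q, (one_mul q).symm, by simp, hx⟩ y ⟨hx, not_lt.1 hcon⟩

end Pool.Agent.Q4.Hall
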