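import Mathlib
import Pool.Agent.Q4.Hall.Root

set_option autoImplicit false
set_option linter.unusedSectionVars false

/-!
# The difference of two products of powers of polynomials
-/

namespace Pool.Agent.Q4.Hall

section
variable {A : Type*} [CommRing A] [IsDomain A] [CharZero A]

/-- a divisor of the Wronskian bounds the degrees from below -/
lemma wr {f R c0 : Polynomial A} (hf : f ≠ 0) (hR : R ≠ 0)
    (hc : c0 ∣ f * R.derivative - f.derivative * R) :
    c0.natDegree + 1 ≤ f.natDegree + R.natDegree ∨ R.natDegree = f.natDegree := by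
  by_cases hW : f * R.derivative - f.derivative * R = 0
  · right
    rw [sub_eq_zero] at hW
    have hlf : f.leadingCoeff ≠ 0 := Polynomial.leadingCoeff_ne_zero.2 hf
    have hlR : R.leadingCoeff ≠ 0 := Polynomial.leadingCoeff_ne_zero.2 hR
    rcases Nat.eq_zero_or_pos f.natDegree with h0 | h0
    · have h1 : f.derivative = 0 := by
        rw [Polynomial.eq_C_of_natDegree_eq_zero h0, Polynomial.derivative_C]
      rw [h1, zero_mul] at hW
      rw [h0]
      exact Polynomial.derivative_eq_zero.1 ((mul_eq_zero.1 hW).resolve_left hf)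
    · rcases Nat.eq_zero_or_pos R.natDegree with h2 | h2
      · have h1 : R.derivative = 0 := by
          rw [Polynomial.eq_C_of_natDegree_eq_zero h2, Polynomial.derivative_C]
        rw [h1, mul_zero] at hW
        rw [h2]
        exact (Polynomial.derivative_eq_zero.1
          ((mul_eq_zero.1 hW.symm).resolve_right hR)).symm
      · have hdf : f.derivative.natDegree ≤ f.natDegree - 1 := Polynomial.natDegree_derivative_le f
        have hdR : R.derivative.natDegree ≤ R.natDegree - 1 := Polynomial.natDegree_derivative_le R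
        have e1 : (f * R.derivative).coeff (f.natDegree + (R.natDegree - 1))
            = f.leadingCoeff * (R.natDegree * R.leadingCoeff) := by
          rw [Polynomial.coeff_mul_add_eq_of_natDegree_le le_rfl hdR, Polynomial.coeff_derivative]
          have e3 : R.natDegree - 1 + 1 = R.natDegree := by omega
          have e4 : ((R.natDegree - 1 : ℕ) : A) + 1 = R.natDegree := by
            have : ((R.natDegree - 1 + 1 : ℕ) : A) = R.natDegree := by rw [e3]
            push_cast at this
            exact this
          rw [e3, e4]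
          simp only [Polynomial.coeff_natDegree]
          ring
        have e2 : (f.derivative * R).coeff ((f.natDegree - 1) + R.natDegree)
            = (f.natDegree * f.leadingCoeff) * R.leadingCoeff := by
          rw [Polynomial.coeff_mul_add_eq_of_natDegree_le hdf le_rfl, Polynomial.coeff_derivative]
          have e3 : f.natDegree - 1 + 1 = f.natDegree := by omega
          have e4 : ((f.natDegree - 1 : ℕ) : A) + 1 = f.natDegree := by
            have : ((f.natDegree - 1 + 1 : ℕ) : A) = f.natDegree := by rw [e3]
            push_cast at this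
            exact this
          rw [e3, e4]
          simp only [Polynomial.coeff_natDegree]
          ring
        have e3 : f.natDegree + (R.natDegree - 1) = (f.natDegree - 1) + R.natDegree := by omega
        rw [hW, e3, e2] at e1
        have e5 : (f.leadingCoeff * R.leadingCoeff) * (f.natDegree : A)
            = (f.leadingCoeff * R.leadingCoeff) * (R.natDegree : A) := by
          linear_combination e1
        have e6 := mul_left_cancel₀ (mul_ne_zero hlf hlR) e5
        exact_mod_cast e6.symm
  · left
    have h1 : c0.natDegree ≤ (f * R.derivative - f.derivative * R).natDegree :=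
      Polynomial.natDegree_le_of_dvd hc hW
    have h2 := Polynomial.natDegree_wronskian_lt_add (a := f) (b := R) (by
      rw [Polynomial.wronskian]
      exact hW)
    rw [Polynomial.wronskian] at h2
    omega

variable {ι : Type*} [DecidableEq ι]

omit [IsDomain A] [CharZero A] in
/-- products of powers -/
lemma prod_dvd (s : Finset ι) (F : ι → Polynomial A) (a : ι → ℕ) :
    ∏ i ∈ s, F i ^ (a i - 1) ∣ ∏ i ∈ s, F i ^ (a i) ∧
    ∏ i ∈ s, F i ^ (a i - 1) ∣ (∏ i ∈ s, F i ^ (a i)).derivative := by
  induction s using Finset.induction_on with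
  | empty => simp
  | insert i s hi ih =>
    rw [Finset.prod_insert hi, Finset.prod_insert hi]
    have h1 : F i ^ (a i - 1) ∣ F i ^ (a i) := pow_dvd_pow _ (Nat.sub_le _ _)
    have h2 : F i ^ (a i - 1) ∣ (F i ^ (a i)).derivative := by
      rw [Polynomial.derivative_pow]
      exact ⟨Polynomial.C (a i : A) * (F i).derivative, by ring⟩
    refine ⟨mul_dvd_mul h1 ih.1, ?_⟩
    rw [Polynomial.derivative_mul]
    exact dvd_add (mul_dvd_mul h2 ih.1) (mul_dvd_mul h1 ih.2)

/-- **The difference of two products of powers** has large degree. -/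
theorem lw_poly [Fintype ι] (F : ι → Polynomial A) (D a c : ι → ℕ) (hD : ∀ i, (F i).natDegree = D i)
    (hF : ∀ i, F i ≠ 0) (hac : ∀ i, (a i = 0 ∧ 0 < c i) ∨ (0 < a i ∧ c i = 0))
    (hpos : 1 ≤ ∑ i, D i) {b E : ℕ} (hb : 0 < b) (hE : b * E + ∑ i, a i * D i = ∑ i, c i * D i)
    (G : Polynomial A) (hne : (∏ i, F i ^ (a i)) * G ^ b ≠ ∏ i, F i ^ (c i)) :
    ∑ i, c i * D i + 1 ≤ ((∏ i, F i ^ (a i)) * G ^ b - ∏ i, F i ^ (c i)).natDegree
      + ∑ i, D i + E := by
  have hdeg : ∀ e : ι → ℕ, (∏ i, F i ^ (e i)).natDegree = ∑ i, e i * D i := by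
    intro e
    rw [Polynomial.natDegree_prod _ _ (fun i _ => pow_ne_zero _ (hF i))]
    refine Finset.sum_congr rfl fun i _ => ?_
    rw [Polynomial.natDegree_pow, hD]
  have hnz : ∀ e : ι → ℕ, (∏ i, F i ^ (e i)) ≠ 0 := fun e =>
    Finset.prod_ne_zero_iff.2 fun i _ => pow_ne_zero _ (hF i)
  set N := ∏ i, F i ^ (a i) with hN
  set M := ∏ i, F i ^ (c i) with hM
  set m := ∑ i, c i * D i with hm
  set R := N * G ^ b - M with hR
  have hR0 : R ≠ 0 := sub_ne_zero.2 hne
  have hMd : M.natDegree = m := hdeg c
  by_cases hu : (N * G ^ b).natDegree = m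
  · rcases eq_or_ne G 0 with hG | hG
    · rw [hG, zero_pow hb.ne', mul_zero, Polynomial.natDegree_zero] at hu
      omega
    have hGd : G.natDegree = E := by
      rw [Polynomial.natDegree_mul (hnz a) (pow_ne_zero _ hG), Polynomial.natDegree_pow, hdeg a, ← hE,
        add_comm] at hu
      have := Nat.add_right_cancel hu
      exact Nat.eq_of_mul_eq_mul_left hb this
    obtain ⟨a1, a2⟩ := prod_dvd Finset.univ F a
    obtain ⟨c1, c2⟩ := prod_dvd Finset.univ F c
    rw [← hN] at a1 a2
    rw [← hM] at c1 c2
    set c0 := (∏ i, F i ^ (c i - 1)) * ((∏ i, F i ^ (a i - 1)) * G ^ (b - 1)) with hc0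
    have g1 : G ^ (b - 1) ∣ G ^ b := pow_dvd_pow _ (Nat.sub_le _ _)
    have g2 : G ^ (b - 1) ∣ (G ^ b).derivative := by
      rw [Polynomial.derivative_pow]
      exact ⟨Polynomial.C (b : A) * G.derivative, by ring⟩
    have hdvd : c0 ∣ M * R.derivative - M.derivative * R := by
      have h1 : M * R.derivative - M.derivative * R
          = M * (N * G ^ b).derivative - M.derivative * (N * G ^ b) := by
        rw [hR, Polynomial.derivative_sub]
        ring
      rw [h1]
      have u1 : (∏ i, F i ^ (a i - 1)) * G ^ (b - 1) ∣ N * G ^ b := mul_dvd_mul a1 g1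
      have u2 : (∏ i, F i ^ (a i - 1)) * G ^ (b - 1) ∣ (N * G ^ b).derivative := by
        rw [Polynomial.derivative_mul]
        exact dvd_add (mul_dvd_mul a2 g1) (mul_dvd_mul a1 g2)
      exact dvd_sub (mul_dvd_mul c1 u2) (mul_dvd_mul c2 u1)
    rcases wr (hnz c) hR0 hdvd with h | h
    · have h2 : c0.natDegree + (∑ i, D i + E) = 2 * m := by
        rw [hc0, Polynomial.natDegree_mul (hnz _) (mul_ne_zero (hnz _) (pow_ne_zero _ hG)),
          Polynomial.natDegree_mul (hnz _) (pow_ne_zero _ hG), Polynomial.natDegree_pow, hGd,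
          hdeg, hdeg]
        have h3 : ∑ i, (c i - 1) * D i + ∑ i, (a i - 1) * D i + ∑ i, D i
            = ∑ i, c i * D i + ∑ i, a i * D i := by
          rw [← Finset.sum_add_distrib, ← Finset.sum_add_distrib, ← Finset.sum_add_distrib]
          refine Finset.sum_congr rfl fun i _ => ?_
          rcases hac i with ⟨h4, h5⟩ | ⟨h4, h5⟩
          · obtain ⟨k, hk⟩ : ∃ k, c i = k + 1 := ⟨c i - 1, by omega⟩
            rw [h4, hk, Nat.add_sub_cancel]
            ring
          · obtain ⟨k, hk⟩ : ∃ k, a i = k + 1 := ⟨a i - 1, by omega⟩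
            rw [h5, hk, Nat.add_sub_cancel]
            ring
        have h4 : (b - 1) * E + E = b * E := by
          obtain ⟨k, rfl⟩ : ∃ k, b = k + 1 := ⟨b - 1, by omega⟩
          rw [Nat.add_sub_cancel]
          ring
        rw [← hm] at h3
        omega
      have h3 : M.natDegree = m := hMd
      change c0.natDegree + 1 ≤ M.natDegree + R.natDegree at h
      omega
    · change R.natDegree = M.natDegree at h
      omega
  · have h1 : m ≤ R.natDegree := by
      rcases Nat.lt_or_gt_of_ne hu with h | h
      · rw [hR, Polynomial.natDegree_sub_eq_right_of_natDegree_lt (by rw [hMd]; exact h), hMd]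
      · rw [hR, Polynomial.natDegree_sub_eq_left_of_natDegree_lt (by rw [hMd]; exact h)]
        exact h.le
    omega

end

end Pool.Agent.Q4.Hall
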