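import Mathlib
import Pool.Agent.Q4.Hall.Wr

set_option autoImplicit false
set_option linter.unusedSectionVars false

/-!
# Products of powers of an integer and of values of polynomials, near a ray
-/

namespace Pool.Agent.Q4.Hall

open Filter Topology Pool.Agent.TH932.Abs Pool.Agent.TH932.Germs Pool.Agent.TH932.Chi
open Pool.Agent.TH796.AL Pool.Agent.Q4.Blk Pool.Agent.Q4.Gcd Pool.Agent.Q4.Cov Module MvPolynomial
open Pool.Agent.Q4.Tube

section
variable {σ : Type} [Fintype σ] [DecidableEq σ]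

lemma topv_mul (θ : σ → ℝ) {F G : MvPolynomial (Option σ) ℤ} {D E : ℕ} (hF : F.totalDegree ≤ D)
    (hG : G.totalDegree ≤ E) : topv (D + E) (F * G) θ = topv D F θ * topv E G θ := by
  apply C_injective σ ℝ
  rw [← Phi_coeff θ (F * G) ((totalDegree_mul _ _).trans (add_le_add hF hG)), map_mul C,
    map_mul (MvPolynomial.map (Int.castRingHom ℝ)), map_mul (Phi θ), ← Phi_coeff θ F hF, ← Phi_coeff θ G hG]
  exact Polynomial.coeff_mul_add_eq_of_natDegree_le
    (Phi_le θ ((Finset.sup_mono (support_map_subset _ _)).trans hF))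
    (Phi_le θ ((Finset.sup_mono (support_map_subset _ _)).trans hG))

lemma topv_prod (θ : σ → ℝ) {ι : Type*} [DecidableEq ι] (s : Finset ι)
    (F : ι → MvPolynomial (Option σ) ℤ) (D e : ι → ℕ) (hF : ∀ i, (F i).totalDegree ≤ D i) :
    (∏ i ∈ s, F i ^ (e i)).totalDegree ≤ ∑ i ∈ s, e i * D i ∧
    topv (∑ i ∈ s, e i * D i) (∏ i ∈ s, F i ^ (e i)) θ = ∏ i ∈ s, (topv (D i) (F i) θ) ^ (e i) := by
  induction s using Finset.induction_on with
  | empty =>
    refine ⟨by simp, ?_⟩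
    simp only [Finset.prod_empty, Finset.sum_empty]
    exact topv_one θ
  | insert i s hi ih =>
    rw [Finset.prod_insert hi, Finset.sum_insert hi, Finset.prod_insert hi]
    have h1 : (F i ^ (e i)).totalDegree ≤ e i * D i :=
      (totalDegree_pow _ _).trans (Nat.mul_le_mul_left _ (hF i))
    refine ⟨(totalDegree_mul _ _).trans (add_le_add h1 ih.1), ?_⟩
    rw [topv_mul θ h1 ih.1, ih.2, topv_pow θ (hF i)]

end

section
variable {σ : Type} [Fintype σ] [DecidableEq σ]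
variable (S : Finset ℕ) (hS : ∀ p ∈ S, p.Prime) {θ : σ → ℝ} (halg : ∀ s, IsAlgebraic ℚ (θ s))
  (hind : LinearIndependent ℚ (fun o : Option σ => (o.elim 1 (fun s => θ s) : ℝ)))
  {q : ℕ → ℕ} {x : ℕ → σ → ℤ} (H : Tub S θ q x)

include hS halg hind H

/-- **Powers products** near a ray, along a sequence. -/
theorem lw_seqT {ι : Type*} [Fintype ι] [DecidableEq ι] (F : ι → MvPolynomial (Option σ) ℤ)
    (D a c : ι → ℕ) (hF : ∀ i, (F i).totalDegree ≤ D i) (htop : ∀ i, topv (D i) (F i) θ ≠ 0)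
    (hac : ∀ i, (a i = 0 ∧ 0 < c i) ∨ (0 < a i ∧ c i = 0))
    (hpos : 1 ≤ ∑ i, D i) {b E : ℕ} (hb : 0 < b) (hE : b * E + ∑ i, a i * D i = ∑ i, c i * D i)
    (y : ℕ → ℤ)
    (hne : ∀ᶠ n in (UU : Filter ℕ), (∏ i, (eval (px (q n) (x n)) (F i)) ^ (a i)) * (y n) ^ b
      ≠ ∏ i, (eval (px (q n) (x n)) (F i)) ^ (c i)) {ε : ℝ} (hε : 0 < ε) :
    ∀ᶠ n in (UU : Filter ℕ),
      (q n : ℝ) ^ (((∑ i, c i * D i + 1 : ℕ) : ℝ) - ((∑ i, D i + E : ℕ) : ℝ) - ε)
      ≤ |(∏ i, ((eval (px (q n) (x n)) (F i) : ℤ) : ℝ) ^ (a i)) * (y n : ℝ) ^ b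
        - ∏ i, ((eval (px (q n) (x n)) (F i) : ℤ) : ℝ) ^ (c i)| := by
  classical
  by_contra hcon
  have hcon' := Ultrafilter.eventually_not.2 hcon
  obtain ⟨hNd, hNt⟩ := topv_prod θ Finset.univ F D a hF
  obtain ⟨hMd, hMt⟩ := topv_prod θ Finset.univ F D c hF
  set N := ∏ i, F i ^ (a i) with hN
  set M := ∏ i, F i ^ (c i) with hM
  set d := ∑ i, a i * D i with hd
  set m := ∑ i, c i * D i with hm
  have hNt0 : topv d N θ ≠ 0 := by
    rw [hNt]
    exact Finset.prod_ne_zero_iff.2 fun i _ => pow_ne_zero _ (htop i)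
  have hMt0 : topv (b * E + d) M θ ≠ 0 := by
    rw [hE, hMt]
    exact Finset.prod_ne_zero_iff.2 fun i _ => pow_ne_zero _ (htop i)
  have hN0 : N ≠ 0 := topv_ne hNt0
  have hNe : ∀ n, eval (px (q n) (x n)) N = ∏ i, (eval (px (q n) (x n)) (F i)) ^ (a i) := by
    intro n
    rw [hN, map_prod]
    simp only [map_pow]
  have hMe : ∀ n, eval (px (q n) (x n)) M = ∏ i, (eval (px (q n) (x n)) (F i)) ^ (c i) := by
    intro n
    rw [hM, map_prod]
    simp only [map_pow]
  have hrel : ∀ n, (∏ i, ((eval (px (q n) (x n)) (F i) : ℤ) : ℝ) ^ (a i)) * (y n : ℝ) ^ b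
        - ∏ i, ((eval (px (q n) (x n)) (F i) : ℤ) : ℝ) ^ (c i)
      = (((eval (px (q n) (x n)) N) * (y n) ^ b - eval (px (q n) (x n)) M : ℤ) : ℝ) := by
    intro n
    rw [hNe, hMe]
    push_cast
    rfl
  have hbE : (b - 1) * E + E = b * E := by
    obtain ⟨k, rfl⟩ : ∃ k, b = k + 1 := ⟨b - 1, by omega⟩
    rw [Nat.add_sub_cancel]
    ring
  have hsm : Sm q ((((b - 1) * E + d : ℕ) : ℝ) - ε)
      (fun n => ((bino N M b).map (evx (q n) (x n) ℂ)).eval (y n : ℂ)) := by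
    intro ε' hε'
    filter_upwards [hcon'] with n hn
    rw [not_le, hrel] at hn
    rw [bino_eval]
    have h1 : ((eval (px (q n) (x n)) N : ℤ) : ℂ) * (y n : ℂ) ^ b - ((eval (px (q n) (x n)) M : ℤ) : ℂ)
        = (((eval (px (q n) (x n)) N * (y n) ^ b - eval (px (q n) (x n)) M : ℤ) : ℝ) : ℂ) := by
      push_cast
      rfl
    rw [h1, Complex.norm_real, Real.norm_eq_abs]
    refine hn.le.trans (Real.rpow_le_rpow_of_exponent_le (qone H.big n) ?_)
    have h2 : ((m + 1 : ℕ) : ℝ) ≤ ((((b - 1) * E + d) + (∑ i, D i + E) : ℕ) : ℝ) := by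
      exact_mod_cast (by omega)
    push_cast at h2 ⊢
    linarith
  have hbd := bino_deg (N := N) (M := M) hN0 hb
  obtain ⟨G, -, hG⟩ := near_rootT S hS halg hind H (P := bino N M b) (D := E) (d := d)
    (by rw [hbd]; exact hb) (by rw [bino_lc hN0 hb]; exact hNt0) (by rw [bino_lc hN0 hb]; exact hNd)
    (fun i => bino_hdeg hN0 hb hNd (by rw [hE]; exact hMd) i) (bino_sep hN0 hb hNt0 hMt0) y hε
    (by rw [hbd]; exact hsm)
  set R : MvPolynomial (Option σ) ℚ := map (Int.castRingHom ℚ) N * G ^ b - map (Int.castRingHom ℚ) M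
    with hR
  have hRv : ∀ᶠ n in (UU : Filter ℕ), va (q n) (x n) R
      = ((eval (px (q n) (x n)) N * (y n) ^ b - eval (px (q n) (x n)) M : ℤ) : ℚ) := by
    filter_upwards [hG] with n hn
    rw [hR, map_sub, map_mul, map_pow, ← hn, map_px, map_px]
    push_cast
    rfl
  have hR0 : R ≠ 0 := by
    intro h
    obtain ⟨n, hn, hnn⟩ := (hRv.and hne).exists
    rw [h, map_zero] at hn
    apply hnn
    rw [← hNe, ← hMe]
    exact sub_eq_zero.1 (by exact_mod_cast hn.symm)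
  have hPhi : ∀ e : ι → ℕ, Psi θ (map (Int.castRingHom ℚ) (∏ i, F i ^ (e i)))
      = ∏ i, (Phi θ (map (Int.castRingHom ℝ) (F i))) ^ (e i) := by
    intro e
    rw [map_prod, map_prod]
    refine Finset.prod_congr rfl fun i _ => ?_
    rw [map_pow, map_pow, Psi_int]
  have hPR : Psi θ R = (∏ i, (Phi θ (map (Int.castRingHom ℝ) (F i))) ^ (a i)) * (Psi θ G) ^ b
      - ∏ i, (Phi θ (map (Int.castRingHom ℝ) (F i))) ^ (c i) := by
    rw [hR, map_sub, map_mul, map_pow, hN, hM, hPhi, hPhi]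
  have hFne : ∀ i, Phi θ (map (Int.castRingHom ℝ) (F i)) ≠ 0 := by
    intro i h
    have h1 := Phi_coeff θ (F i) (hF i)
    rw [h, Polynomial.coeff_zero] at h1
    exact htop i (C_injective σ ℝ (h1.symm.trans (map_zero C).symm))
  have hdav := lw_poly (fun i => Phi θ (map (Int.castRingHom ℝ) (F i))) D a c
    (fun i => Phi_eq θ (hF i) (htop i)) hFne hac hpos hb hE (Psi θ G) (by
    intro h
    apply hR0
    apply Psi_inj θ
    rw [hPR, h, sub_self, map_zero])
  rw [← hPR] at hdav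
  have hRR0 : map (algebraMap ℚ ℝ) R ≠ 0 := by
    intro h
    exact hR0 (map_injective _ (algebraMap ℚ ℝ).injective (h.trans (map_zero _).symm))
  have hlow := realT S hS halg hind H (map (algebraMap ℚ ℝ) R) (fun m => by
    rw [coeff_map]
    exact isAlgebraic_algebraMap _) hRR0 (half_pos hε)
  obtain ⟨n, h1, h2, h3, h4⟩ := (hcon'.and (hlow.and (hRv.and
    (big_ev H.big 2 (half_pos hε))))).exists
  rw [eval_real_va S hS halg hind H, h3, ← Phi_natDegree] at h2
  rw [not_le, hrel] at h1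
  have h5 := h2.trans_lt (by
    push_cast at h1 ⊢
    exact h1)
  have h6 := (Real.rpow_lt_rpow_left_iff (by
    have := H.big n
    exact_mod_cast (by omega : 1 < q n))).1 h5
  have h7 : ((m + 1 : ℕ) : ℝ) ≤ (((Psi θ R).natDegree + (∑ i, D i + E) : ℕ) : ℝ) := by
    exact_mod_cast (by omega)
  have h8 : (Phi θ (map (algebraMap ℚ ℝ) R)).natDegree = (Psi θ R).natDegree := rfl
  rw [h8] at h6
  push_cast at h6 h7
  linarith

end

end Pool.Agent.Q4.Hall
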