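import Mathlib
import Pool.Agent.Q4.Hall.Pot
import Pool.Agent.Q4.Tube.Sel

set_option autoImplicit false
set_option linter.unusedSectionVars false

/-!
# The inequality of Lang and Waldschmidt near a ray
-/

namespace Pool.Agent.Q4.Hall

/-- a lower bound for an integer whose power is close to a quotient -/
lemma lw_y {Q Y Nv Mv ε : ℝ} {b E d m : ℕ} (hQ : 1 < Q) (hb : 0 < b) (hE : b * E + d = m)
    (hε : 0 < ε) (h2 : 2 ≤ Q ^ ε) (hN : Nv ≤ Q ^ ((d : ℝ) + ε)) (hNp : 0 < Nv) (hY : 0 ≤ Y)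
    (hM : Q ^ ((m : ℝ) - ε) ≤ Mv) (hh : 1 / 2 * Mv ≤ Y ^ b * Nv) : Q ^ ((E : ℝ) - 3 * ε) ≤ Y := by
  by_contra hcon
  rw [not_le] at hcon
  have hQ0 : 0 < Q := by linarith
  have h3 : Y ^ b < (Q ^ ((E : ℝ) - 3 * ε)) ^ b := pow_lt_pow_left₀ hcon hY hb.ne'
  have h4 : (Q ^ ((E : ℝ) - 3 * ε)) ^ b ≤ Q ^ ((b * E : ℕ) - 3 * ε) := by
    rw [← Real.rpow_natCast, ← Real.rpow_mul hQ0.le]
    apply Real.rpow_le_rpow_of_exponent_le hQ.le
    have h5 : (1 : ℝ) ≤ b := by exact_mod_cast hb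
    push_cast
    nlinarith
  have h5 : Y ^ b * Nv < Q ^ ((b * E : ℕ) - 3 * ε) * Q ^ ((d : ℝ) + ε) := by
    calc Y ^ b * Nv < Q ^ ((b * E : ℕ) - 3 * ε) * Nv :=
          mul_lt_mul_of_pos_right (h3.trans_le h4) hNp
      _ ≤ _ := mul_le_mul_of_nonneg_left hN (by positivity)
  rw [← Real.rpow_add hQ0] at h5
  have h6 : ((b * E : ℕ) : ℝ) - 3 * ε + ((d : ℝ) + ε) = (m : ℝ) - 2 * ε := by
    rw [← hE]
    push_cast
    ring
  rw [h6] at h5
  have h7 : Q ^ ((m : ℝ) - ε) = Q ^ ((m : ℝ) - 2 * ε) * Q ^ ε := by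
    rw [← Real.rpow_add hQ0]
    congr 1
    ring
  have h8 : 0 < Q ^ ((m : ℝ) - 2 * ε) := by positivity
  nlinarith

open Filter Topology Pool.Agent.TH932.Abs Pool.Agent.TH932.Germs Pool.Agent.TH932.Chi
open Pool.Agent.TH796.AL Pool.Agent.Q4.Blk Pool.Agent.Q4.Gcd Pool.Agent.Q4.Cov Module MvPolynomial
open Pool.Agent.Q4.Tube

/-- splitting of integral powers -/
lemma zpow_split {ι : Type*} [Fintype ι] (v : ι → ℤ) (hv : ∀ i, v i ≠ 0) (e : ι → ℤ) (Y : ℝ) (b : ℕ) :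
    Y ^ b * ∏ i, ((v i : ℤ) : ℝ) ^ (e i)
      = ((∏ i, ((v i : ℤ) : ℝ) ^ (e i).toNat) * Y ^ b) / ∏ i, ((v i : ℤ) : ℝ) ^ (-e i).toNat := by
  have h1 : ∀ i, ((v i : ℤ) : ℝ) ^ (e i)
      = ((v i : ℤ) : ℝ) ^ (e i).toNat / ((v i : ℤ) : ℝ) ^ (-e i).toNat := by
    intro i
    have h2 : ((v i : ℤ) : ℝ) ≠ 0 := by exact_mod_cast hv i
    rw [← zpow_natCast, ← zpow_natCast, ← zpow_sub₀ h2]
    congr 1
    omega
  simp only [h1, Finset.prod_div_distrib]
  ring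

section
variable {σ : Type} [Fintype σ] [DecidableEq σ]

theorem lw_mainT (S : Finset ℕ) (hS : ∀ p ∈ S, p.Prime) {θ : σ → ℝ}
    (halg : ∀ s, IsAlgebraic ℚ (θ s))
    (hind : LinearIndependent ℚ (fun o : Option σ => (o.elim 1 (fun s => θ s) : ℝ)))
    {ι : Type*} [Fintype ι] [DecidableEq ι] (F : ι → MvPolynomial (Option σ) ℤ)
    (D : ι → ℕ) (e : ι → ℤ) (hF : ∀ i, (F i).totalDegree ≤ D i)
    (htop : ∀ i, topv (D i) (F i) θ ≠ 0) (he : ∀ i, e i ≠ 0)
    (hpos : 1 ≤ ∑ i, D i) {b E : ℕ} (hb : 0 < b) (hE : (b * E : ℤ) + ∑ i, e i * D i = 0)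
    {ε : ℝ} (hε : 0 < ε) :
    ∃ (η : ℝ) (N : ℕ), 0 < η ∧ ∀ q ≥ N, ∀ x, Near S θ η q x → ∀ y : ℤ, y ≠ 0 →
      (y : ℝ) ^ b * ∏ i, ((eval (px q x) (F i) : ℤ) : ℝ) ^ (e i) ≠ 1 →
      (q : ℝ) ^ (1 - ε) < |(y : ℝ) ^ b * ∏ i, ((eval (px q x) (F i) : ℤ) : ℝ) ^ (e i) - 1|
        * (|(y : ℝ)| * ∏ i, |((eval (px q x) (F i) : ℤ) : ℝ)|) := by
  classical
  set a : ι → ℕ := fun i => (e i).toNat with ha
  set c : ι → ℕ := fun i => (-e i).toNat with hc
  have hac : ∀ i, (a i = 0 ∧ 0 < c i) ∨ (0 < a i ∧ c i = 0) := by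
    intro i
    have := he i
    rw [ha, hc]
    simp only []
    omega
  have hE' : b * E + ∑ i, a i * D i = ∑ i, c i * D i := by
    have h1 : (∑ i, (a i * D i : ℤ)) - ∑ i, (c i * D i : ℤ) = ∑ i, e i * D i := by
      rw [← Finset.sum_sub_distrib]
      refine Finset.sum_congr rfl fun i _ => ?_
      rw [← sub_mul]
      congr 1
      rw [ha, hc]
      simp only []
      omega
    have h2 : ((b * E + ∑ i, a i * D i : ℕ) : ℤ) = ((∑ i, c i * D i : ℕ) : ℤ) := by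
      push_cast
      linarith
    exact_mod_cast h2
  obtain ⟨η, N, hη, h⟩ := none_left S θ (Δ := ℤ) (fun q x y => y ≠ 0 ∧
      (y : ℝ) ^ b * ∏ i, ((eval (px q x) (F i) : ℤ) : ℝ) ^ (e i) ≠ 1 ∧
      |(y : ℝ) ^ b * ∏ i, ((eval (px q x) (F i) : ℤ) : ℝ) ^ (e i) - 1|
        * (|(y : ℝ)| * ∏ i, |((eval (px q x) (F i) : ℤ) : ℝ)|) ≤ (q : ℝ) ^ (1 - ε)) (by
    intro q x y H hd
    obtain ⟨hNd, hNt⟩ := topv_prod θ Finset.univ F D a hF
    obtain ⟨hMd, hMt⟩ := topv_prod θ Finset.univ F D c hF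
    obtain ⟨hPd, hPt⟩ := topv_prod θ Finset.univ F D (fun _ => 1) hF
    have hnz : ∀ k : ι → ℕ, ∏ i, (topv (D i) (F i) θ) ^ (k i) ≠ 0 := fun k =>
      Finset.prod_ne_zero_iff.2 fun i _ => pow_ne_zero _ (htop i)
    have hev : ∀ (k : ι → ℕ) n, ((eval (px (q n) (x n)) (∏ i, F i ^ (k i)) : ℤ) : ℝ)
        = ∏ i, ((eval (px (q n) (x n)) (F i) : ℤ) : ℝ) ^ (k i) := by
      intro k n
      rw [map_prod]
      simp only [map_pow]
      push_cast
      rfl
    set ε' : ℝ := ε / 8 with hε'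
    have hε'0 : 0 < ε' := by positivity
    have hM1 := low_val S hS halg hind H hMd (by rw [hMt]; exact hnz c) hε'0
    have hP1 := low_val S hS halg hind H hPd (by rw [hPt]; exact hnz _) hε'0
    have hN1 := low_val S hS halg hind H hNd (by rw [hNt]; exact hnz a) hε'0
    have hM2 := sm_val S H (∏ i, F i ^ (c i)) hMd ε' hε'0
    have hN2 := sm_val S H (∏ i, F i ^ (a i)) hNd ε' hε'0
    -- replace the sequence by one with all inequalities
    have hall : ∀ᶠ n in (UU : Filter ℕ), ∀ i, eval (px (q n) (x n)) (F i) ≠ 0 := by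
      rw [Filter.eventually_all]
      intro i
      filter_upwards [low_val S hS halg hind H (hF i) (htop i) one_pos] with n hn h0
      rw [h0, Int.cast_zero, abs_zero] at hn
      have := qpos H.big n
      have h2 : 0 < (q n : ℝ) ^ ((D i : ℝ) - 1) := by positivity
      linarith
    have hne : ∀ᶠ n in (UU : Filter ℕ), (∏ i, (eval (px (q n) (x n)) (F i)) ^ (a i)) * (y n) ^ b
      ≠ ∏ i, (eval (px (q n) (x n)) (F i)) ^ (c i) := by
      filter_upwards [hall] with n hn h0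
      apply (hd n).2.1
      rw [zpow_split _ hn]
      have h1 : (∏ i, ((eval (px (q n) (x n)) (F i) : ℤ) : ℝ) ^ (a i)) * (y n : ℝ) ^ b
          = ∏ i, ((eval (px (q n) (x n)) (F i) : ℤ) : ℝ) ^ (c i) := by exact_mod_cast h0
      change ((∏ i, ((eval (px (q n) (x n)) (F i) : ℤ) : ℝ) ^ (a i)) * (y n : ℝ) ^ b)
        / (∏ i, ((eval (px (q n) (x n)) (F i) : ℤ) : ℝ) ^ (c i)) = 1
      rw [h1]
      apply div_self
      exact Finset.prod_ne_zero_iff.2 fun i _ => pow_ne_zero _ (by exact_mod_cast hn i)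
    obtain ⟨n, h1, h2, h3, h4, h5, h6, h7, h8⟩ := ((lw_seqT S hS halg hind H F D a c hF htop hac hpos hb
      hE' y hne hε'0).and (hM1.and (hP1.and (hN1.and (hM2.and (hN2.and (hall.and
      (big_ev H.big 2 hε'0)))))))).exists
    obtain ⟨hy0, -, hup⟩ := hd n
    rw [hev] at h2 h3 h4
    rw [Complex.norm_intCast, hev] at h5 h6
    rw [zpow_split _ h7] at hup
    set m := ∑ i, c i * D i with hm
    set d := ∑ i, a i * D i with hdd
    set s := ∑ i, D i with hs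
    have hs1 : ∑ i, 1 * D i = s := by simp [hs]
    rw [hs1] at h3
    simp only [pow_one] at h3
    change |((∏ i, ((eval (px (q n) (x n)) (F i) : ℤ) : ℝ) ^ (a i)) * (y n : ℝ) ^ b)
        / (∏ i, ((eval (px (q n) (x n)) (F i) : ℤ) : ℝ) ^ (c i)) - 1| * _ ≤ _ at hup
    rw [← Finset.abs_prod] at hup
    set Nv := ∏ i, ((eval (px (q n) (x n)) (F i) : ℤ) : ℝ) ^ (a i) with hNv
    set Mv := ∏ i, ((eval (px (q n) (x n)) (F i) : ℤ) : ℝ) ^ (c i) with hMv
    set Pv := ∏ i, ((eval (px (q n) (x n)) (F i) : ℤ) : ℝ) with hPv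
    set Q : ℝ := (q n : ℝ) with hQ
    have hQ1 : 1 < Q := by
      have := H.big n
      rw [hQ]
      exact_mod_cast (by omega : 1 < q n)
    have hQ0 : 0 < Q := by linarith
    have hMp : 0 < |Mv| := lt_of_lt_of_le (by positivity) h2
    have hNp : 0 < |Nv| := lt_of_lt_of_le (by positivity) h4
    have hPp : 0 < |Pv| := lt_of_lt_of_le (by positivity) h3
    have hM0 : Mv ≠ 0 := abs_pos.1 hMp
    have hY1 : 1 ≤ |(y n : ℝ)| := by exact_mod_cast Int.one_le_abs hy0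
    have e1 : |Nv * (y n : ℝ) ^ b / Mv - 1| * |Mv| = |Nv * (y n : ℝ) ^ b - Mv| := by
      rw [← abs_mul]
      congr 1
      field_simp
    set L := |Nv * (y n : ℝ) ^ b / Mv - 1| with hL
    have hL0 : 0 ≤ L := abs_nonneg _
    rcases le_or_gt L (1 / 2) with hL2 | hL2
    · have h9 : 1 / 2 * |Mv| ≤ |(y n : ℝ)| ^ b * |Nv| := by
        have h10 : |Nv * (y n : ℝ) ^ b - Mv| ≤ 1 / 2 * |Mv| := by
          rw [← e1]
          exact mul_le_mul_of_nonneg_right hL2 hMp.le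
        have h11 : |Mv| - |Nv * (y n : ℝ) ^ b| ≤ |Nv * (y n : ℝ) ^ b - Mv| := by
          rw [abs_sub_comm]
          exact abs_sub_abs_le_abs_sub _ _
        have h12 : |(y n : ℝ)| ^ b * |Nv| = |Nv * (y n : ℝ) ^ b| := by
          rw [abs_mul, abs_pow, mul_comm]
        rw [h12]
        linarith
      have h10 := lw_y hQ1 hb hE' hε'0 h8 h6 hNp (abs_nonneg _) h2 h9
      have h11 : Q ^ (((m + 1 : ℕ) : ℝ) - ((s + E : ℕ) : ℝ) - ε') ≤ L * Q ^ ((m : ℝ) + ε') := by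
        refine h1.trans ?_
        rw [← e1]
        exact mul_le_mul_of_nonneg_left h5 hL0
      have h12 : Q ^ (1 - (s : ℝ) - E - 2 * ε') ≤ L := by
        have h13 : Q ^ (((m + 1 : ℕ) : ℝ) - ((s + E : ℕ) : ℝ) - ε')
            = Q ^ (1 - (s : ℝ) - E - 2 * ε') * Q ^ ((m : ℝ) + ε') := by
          rw [← Real.rpow_add hQ0]
          congr 1
          push_cast
          ring
        rw [h13] at h11
        exact le_of_mul_le_mul_right h11 (by positivity)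
      have h13 : Q ^ (1 - 6 * ε') ≤ L * (|(y n : ℝ)| * |Pv|) := by
        have h14 : Q ^ (1 - 6 * ε') = Q ^ (1 - (s : ℝ) - E - 2 * ε')
            * (Q ^ ((E : ℝ) - 3 * ε') * Q ^ ((s : ℝ) - ε')) := by
          rw [← Real.rpow_add hQ0, ← Real.rpow_add hQ0]
          congr 1
          ring
        rw [h14]
        exact mul_le_mul h12 (mul_le_mul h10 h3 (by positivity) (abs_nonneg _)) (by positivity) hL0
      have h14 := h13.trans hup
      have h15 := (Real.rpow_le_rpow_left_iff hQ1).1 h14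
      rw [hε'] at h15
      linarith
    · have h9 : 1 / 2 * Q ^ ((s : ℝ) - ε') ≤ L * (|(y n : ℝ)| * |Pv|) := by
        refine mul_le_mul hL2.le ?_ (by positivity) hL0
        calc Q ^ ((s : ℝ) - ε') ≤ 1 * |Pv| := by rw [one_mul]; exact h3
          _ ≤ _ := mul_le_mul_of_nonneg_right hY1 hPp.le
      have h10 := h9.trans hup
      have h11 : Q ^ (1 - 2 * ε') * 2 ≤ Q ^ ((s : ℝ) - ε') := by
        have h12 : Q ^ (1 - ε') ≤ Q ^ ((s : ℝ) - ε') := by
          apply Real.rpow_le_rpow_of_exponent_le hQ1.le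
          have : (1 : ℝ) ≤ s := by exact_mod_cast hpos
          linarith
        have h13 : Q ^ (1 - ε') = Q ^ (1 - 2 * ε') * Q ^ ε' := by
          rw [← Real.rpow_add hQ0]
          congr 1
          ring
        rw [h13] at h12
        refine le_trans ?_ h12
        exact mul_le_mul_of_nonneg_left h8 (by positivity)
      have h12 : Q ^ (1 - 2 * ε') ≤ Q ^ (1 - ε) := by linarith
      have h15 := (Real.rpow_le_rpow_left_iff hQ1).1 h12
      rw [hε'] at h15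
      linarith)
  refine ⟨η, N, hη, fun q hq x hx y hy h1 => ?_⟩
  by_contra hcon
  exact h q hq x hx y ⟨hy, h1, not_lt.1 hcon⟩

end

end Pool.Agent.Q4.Hall
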