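import Mathlib
import Pool.Agent.Q4.Hall.PotMain

set_option autoImplicit false
set_option linter.unusedSectionVars false

/-!
# The inequality of Lang and Waldschmidt at nearly optimal approximations
-/

namespace Pool.Agent.Q4.Hall

open Filter Topology Pool.Agent.TH932.Abs Pool.Agent.TH932.Germs Pool.Agent.TH932.Chi
open Pool.Agent.TH796.AL Pool.Agent.Q4.Blk Pool.Agent.Q4.Gcd Pool.Agent.Q4.Cov Module
open Pool.Agent.Q4.Tube hiding Near sm_fr sm_vs sm_dl dl_tendsto dl_le_one sm_ord sm_any lim_evr branch' expand' px_ne root_bnd approxS root_exp deriv_seq sm_px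
open Pool.Agent.Q4.Opt
open MvPolynomial

section
variable {S : Finset ℕ} {hS : ∀ p ∈ S, p.Prime} {θ : Unit → ℝ} {q : ℕ → ℕ} {x : ℕ → Unit → ℤ}

/-- **Products of powers** at nearly optimal approximations, along a sequence. -/
theorem lw_seqO (H : Ext S hS θ q x (fun _ => 0) (fun _ => 1)) (halg : IsAlgebraic ℚ (θ ()))
    (h3 : 3 ≤ (minpoly ℚ (θ ())).natDegree)
    {ι : Type*} [Fintype ι] [DecidableEq ι] (F : ι → MvPolynomial (Option Unit) ℤ)
    (D a c : ι → ℕ) (hF : ∀ i, (F i).totalDegree ≤ D i) (htop : ∀ i, topv (D i) (F i) θ ≠ 0)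
    (hac : ∀ i, (a i = 0 ∧ 0 < c i) ∨ (0 < a i ∧ c i = 0))
    (hpos : 1 ≤ ∑ i, D i) {b E : ℕ} (hb : 0 < b) (hE : b * E + ∑ i, a i * D i = ∑ i, c i * D i)
    (y : ℕ → ℤ)
    (hne : ∀ᶠ n in (UU : Filter ℕ), (∏ i, (eval (px (q n) (x n)) (F i)) ^ (a i)) * (y n) ^ b
      ≠ ∏ i, (eval (px (q n) (x n)) (F i)) ^ (c i)) {ε : ℝ} (hε : 0 < ε) :
    ∀ᶠ n in (UU : Filter ℕ),
      (q n : ℝ) ^ ((1 - 2 / ((minpoly ℚ (θ ())).natDegree : ℝ))
        * ((∑ i, c i * D i + 1 - (∑ i, D i + E) : ℕ) : ℝ) - ε)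
      ≤ |(∏ i, ((eval (px (q n) (x n)) (F i) : ℤ) : ℝ) ^ (a i)) * (y n : ℝ) ^ b
        - ∏ i, ((eval (px (q n) (x n)) (F i) : ℤ) : ℝ) ^ (c i)| := by
  classical
  obtain ⟨hNd, hNt⟩ := topv_prod θ Finset.univ F D a hF
  obtain ⟨hMd, hMt⟩ := topv_prod θ Finset.univ F D c hF
  set N := ∏ i, F i ^ (a i) with hN
  set M := ∏ i, F i ^ (c i) with hM
  set d := ∑ i, a i * D i with hd
  set m := ∑ i, c i * D i with hm
  have hNt0 : topv d N θ ≠ 0 := by
    rw [hNt]
    exact Finset.prod_ne_zero_iff.2 fun i _ => pow_ne_zero _ (htop i)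
  have hMt0 : topv (b * E + d) M θ ≠ 0 := by
    rw [hE, hMt]
    exact Finset.prod_ne_zero_iff.2 fun i _ => pow_ne_zero _ (htop i)
  have hN0 : N ≠ 0 := topv_ne hNt0
  have hNe : ∀ n, eval (px (q n) (x n)) N = ∏ i, (eval (px (q n) (x n)) (F i)) ^ (a i) := by
    intro n
    rw [hN, map_prod]
    simp only [map_pow]
  have hMe : ∀ n, eval (px (q n) (x n)) M = ∏ i, (eval (px (q n) (x n)) (F i)) ^ (c i) := by
    intro n
    rw [hM, map_prod]
    simp only [map_pow]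
  have hrel : ∀ n, (∏ i, ((eval (px (q n) (x n)) (F i) : ℤ) : ℝ) ^ (a i)) * (y n : ℝ) ^ b
        - ∏ i, ((eval (px (q n) (x n)) (F i) : ℤ) : ℝ) ^ (c i)
      = (((eval (px (q n) (x n)) N) * (y n) ^ b - eval (px (q n) (x n)) M : ℤ) : ℝ) := by
    intro n
    rw [hNe, hMe]
    push_cast
    rfl
  have hne' : ∀ᶠ n in (UU : Filter ℕ),
      eval (px (q n) (x n)) N * (y n) ^ b - eval (px (q n) (x n)) M ≠ 0 := by
    filter_upwards [hne] with n hn
    rw [hNe, hMe]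
    exact sub_ne_zero.2 hn
  by_cases hT : ∑ i, D i + E ≤ m + 1
  swap
  · filter_upwards [hne'] with n hn
    rw [hrel, Nat.sub_eq_zero_of_le (by omega), Nat.cast_zero, mul_zero, zero_sub]
    refine (Real.rpow_le_one_of_one_le_of_nonpos (qone H.big n) (by linarith)).trans ?_
    exact_mod_cast Int.one_le_abs hn
  by_contra hcon
  have hcon' := Ultrafilter.eventually_not.2 hcon
  have hind : ∀ R : MvPolynomial (Option Unit) ℚ, Rel q x R → R = 0 :=
    fun R hR => indep H halg h3 (by simp) R hR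
  set dd : ℝ := ((minpoly ℚ (θ ())).natDegree : ℝ) with hdd
  have hdd3 : 3 ≤ dd := by rw [hdd]; exact_mod_cast h3
  have hfac0 : 0 < 1 - 2 / dd := by
    rw [sub_pos, div_lt_one (by linarith)]
    linarith
  have hfac1 : 1 - 2 / dd ≤ 1 := by
    have : 0 < 2 / dd := by positivity
    linarith
  have hbE : (b - 1) * E + E = b * E := by
    obtain ⟨k, rfl⟩ : ∃ k, b = k + 1 := ⟨b - 1, by omega⟩
    rw [Nat.add_sub_cancel]
    ring
  set g : ℕ := m + 1 - (∑ i, D i + E) with hg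
  have hsm0 : Sm q ((1 - 2 / dd) * (g : ℝ) - ε) (fun n => ((((eval (px (q n) (x n)) N) * (y n) ^ b
      - eval (px (q n) (x n)) M : ℤ) : ℝ) : ℂ)) := by
    intro ε' hε'
    filter_upwards [hcon'] with n hn
    rw [not_le, hrel] at hn
    rw [Complex.norm_real, Real.norm_eq_abs]
    exact hn.le.trans (Real.rpow_le_rpow_of_exponent_le (qone H.big n) (by linarith))
  have hsm : Sm q ((((b - 1) * E + d : ℕ) : ℝ) - ε)
      (fun n => ((bino N M b).map (evx (q n) (x n) ℂ)).eval (y n : ℂ)) := by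
    refine (hsm0.mono H.big ?_).congr (Eventually.of_forall fun n => ?_)
    · have h1 : (1 - 2 / dd) * (g : ℝ) ≤ g := by
        have : (0 : ℝ) ≤ g := Nat.cast_nonneg _
        nlinarith
      have h2 : (g : ℝ) ≤ (((b - 1) * E + d : ℕ) : ℝ) := by
        exact_mod_cast (by omega)
      linarith
    · rw [bino_eval]
      push_cast
      rfl
  have hbd := bino_deg (N := N) (M := M) hN0 hb
  obtain ⟨G, -, hG⟩ := near_rootO H (fun _ => halg) hind (P := bino N M b) (D := E) (d := d)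
    (by rw [hbd]; exact hb) (by rw [bino_lc hN0 hb]; exact hNt0) (by rw [bino_lc hN0 hb]; exact hNd)
    (fun i => bino_hdeg hN0 hb hNd (by rw [hE]; exact hMd) i) (bino_sep hN0 hb hNt0 hMt0) y hε
    (by rw [hbd]; exact hsm)
  set R : MvPolynomial (Option Unit) ℚ := MvPolynomial.map (Int.castRingHom ℚ) N * G ^ b
    - MvPolynomial.map (Int.castRingHom ℚ) M with hR
  have hRv : ∀ᶠ n in (UU : Filter ℕ), va (q n) (x n) R
      = ((eval (px (q n) (x n)) N * (y n) ^ b - eval (px (q n) (x n)) M : ℤ) : ℚ) := by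
    filter_upwards [hG] with n hn
    rw [hR, map_sub, map_mul, map_pow, ← hn, map_px, map_px]
    push_cast
    rfl
  have hR0 : R ≠ 0 := by
    intro h
    obtain ⟨n, hn, hnn⟩ := (hRv.and hne').exists
    rw [h, map_zero] at hn
    exact hnn (by exact_mod_cast hn.symm)
  have hPhi : ∀ e : ι → ℕ, Psi θ (MvPolynomial.map (Int.castRingHom ℚ) (∏ i, F i ^ (e i)))
      = ∏ i, (Phi θ (MvPolynomial.map (Int.castRingHom ℝ) (F i))) ^ (e i) := by
    intro e
    rw [map_prod, map_prod]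
    refine Finset.prod_congr rfl fun i _ => ?_
    rw [map_pow, map_pow, Psi_int]
  have hPR : Psi θ R = (∏ i, (Phi θ (MvPolynomial.map (Int.castRingHom ℝ) (F i))) ^ (a i))
      * (Psi θ G) ^ b - ∏ i, (Phi θ (MvPolynomial.map (Int.castRingHom ℝ) (F i))) ^ (c i) := by
    rw [hR, map_sub, map_mul, map_pow, hN, hM, hPhi, hPhi]
  have hFne : ∀ i, Phi θ (MvPolynomial.map (Int.castRingHom ℝ) (F i)) ≠ 0 := by
    intro i h
    have h1 := Phi_coeff θ (F i) (hF i)
    rw [h, Polynomial.coeff_zero] at h1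
    exact htop i (C_injective Unit ℝ (h1.symm.trans (map_zero C).symm))
  have hdav := lw_poly (fun i => Phi θ (MvPolynomial.map (Int.castRingHom ℝ) (F i))) D a c
    (fun i => Phi_eq θ (hF i) (htop i)) hFne hac hpos hb hE (Psi θ G) (by
    intro h
    apply hR0
    apply Psi_inj θ
    rw [hPR, h, sub_self, map_zero])
  rw [← hPR] at hdav
  have h1 : (Psi θ R).natDegree ≤ R.totalDegree := Phi_le_total θ R
  have h2 := notsmO' H halg h3 R hR0 _ (hsm0.congr (by
    filter_upwards [hRv] with n hn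
    rw [hn]
    push_cast
    rfl))
  rw [← hdd] at h2
  have h4 : (g : ℝ) ≤ R.totalDegree := by
    exact_mod_cast (by omega : g ≤ R.totalDegree)
  have h5 : (1 - 2 / dd) * g ≤ (1 - 2 / dd) * R.totalDegree := mul_le_mul_of_nonneg_left h4 hfac0.le
  linarith

/-- **The inequality of Lang and Waldschmidt** at nearly optimal approximations. -/
theorem lw_mainO (θ : Unit → ℝ) (halg : IsAlgebraic ℚ (θ ()))
    (h3 : 3 ≤ (minpoly ℚ (θ ())).natDegree)
    {ι : Type*} [Fintype ι] [DecidableEq ι] (F : ι → MvPolynomial (Option Unit) ℤ)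
    (D : ι → ℕ) (e : ι → ℤ) (hF : ∀ i, (F i).totalDegree ≤ D i)
    (htop : ∀ i, topv (D i) (F i) θ ≠ 0) (he : ∀ i, e i ≠ 0)
    (hpos : 1 ≤ ∑ i, D i) {b E : ℕ} (hb : 0 < b) (hE : (b * E : ℤ) + ∑ i, e i * D i = 0)
    {lam : ℝ} (hlam : ((∑ i, (-e i).toNat * D i : ℕ) : ℝ)
      - (1 - 2 / ((minpoly ℚ (θ ())).natDegree : ℝ))
        * ((∑ i, (-e i).toNat * D i + 1 - (∑ i, D i + E) : ℕ) : ℝ)
      < lam * ((∑ i, D i + E : ℕ) : ℝ)) :
    ∃ (η : ℝ) (N : ℕ), 0 < η ∧ ∀ q ≥ N, ∀ x : Unit → ℤ,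
      (q : ℝ) * |θ () * q - x ()| ≤ (q : ℝ) ^ η → ∀ y : ℤ, y ≠ 0 →
      (y : ℝ) ^ b * ∏ i, ((eval (px q x) (F i) : ℤ) : ℝ) ^ (e i) ≠ 1 →
      (|(y : ℝ)| * ∏ i, |((eval (px q x) (F i) : ℤ) : ℝ)|) ^ (-lam)
        < |(y : ℝ) ^ b * ∏ i, ((eval (px q x) (F i) : ℤ) : ℝ) ^ (e i) - 1| := by
  classical
  set a : ι → ℕ := fun i => (e i).toNat with ha
  set c : ι → ℕ := fun i => (-e i).toNat with hc
  change ((∑ i, c i * D i : ℕ) : ℝ) - _ * ((∑ i, c i * D i + 1 - (∑ i, D i + E) : ℕ) : ℝ) < _ at hlam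
  have hac : ∀ i, (a i = 0 ∧ 0 < c i) ∨ (0 < a i ∧ c i = 0) := by
    intro i
    have := he i
    rw [ha, hc]
    simp only []
    omega
  have hE' : b * E + ∑ i, a i * D i = ∑ i, c i * D i := by
    have h1 : (∑ i, (a i * D i : ℤ)) - ∑ i, (c i * D i : ℤ) = ∑ i, e i * D i := by
      rw [← Finset.sum_sub_distrib]
      refine Finset.sum_congr rfl fun i _ => ?_
      rw [← sub_mul]
      congr 1
      rw [ha, hc]
      simp only []
      omega
    have h2 : ((b * E + ∑ i, a i * D i : ℕ) : ℤ) = ((∑ i, c i * D i : ℕ) : ℤ) := by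
      push_cast
      linarith
    exact_mod_cast h2
  set dd : ℝ := ((minpoly ℚ (θ ())).natDegree : ℝ) with hdd
  have hdd3 : 3 ≤ dd := by rw [hdd]; exact_mod_cast h3
  have hfac0 : 0 < 1 - 2 / dd := by
    rw [sub_pos, div_lt_one (by linarith)]
    linarith
  have hfac1 : 1 - 2 / dd ≤ 1 := by
    have : 0 < 2 / dd := by positivity
    linarith
  set m := ∑ i, c i * D i with hm
  set s := ∑ i, D i with hs
  set g : ℕ := m + 1 - (s + E) with hg
  -- the exponent is positive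
  have hlam0 : 0 < lam := by
    have h1 : (g : ℝ) ≤ m := by exact_mod_cast (by omega)
    have h2 : (0 : ℝ) ≤ g := Nat.cast_nonneg _
    have h4 : (1 - 2 / dd) * (g : ℝ) ≤ m := by nlinarith
    have h5 : 0 < lam * ((s + E : ℕ) : ℝ) := by linarith
    have h6 : (0 : ℝ) < ((s + E : ℕ) : ℝ) := by exact_mod_cast (by omega)
    exact (mul_pos_iff_of_pos_right h6).1 h5
  obtain ⟨η, N, hη, h⟩ := none_leftO ∅ (by simp) θ (Δ := ℤ) (fun η q x y =>
      ((q : ℝ) * |θ () * q - x ()| ≤ (q : ℝ) ^ η) ∧ y ≠ 0 ∧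
      (y : ℝ) ^ b * ∏ i, ((eval (px q x) (F i) : ℤ) : ℝ) ^ (e i) ≠ 1 ∧
      |(y : ℝ) ^ b * ∏ i, ((eval (px q x) (F i) : ℤ) : ℝ) ^ (e i) - 1|
        ≤ (|(y : ℝ)| * ∏ i, |((eval (px q x) (F i) : ℤ) : ℝ)|) ^ (-lam)) (by
    intro q x y β w H' _ hd
    have H : Ext ∅ (by simp) θ q x (fun _ => 0) (fun _ => 1) := ext_one H'.big (fun n => (hd n).1)
    obtain ⟨hNd, hNt⟩ := topv_prod θ Finset.univ F D a hF
    obtain ⟨hMd, hMt⟩ := topv_prod θ Finset.univ F D c hF
    obtain ⟨hPd, hPt⟩ := topv_prod θ Finset.univ F D (fun _ => 1) hF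
    have hnz : ∀ k : ι → ℕ, ∏ i, (topv (D i) (F i) θ) ^ (k i) ≠ 0 := fun k =>
      Finset.prod_ne_zero_iff.2 fun i _ => pow_ne_zero _ (htop i)
    have hev : ∀ (k : ι → ℕ) n, ((eval (px (q n) (x n)) (∏ i, F i ^ (k i)) : ℤ) : ℝ)
        = ∏ i, ((eval (px (q n) (x n)) (F i) : ℤ) : ℝ) ^ (k i) := by
      intro k n
      rw [map_prod]
      simp only [map_pow]
      push_cast
      rfl
    obtain ⟨ε', hε'0, hε'⟩ : ∃ ε' : ℝ, 0 < ε' ∧ (m : ℝ) - (1 - 2 / dd) * g + (3 + 4 * lam) * ε'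
        < lam * ((s + E : ℕ) : ℝ) ∧ ε' ≤ 1 / 2 := by
      set κ := lam * ((s + E : ℕ) : ℝ) - ((m : ℝ) - (1 - 2 / dd) * g) with hκ
      have hκ0 : 0 < κ := by linarith
      refine ⟨min (κ / (2 * (3 + 4 * lam))) (1 / 2), lt_min (by positivity) (by norm_num), ?_,
        min_le_right _ _⟩
      have h1 : (3 + 4 * lam) * min (κ / (2 * (3 + 4 * lam))) (1 / 2)
          ≤ (3 + 4 * lam) * (κ / (2 * (3 + 4 * lam))) :=
        mul_le_mul_of_nonneg_left (min_le_left _ _) (by positivity)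
      have h2 : (3 + 4 * lam) * (κ / (2 * (3 + 4 * lam))) = κ / 2 := by
        field_simp
      linarith
    obtain ⟨hε', hε'1⟩ := hε'
    have hM1 := low_valN H.nr (fun _ => halg) hMd (by rw [hMt]; exact hnz c) hε'0
    have hP1 := low_valN H.nr (fun _ => halg) hPd (by rw [hPt]; exact hnz _) hε'0
    have hN1 := low_valN H.nr (fun _ => halg) hNd (by rw [hNt]; exact hnz a) hε'0
    have hM2 := (H.sm_val (∏ i, F i ^ (c i))).mono H.big (show ((∏ i, F i ^ (c i)).totalDegree : ℝ)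
      ≤ (m : ℝ) by exact_mod_cast hMd) ε' hε'0
    have hN2 := (H.sm_val (∏ i, F i ^ (a i))).mono H.big (show ((∏ i, F i ^ (a i)).totalDegree : ℝ)
      ≤ ((∑ i, a i * D i : ℕ) : ℝ) by exact_mod_cast hNd) ε' hε'0
    have hall : ∀ᶠ n in (UU : Filter ℕ), ∀ i, eval (px (q n) (x n)) (F i) ≠ 0 := by
      rw [Filter.eventually_all]
      intro i
      filter_upwards [low_valN H.nr (fun _ => halg) (hF i) (htop i) one_pos] with n hn h0
      rw [h0, Int.cast_zero, abs_zero] at hn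
      have := qpos H.big n
      have h2 : 0 < (q n : ℝ) ^ ((D i : ℝ) - 1) := by positivity
      linarith
    have hne : ∀ᶠ n in (UU : Filter ℕ), (∏ i, (eval (px (q n) (x n)) (F i)) ^ (a i)) * (y n) ^ b
      ≠ ∏ i, (eval (px (q n) (x n)) (F i)) ^ (c i) := by
      filter_upwards [hall] with n hn h0
      apply (hd n).2.2.1
      rw [zpow_split _ hn]
      have h1 : (∏ i, ((eval (px (q n) (x n)) (F i) : ℤ) : ℝ) ^ (a i)) * (y n : ℝ) ^ b
          = ∏ i, ((eval (px (q n) (x n)) (F i) : ℤ) : ℝ) ^ (c i) := by exact_mod_cast h0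
      change ((∏ i, ((eval (px (q n) (x n)) (F i) : ℤ) : ℝ) ^ (a i)) * (y n : ℝ) ^ b)
        / (∏ i, ((eval (px (q n) (x n)) (F i) : ℤ) : ℝ) ^ (c i)) = 1
      rw [h1]
      apply div_self
      exact Finset.prod_ne_zero_iff.2 fun i _ => pow_ne_zero _ (by exact_mod_cast hn i)
    obtain ⟨n, h1, h2, h3', h4, h5, h6, h7, h8, h9⟩ := ((lw_seqO H halg h3 F D a c hF htop hac hpos
      hb hE' y hne hε'0).and (hM1.and (hP1.and (hN1.and (hM2.and (hN2.and (hall.and
      ((big_ev H.big 2 hε'0).and (big_ev H.big 3 (show 0 < lam * (1 / 2) by positivity)))))))))).exists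
    obtain ⟨-, hy0, -, hup⟩ := hd n
    rw [hev] at h2 h3' h4
    rw [Complex.norm_intCast, hev] at h5 h6
    rw [zpow_split _ h7] at hup
    rw [← hdd] at h1
    set d := ∑ i, a i * D i with hdd'
    have hs1 : ∑ i, 1 * D i = s := by simp [hs]
    rw [hs1] at h3'
    simp only [pow_one] at h3'
    change |((∏ i, ((eval (px (q n) (x n)) (F i) : ℤ) : ℝ) ^ (a i)) * (y n : ℝ) ^ b)
        / (∏ i, ((eval (px (q n) (x n)) (F i) : ℤ) : ℝ) ^ (c i)) - 1| ≤ _ at hup
    rw [← Finset.abs_prod] at hup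
    set Nv := ∏ i, ((eval (px (q n) (x n)) (F i) : ℤ) : ℝ) ^ (a i) with hNv
    set Mv := ∏ i, ((eval (px (q n) (x n)) (F i) : ℤ) : ℝ) ^ (c i) with hMv
    set Pv := ∏ i, ((eval (px (q n) (x n)) (F i) : ℤ) : ℝ) with hPv
    set Q : ℝ := (q n : ℝ) with hQ
    have hQ1 : 1 < Q := by
      have := H.big n
      rw [hQ]
      exact_mod_cast (by omega : 1 < q n)
    have hQ0 : 0 < Q := by linarith
    have hMp : 0 < |Mv| := lt_of_lt_of_le (by positivity) h2
    have hNp : 0 < |Nv| := lt_of_lt_of_le (by positivity) h4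
    have hPp : 0 < |Pv| := lt_of_lt_of_le (by positivity) h3'
    have hM0 : Mv ≠ 0 := abs_pos.1 hMp
    have hY1 : 1 ≤ |(y n : ℝ)| := by exact_mod_cast Int.one_le_abs hy0
    have e1 : |Nv * (y n : ℝ) ^ b / Mv - 1| * |Mv| = |Nv * (y n : ℝ) ^ b - Mv| := by
      rw [← abs_mul]
      congr 1
      field_simp
    set L := |Nv * (y n : ℝ) ^ b / Mv - 1| with hL
    have hL0 : 0 ≤ L := abs_nonneg _
    rcases le_or_gt L (1 / 2) with hL2 | hL2
    · have h9' : 1 / 2 * |Mv| ≤ |(y n : ℝ)| ^ b * |Nv| := by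
        have h10 : |Nv * (y n : ℝ) ^ b - Mv| ≤ 1 / 2 * |Mv| := by
          rw [← e1]
          exact mul_le_mul_of_nonneg_right hL2 hMp.le
        have h11 : |Mv| - |Nv * (y n : ℝ) ^ b| ≤ |Nv * (y n : ℝ) ^ b - Mv| := by
          rw [abs_sub_comm]
          exact abs_sub_abs_le_abs_sub _ _
        have h12 : |(y n : ℝ)| ^ b * |Nv| = |Nv * (y n : ℝ) ^ b| := by
          rw [abs_mul, abs_pow, mul_comm]
        rw [h12]
        linarith
      have h10 := lw_y hQ1 hb hE' hε'0 h8 h6 hNp (abs_nonneg _) h2 h9'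
      have h11 : Q ^ ((1 - 2 / dd) * (g : ℝ) - ε') ≤ L * Q ^ ((m : ℝ) + ε') := by
        refine h1.trans ?_
        rw [← e1]
        exact mul_le_mul_of_nonneg_left h5 hL0
      have h12 : Q ^ ((1 - 2 / dd) * (g : ℝ) - m - 2 * ε') ≤ L := by
        have h13 : Q ^ ((1 - 2 / dd) * (g : ℝ) - ε')
            = Q ^ ((1 - 2 / dd) * (g : ℝ) - m - 2 * ε') * Q ^ ((m : ℝ) + ε') := by
          rw [← Real.rpow_add hQ0]
          congr 1
          ring
        rw [h13] at h11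
        exact le_of_mul_le_mul_right h11 (by positivity)
      have h13 : Q ^ (((s + E : ℕ) : ℝ) - 4 * ε') ≤ |(y n : ℝ)| * |Pv| := by
        have h14 : Q ^ (((s + E : ℕ) : ℝ) - 4 * ε')
            = Q ^ ((E : ℝ) - 3 * ε') * Q ^ ((s : ℝ) - ε') := by
          rw [← Real.rpow_add hQ0]
          congr 1
          push_cast
          ring
        rw [h14]
        exact mul_le_mul h10 h3' (by positivity) (abs_nonneg _)
      have h14 : (|(y n : ℝ)| * |Pv|) ^ (-lam) ≤ Q ^ (-(lam * (((s + E : ℕ) : ℝ) - 4 * ε'))) := by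
        have h15 : Q ^ (-(lam * (((s + E : ℕ) : ℝ) - 4 * ε')))
            = (Q ^ (((s + E : ℕ) : ℝ) - 4 * ε')) ^ (-lam) := by
          rw [← Real.rpow_mul hQ0.le]
          congr 1
          ring
        rw [h15]
        exact Real.rpow_le_rpow_of_nonpos (by positivity) h13 (by linarith)
      have h15 := (h12.trans hup).trans h14
      have h16 := (Real.rpow_le_rpow_left_iff hQ1).1 h15
      nlinarith
    · have h10 : Q ^ (1 / 2 : ℝ) ≤ |(y n : ℝ)| * |Pv| := by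
        calc Q ^ (1 / 2 : ℝ) ≤ Q ^ ((s : ℝ) - ε') := by
              apply Real.rpow_le_rpow_of_exponent_le hQ1.le
              have : (1 : ℝ) ≤ s := by exact_mod_cast hpos
              linarith
          _ ≤ |Pv| := h3'
          _ = 1 * |Pv| := (one_mul _).symm
          _ ≤ _ := mul_le_mul_of_nonneg_right hY1 hPp.le
      have h11 : (|(y n : ℝ)| * |Pv|) ^ (-lam) ≤ (Q ^ (1 / 2 : ℝ)) ^ (-lam) :=
        Real.rpow_le_rpow_of_nonpos (by positivity) h10 (by linarith)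
      have h12 : (Q ^ (1 / 2 : ℝ)) ^ (-lam) = (Q ^ (lam * (1 / 2)))⁻¹ := by
        rw [← Real.rpow_mul hQ0.le, ← Real.rpow_neg hQ0.le]
        congr 1
        ring
      rw [h12] at h11
      have h13 : (Q ^ (lam * (1 / 2)))⁻¹ ≤ (3 : ℝ)⁻¹ := by
        apply inv_anti₀ (by norm_num) h9
      have h14 := (hup.trans h11).trans h13
      norm_num at h14
      linarith)
  refine ⟨η, N, hη, fun q hq x hx y hy h1 => ?_⟩
  by_contra hcon
  exact h q hq x ⟨1, q, (one_mul q).symm, by simp, hx⟩ y ⟨hx, hy, h1, not_lt.1 hcon⟩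

end

end Pool.Agent.Q4.Hall
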