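import Mathlib
import Pool.Agent.Q4.Hall.PotO

set_option autoImplicit false
set_option linter.unusedSectionVars false

/-!
# Linear forms in logarithms of an integer and of values of polynomials
-/

namespace Pool.Agent.Q4.Hall

open Filter Topology Pool.Agent.TH932.Abs Pool.Agent.TH932.Germs Pool.Agent.TH932.Chi
open Pool.Agent.TH796.AL Pool.Agent.Q4.Blk Pool.Agent.Q4.Gcd Pool.Agent.Q4.Cov Module
open Pool.Agent.Q4.Tube hiding Near sm_fr sm_vs sm_dl dl_tendsto dl_le_one sm_ord sm_any lim_evr branch' expand' px_ne root_bnd approxS root_exp deriv_seq sm_px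
open Pool.Agent.Q4.Opt
open MvPolynomial

/-- the values are large -/
theorem big_mainO (θ : Unit → ℝ) (halg : IsAlgebraic ℚ (θ ()))
    {ι : Type*} [Fintype ι] [DecidableEq ι] (F : ι → MvPolynomial (Option Unit) ℤ)
    (D : ι → ℕ) (hF : ∀ i, (F i).totalDegree ≤ D i)
    (htop : ∀ i, topv (D i) (F i) θ ≠ 0) (hpos : 1 ≤ ∑ i, D i) (K : ℝ) :
    ∃ (η : ℝ) (N : ℕ), 0 < η ∧ ∀ q ≥ N, ∀ x : Unit → ℤ,
      (q : ℝ) * |θ () * q - x ()| ≤ (q : ℝ) ^ η →
      K < ∏ i, |((eval (px q x) (F i) : ℤ) : ℝ)| := by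
  classical
  obtain ⟨η, N, hη, h⟩ := none_leftO ∅ (by simp) θ (Δ := Unit) (fun η q x _ =>
      ((q : ℝ) * |θ () * q - x ()| ≤ (q : ℝ) ^ η) ∧
      ∏ i, |((eval (px q x) (F i) : ℤ) : ℝ)| ≤ K) (by
    intro q x y β w H' _ hd
    have H : Ext ∅ (by simp) θ q x (fun _ => 0) (fun _ => 1) := ext_one H'.big (fun n => (hd n).1)
    obtain ⟨hPd, hPt⟩ := topv_prod θ Finset.univ F D (fun _ => 1) hF
    have hP1 := low_valN H.nr (fun _ => halg) hPd (by
      rw [hPt]
      exact Finset.prod_ne_zero_iff.2 fun i _ => pow_ne_zero _ (htop i)) (show (0 : ℝ) < 1 / 2 by norm_num)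
    obtain ⟨n, h1, h2⟩ := (hP1.and (big_ev H.big (K + 1) (show (0 : ℝ) < 1 / 2 by norm_num))).exists
    have h3 : ∏ i, |((eval (px (q n) (x n)) (F i) : ℤ) : ℝ)|
        = |((eval (px (q n) (x n)) (∏ i, F i ^ 1) : ℤ) : ℝ)| := by
      rw [map_prod]
      simp only [pow_one]
      rw [← Finset.abs_prod]
      push_cast
      rfl
    have h4 := (hd n).2
    rw [h3] at h4
    have h5 : (q n : ℝ) ^ (1 / 2 : ℝ) ≤ (q n : ℝ) ^ (((∑ i, 1 * D i : ℕ) : ℝ) - 1 / 2) := by
      apply Real.rpow_le_rpow_of_exponent_le (qone H.big n)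
      have h6 : ∑ i, 1 * D i = ∑ i, D i := by simp
      have : (1 : ℝ) ≤ ((∑ i, 1 * D i : ℕ) : ℝ) := by rw [h6]; exact_mod_cast hpos
      linarith
    linarith)
  refine ⟨η, N, hη, fun q hq x hx => ?_⟩
  by_contra hcon
  exact h q hq x ⟨1, q, (one_mul q).symm, by simp, hx⟩ () ⟨hx, not_lt.1 hcon⟩

/-- **Linear forms in logarithms** at nearly optimal approximations. -/
theorem lw_logO (θ : Unit → ℝ) (halg : IsAlgebraic ℚ (θ ()))
    (h3 : 3 ≤ (minpoly ℚ (θ ())).natDegree)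
    {ι : Type*} [Fintype ι] [DecidableEq ι] (F : ι → MvPolynomial (Option Unit) ℤ)
    (D : ι → ℕ) (e : ι → ℤ) (hF : ∀ i, (F i).totalDegree ≤ D i)
    (htop : ∀ i, topv (D i) (F i) θ ≠ 0) (he : ∀ i, e i ≠ 0)
    (hpos : 1 ≤ ∑ i, D i) {b E : ℕ} (hb : 0 < b) (hE : (b * E : ℤ) + ∑ i, e i * D i = 0)
    {lam : ℝ} (hlam : ((∑ i, (-e i).toNat * D i : ℕ) : ℝ)
      - (1 - 2 / ((minpoly ℚ (θ ())).natDegree : ℝ))
        * ((∑ i, (-e i).toNat * D i + 1 - (∑ i, D i + E) : ℕ) : ℝ)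
      < lam * ((∑ i, D i + E : ℕ) : ℝ)) :
    ∃ (η : ℝ) (N : ℕ), 0 < η ∧ ∀ q ≥ N, ∀ x : Unit → ℤ,
      (q : ℝ) * |θ () * q - x ()| ≤ (q : ℝ) ^ η →
      (∀ i, eval (px q x) (F i) ≠ 0) ∧ ∀ y : ℤ, y ≠ 0 →
      (b : ℝ) * Real.log |(y : ℝ)| + ∑ i, (e i : ℝ) * Real.log |((eval (px q x) (F i) : ℤ) : ℝ)| ≠ 0 →
      (|(y : ℝ)| * ∏ i, |((eval (px q x) (F i) : ℤ) : ℝ)|) ^ (-lam)
        < |(b : ℝ) * Real.log |(y : ℝ)|
          + (∑ i, (e i : ℝ) * Real.log |((eval (px q x) (F i) : ℤ) : ℝ)|)| := by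
  classical
  set dd : ℝ := ((minpoly ℚ (θ ())).natDegree : ℝ) with hdd
  have hdd3 : 3 ≤ dd := by rw [hdd]; exact_mod_cast h3
  have hfac0 : 0 < 1 - 2 / dd := by
    rw [sub_pos, div_lt_one (by linarith)]
    linarith
  have hfac1 : 1 - 2 / dd ≤ 1 := by
    have : 0 < 2 / dd := by positivity
    linarith
  set m := ∑ i, (-e i).toNat * D i with hm
  set s := ∑ i, D i with hs
  set g : ℕ := m + 1 - (s + E) with hg
  have hT : (0 : ℝ) < ((s + E : ℕ) : ℝ) := by exact_mod_cast (by omega)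
  have hA0 : 0 ≤ (m : ℝ) - (1 - 2 / dd) * g := by
    have h1 : (g : ℝ) ≤ m := by exact_mod_cast (by omega)
    have h2 : (0 : ℝ) ≤ g := Nat.cast_nonneg _
    nlinarith
  -- a slightly smaller exponent
  obtain ⟨lam', hl1, hl2⟩ : ∃ lam' : ℝ, (m : ℝ) - (1 - 2 / dd) * g < lam' * ((s + E : ℕ) : ℝ) ∧
      lam' < lam := by
    refine ⟨(((m : ℝ) - (1 - 2 / dd) * g) / ((s + E : ℕ) : ℝ) + lam) / 2, ?_, ?_⟩
    · have h1 : ((m : ℝ) - (1 - 2 / dd) * g) / ((s + E : ℕ) : ℝ) * ((s + E : ℕ) : ℝ)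
        = (m : ℝ) - (1 - 2 / dd) * g := div_mul_cancel₀ _ hT.ne'
      nlinarith
    · have h1 : ((m : ℝ) - (1 - 2 / dd) * g) / ((s + E : ℕ) : ℝ) < lam := by
        rw [div_lt_iff₀ hT]
        exact hlam
      linarith
  have hl0 : 0 < lam' := by
    have h1 : 0 < lam' * ((s + E : ℕ) : ℝ) := by linarith
    exact (mul_pos_iff_of_pos_right hT).1 h1
  have hm0 : 0 < lam - lam' := by linarith
  obtain ⟨η1, N1, hη1, h1⟩ := lw_mainO θ halg h3 F D e hF htop he hpos hb hE (lam := lam') hl1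
  -- the polynomials with a sign
  set F' : ι → ι → MvPolynomial (Option Unit) ℤ := fun j i => if i = j then -F i else F i with hF'
  have hF'd : ∀ j i, (F' j i).totalDegree ≤ D i := by
    intro j i
    rw [hF']
    simp only []
    split_ifs
    · rw [totalDegree_neg]
      exact hF i
    · exact hF i
  have hF't : ∀ j i, topv (D i) (F' j i) θ ≠ 0 := by
    intro j i
    rw [hF']
    simp only []
    split_ifs
    · have h5 : topv (D i) (-F i) θ = -topv (D i) (F i) θ := by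
        unfold topv
        rw [map_neg, map_neg]
      rw [h5]
      exact neg_ne_zero.2 (htop i)
    · exact htop i
  have h2 : ∀ j, ∃ (η : ℝ) (N : ℕ), 0 < η ∧ ∀ q ≥ N, ∀ x : Unit → ℤ,
      (q : ℝ) * |θ () * q - x ()| ≤ (q : ℝ) ^ η → ∀ y : ℤ, y ≠ 0 →
      (y : ℝ) ^ b * ∏ i, ((eval (px q x) (F' j i) : ℤ) : ℝ) ^ (e i) ≠ 1 →
      (|(y : ℝ)| * ∏ i, |((eval (px q x) (F' j i) : ℤ) : ℝ)|) ^ (-lam')
        < |(y : ℝ) ^ b * ∏ i, ((eval (px q x) (F' j i) : ℤ) : ℝ) ^ (e i) - 1| := fun j =>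
    lw_mainO θ halg h3 (F' j) D e (hF'd j) (hF't j) he hpos hb hE (lam := lam') hl1
  choose η2 N2 hη2 h2 using h2
  obtain ⟨η3, N3, hη3, h4⟩ := big_mainO θ halg F D hF htop hpos (2 ^ (1 / (lam - lam')) + 1)
  obtain ⟨η4, hη4, hη4'⟩ : ∃ η4 : ℝ, 0 < η4 ∧ ∀ j, η4 ≤ η2 j := by
    rcases isEmpty_or_nonempty ι with h | h
    · exact ⟨1, one_pos, fun j => (h.false j).elim⟩
    · obtain ⟨j, hj⟩ := Finite.exists_min η2
      exact ⟨η2 j, hη2 j, hj⟩
  refine ⟨min η1 (min η3 η4), max (max N1 N3) (max (∑ j, N2 j) 1), lt_min hη1 (lt_min hη3 hη4),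
    fun q hq x hx => ?_⟩
  have hqN1 : N1 ≤ q := ((le_max_left _ _).trans (le_max_left _ _)).trans hq
  have hqN3 : N3 ≤ q := ((le_max_right _ _).trans (le_max_left _ _)).trans hq
  have hqN2 : ∀ j, N2 j ≤ q := fun j => (Finset.single_le_sum (f := N2) (fun _ _ => Nat.zero_le _)
    (Finset.mem_univ j)).trans (((le_max_left _ _).trans (le_max_right _ _)).trans hq)
  have hq1 : (1 : ℝ) ≤ q := by
    have : 1 ≤ q := ((le_max_right _ _).trans (le_max_right _ _)).trans hq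
    exact_mod_cast this
  have hxe : ∀ η, min η1 (min η3 η4) ≤ η → (q : ℝ) * |θ () * q - x ()| ≤ (q : ℝ) ^ η := fun η h =>
    hx.trans (Real.rpow_le_rpow_of_exponent_le hq1 h)
  have hbig := h4 q hqN3 x (hxe _ ((min_le_right _ _).trans (min_le_left _ _)))
  have hprod0 : 0 < ∏ i, |((eval (px q x) (F i) : ℤ) : ℝ)| := lt_trans (by positivity) hbig
  have hnz : ∀ i, eval (px q x) (F i) ≠ 0 := by
    intro i h0
    rw [Finset.prod_eq_zero (Finset.mem_univ i) (by rw [h0]; simp)] at hprod0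
    exact lt_irrefl _ hprod0
  refine ⟨hnz, fun y hy hne => ?_⟩
  set V : ℝ := |(y : ℝ)| * ∏ i, |((eval (px q x) (F i) : ℤ) : ℝ)| with hV
  have hy1 : (1 : ℝ) ≤ |(y : ℝ)| := by exact_mod_cast Int.one_le_abs hy
  have hVb : 2 ^ (1 / (lam - lam')) + 1 < V := by
    rw [hV]
    nlinarith
  have h2p : (0 : ℝ) < 2 ^ (1 / (lam - lam')) := by positivity
  have hV1 : 1 < V := by linarith
  have hV0 : 0 < V := by linarith
  set L : ℝ := (b : ℝ) * Real.log |(y : ℝ)|
    + ∑ i, (e i : ℝ) * Real.log |((eval (px q x) (F i) : ℤ) : ℝ)| with hL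
  -- the exponential
  have hexp : Real.exp L = |(y : ℝ)| ^ b * ∏ i, |((eval (px q x) (F i) : ℤ) : ℝ)| ^ (e i) := by
    rw [hL, Real.exp_add, Real.exp_sum]
    congr 1
    · rw [mul_comm, Real.exp_mul, Real.exp_log (by linarith), Real.rpow_natCast]
    · refine Finset.prod_congr rfl fun i _ => ?_
      have h5 : 0 < |((eval (px q x) (F i) : ℤ) : ℝ)| := by
        rw [abs_pos]
        exact_mod_cast hnz i
      rw [mul_comm, Real.exp_mul, Real.exp_log h5, Real.rpow_intCast]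
  -- the main inequality
  have hmain : V ^ (-lam') < |Real.exp L - 1| := by
    have hL1 : Real.exp L ≠ 1 := by
      intro h5
      exact hne (Real.exp_eq_one_iff _ |>.1 h5)
    set P : ℝ := |(y : ℝ)| ^ b * ∏ i, ((eval (px q x) (F i) : ℤ) : ℝ) ^ (e i) with hP
    have hyabs : ((|y| : ℤ) : ℝ) = |(y : ℝ)| := by push_cast; rfl
    have hPabs : |P| = Real.exp L := by
      rw [hexp, hP, abs_mul, abs_pow, abs_abs, Finset.abs_prod]
      congr 1
      refine Finset.prod_congr rfl fun i _ => ?_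
      rw [abs_zpow]
    rcases abs_choice P with h5 | h5
    · have h6 : P = Real.exp L := by rw [← hPabs, h5]
      have h7 := h1 q hqN1 x (hxe _ (min_le_left _ _)) |y| (abs_ne_zero.2 hy) (by
        rw [hyabs]
        change P ≠ 1
        rw [h6]
        exact hL1)
      rw [hyabs, abs_abs] at h7
      change V ^ (-lam') < |P - 1| at h7
      rwa [h6] at h7
    · -- some exponent is odd
      have hP0 : P ≠ 0 := by
        intro h6
        rw [h6, abs_zero] at hPabs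
        exact (Real.exp_pos L).ne hPabs
      have hPneg : P < 0 := by
        have : 0 < |P| := abs_pos.2 hP0
        linarith
      obtain ⟨j, hj⟩ : ∃ j, Odd (e j) := by
        by_contra hcon
        push Not at hcon
        have h6 : 0 ≤ P := by
          rw [hP]
          refine mul_nonneg (by positivity) (Finset.prod_nonneg fun i _ => ?_)
          exact (Int.not_odd_iff_even.1 (hcon i)).zpow_nonneg _
        linarith
      have h6 : |(y : ℝ)| ^ b * ∏ i, ((eval (px q x) (F' j i) : ℤ) : ℝ) ^ (e i) = Real.exp L := by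
        rw [← hPabs, h5, hP]
        have h7 : ∀ i, ((eval (px q x) (F' j i) : ℤ) : ℝ) ^ (e i)
            = (if i = j then -1 else 1) * ((eval (px q x) (F i) : ℤ) : ℝ) ^ (e i) := by
          intro i
          rw [hF']
          simp only []
          split_ifs with h8
          · rw [h8, map_neg, Int.cast_neg, hj.neg_zpow]
            ring
          · rw [one_mul]
        simp only [h7, Finset.prod_mul_distrib, Finset.prod_ite_eq', Finset.mem_univ, if_true]
        ring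
      have h8 := h2 j q (hqN2 j) x (hxe _ (((min_le_right _ _).trans (min_le_right _ _)).trans (hη4' j)))
        |y| (abs_ne_zero.2 hy) (by
        rw [hyabs, h6]
        exact hL1)
      rw [hyabs, abs_abs, h6] at h8
      have h9 : ∏ i, |((eval (px q x) (F' j i) : ℤ) : ℝ)|
          = ∏ i, |((eval (px q x) (F i) : ℤ) : ℝ)| := by
        refine Finset.prod_congr rfl fun i _ => ?_
        rw [hF']
        simp only []
        split_ifs
        · rw [map_neg, Int.cast_neg, abs_neg]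
        · rfl
      rw [h9] at h8
      exact h8
  rcases le_or_gt |L| 1 with h5 | h5
  · have h6 := Real.abs_exp_sub_one_le h5
    have h7 : V ^ (-lam) * 2 ≤ V ^ (-lam') := by
      have h8 : V ^ (-lam') = V ^ (-lam) * V ^ (lam - lam') := by
        rw [← Real.rpow_add hV0]
        congr 1
        ring
      rw [h8]
      refine mul_le_mul_of_nonneg_left ?_ (by positivity)
      have h9 : (2 : ℝ) = ((2 : ℝ) ^ (1 / (lam - lam'))) ^ (lam - lam') := by
        rw [← Real.rpow_mul (by norm_num)]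
        rw [one_div, inv_mul_cancel₀ hm0.ne', Real.rpow_one]
      calc (2 : ℝ) = ((2 : ℝ) ^ (1 / (lam - lam'))) ^ (lam - lam') := h9
        _ ≤ V ^ (lam - lam') := Real.rpow_le_rpow h2p.le (by linarith) hm0.le
    linarith
  · refine lt_trans ?_ h5
    exact Real.rpow_lt_one_of_one_lt_of_neg hV1 (by linarith)

end Pool.Agent.Q4.Hall
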