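import Mathlib
import Pool.Agent.Q4.Hall.NearPow
import Pool.Agent.Q4.Hall.PotO

set_option autoImplicit false
set_option linter.unusedSectionVars false

/-!
# Products of shifts of an integer close to products of shifts of a value of a polynomial
-/

namespace Pool.Agent.Q4.Hall

lemma hcard {τ : Type*} [Fintype τ] (e : τ → ℕ) : ∑ i, e i ≤ ∑ i, (e i - 1) + Fintype.card τ := by
  calc ∑ i, e i ≤ ∑ i, ((e i - 1) + 1) := Finset.sum_le_sum fun i _ => by omega
    _ = ∑ i, (e i - 1) + Fintype.card τ := by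
      rw [Finset.sum_add_distrib]
      simp

section
variable {A : Type*} [CommRing A] [IsDomain A] [CharZero A]

/-- **The difference of two products of powers** has large degree. -/
theorem lw_poly2 {ι κ : Type*} [Fintype ι] [DecidableEq ι] [Fintype κ] [DecidableEq κ]
    (F : ι → Polynomial A) (G : κ → Polynomial A) (D E : ℕ) (a : ι → ℕ) (c : κ → ℕ)
    (hF0 : ∀ i, F i ≠ 0) (hFd : ∀ i, (F i).natDegree = D) (hG0 : ∀ i, G i ≠ 0)
    (hGd : ∀ i, (G i).natDegree = E) {u v : A} (hu : u ≠ 0)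
    (hE : (∑ i, c i) * E = (∑ i, a i) * D) (hpos : 1 ≤ Fintype.card ι * D + Fintype.card κ * E)
    (hne : Polynomial.C v * ∏ i, G i ^ (c i) - Polynomial.C u * ∏ i, F i ^ (a i) ≠ 0) :
    (∑ i, a i) * D + 1 ≤ (Polynomial.C v * ∏ i, G i ^ (c i)
      - Polynomial.C u * ∏ i, F i ^ (a i)).natDegree
      + (Fintype.card ι * D + Fintype.card κ * E) := by
  have hdF : ∀ e : ι → ℕ, (∏ i, F i ^ (e i)).natDegree = (∑ i, e i) * D := by
    intro e
    rw [Polynomial.natDegree_prod _ _ (fun i _ => pow_ne_zero _ (hF0 i)), Finset.sum_mul]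
    refine Finset.sum_congr rfl fun i _ => ?_
    rw [Polynomial.natDegree_pow, hFd]
  have hdG : ∀ e : κ → ℕ, (∏ i, G i ^ (e i)).natDegree = (∑ i, e i) * E := by
    intro e
    rw [Polynomial.natDegree_prod _ _ (fun i _ => pow_ne_zero _ (hG0 i)), Finset.sum_mul]
    refine Finset.sum_congr rfl fun i _ => ?_
    rw [Polynomial.natDegree_pow, hGd]
  have hnF : ∀ e : ι → ℕ, (∏ i, F i ^ (e i)) ≠ 0 := fun e =>
    Finset.prod_ne_zero_iff.2 fun i _ => pow_ne_zero _ (hF0 i)
  have hnG : ∀ e : κ → ℕ, (∏ i, G i ^ (e i)) ≠ 0 := fun e =>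
    Finset.prod_ne_zero_iff.2 fun i _ => pow_ne_zero _ (hG0 i)
  set X := Polynomial.C u * ∏ i, F i ^ (a i) with hX
  set Z := Polynomial.C v * ∏ i, G i ^ (c i) with hZ
  set R := Z - X with hR
  have hX0 : X ≠ 0 := mul_ne_zero (by rwa [Ne, Polynomial.C_eq_zero]) (hnF a)
  have hXd : X.natDegree = (∑ i, a i) * D := by
    rw [hX, Polynomial.natDegree_C_mul hu, hdF]
  obtain ⟨a1, a2⟩ := prod_dvd Finset.univ F a
  obtain ⟨c1, c2⟩ := prod_dvd Finset.univ G c
  set c0 := (∏ i, F i ^ (a i - 1)) * (∏ i, G i ^ (c i - 1)) with hc0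
  have hdvd : c0 ∣ X * R.derivative - X.derivative * R := by
    have h1 : X * R.derivative - X.derivative * R = X * Z.derivative - X.derivative * Z := by
      rw [hR, Polynomial.derivative_sub]
      ring
    rw [h1]
    have x1 : (∏ i, F i ^ (a i - 1)) ∣ X := a1.mul_left _
    have x2 : (∏ i, F i ^ (a i - 1)) ∣ X.derivative := by
      rw [hX, Polynomial.derivative_C_mul]
      exact a2.mul_left _
    have z1 : (∏ i, G i ^ (c i - 1)) ∣ Z := c1.mul_left _
    have z2 : (∏ i, G i ^ (c i - 1)) ∣ Z.derivative := by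
      rw [hZ, Polynomial.derivative_C_mul]
      exact c2.mul_left _
    exact dvd_sub (mul_dvd_mul x1 z2) (mul_dvd_mul x2 z1)
  rcases wr hX0 hne hdvd with h | h
  · have h1 : (∑ i, a i) * D ≤ (∏ i, F i ^ (a i - 1)).natDegree + Fintype.card ι * D := by
      rw [hdF, ← add_mul]
      apply Nat.mul_le_mul_right
      exact hcard a
    have h2 : (∑ i, c i) * E ≤ (∏ i, G i ^ (c i - 1)).natDegree + Fintype.card κ * E := by
      rw [hdG, ← add_mul]
      apply Nat.mul_le_mul_right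
      exact hcard c
    have h3 : c0.natDegree = (∏ i, F i ^ (a i - 1)).natDegree + (∏ i, G i ^ (c i - 1)).natDegree := by
      rw [hc0, Polynomial.natDegree_mul (hnF _) (hnG _)]
    change c0.natDegree + 1 ≤ X.natDegree + R.natDegree at h
    omega
  · change R.natDegree = X.natDegree at h
    omega

end

open Filter Topology Pool.Agent.TH932.Abs Pool.Agent.TH932.Germs Pool.Agent.TH932.Chi
open Pool.Agent.TH796.AL Pool.Agent.Q4.Blk Pool.Agent.Q4.Gcd Pool.Agent.Q4.Cov Module MvPolynomial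
open Pool.Agent.Q4.Tube

section
variable {σ : Type} [Fintype σ] [DecidableEq σ]

lemma topv_C0 (θ : σ → ℝ) (z : ℤ) : topv 0 (C z : MvPolynomial (Option σ) ℤ) θ = z := by
  unfold topv
  rw [homogeneousComponent_zero, coeff_C, if_pos rfl, aeval_C]
  rfl

lemma topv_Cpos (θ : σ → ℝ) (z : ℤ) {m : ℕ} (hm : 0 < m) :
    topv m (C z : MvPolynomial (Option σ) ℤ) θ = 0 := by
  unfold topv
  rw [homogeneousComponent_eq_zero _ _ (by rw [totalDegree_C]; exact hm), map_zero]

/-- the polynomial `h(Y) - M` -/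
noncomputable def hy (h : Polynomial ℤ) (M : MvPolynomial (Option σ) ℤ) :
    Polynomial (MvPolynomial (Option σ) ℤ) :=
  h.map (C : ℤ →+* MvPolynomial (Option σ) ℤ) - Polynomial.C M

variable {h : Polynomial ℤ} {M : MvPolynomial (Option σ) ℤ}

lemma hy_coeff (i : ℕ) : (hy h M).coeff i = C (h.coeff i) - (if i = 0 then M else 0) := by
  rw [hy, Polynomial.coeff_sub, Polynomial.coeff_map, Polynomial.coeff_C]

lemma hy_deg : (hy h M).natDegree = h.natDegree := by
  have h1 : (h.map (C : ℤ →+* MvPolynomial (Option σ) ℤ)).natDegree = h.natDegree :=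
    Polynomial.natDegree_map_eq_of_injective (C_injective _ _) h
  rw [hy, Polynomial.natDegree_sub_C, h1]

lemma hy_lc (hh : 0 < h.natDegree) : (hy h M).leadingCoeff = C h.leadingCoeff := by
  rw [Polynomial.leadingCoeff, hy_deg, hy_coeff, if_neg (by omega), sub_zero]
  rfl

lemma hy_hdeg (hh : 0 < h.natDegree) {E : ℕ} (hM : M.totalDegree ≤ h.natDegree * E) (i : ℕ) :
    ((hy h M).coeff i).totalDegree ≤ ((hy h M).natDegree - i) * E + 0 := by
  rw [hy_deg, hy_coeff, add_zero]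
  by_cases h0 : i = 0
  · rw [h0, if_pos rfl, Nat.sub_zero]
    refine (totalDegree_sub _ _).trans (max_le ?_ hM)
    rw [totalDegree_C]
    exact Nat.zero_le _
  · rw [if_neg h0, sub_zero, totalDegree_C]
    exact Nat.zero_le _

lemma hy_pnf (hh : 0 < h.natDegree) {E : ℕ} (hE : 0 < E) {θ : σ → ℝ}  :
    pnf (hy h M) E 0 θ = Polynomial.C (h.leadingCoeff : ℝ) * Polynomial.X ^ h.natDegree
      - Polynomial.C (topv (h.natDegree * E) M θ) := by
  ext j
  rw [Polynomial.coeff_sub, Polynomial.coeff_C_mul, Polynomial.coeff_X_pow, Polynomial.coeff_C]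
  by_cases hj : j ≤ h.natDegree
  · rw [pnf_coeff θ (by rw [hy_deg]; exact hj), hy_deg, hy_coeff, add_zero]
    by_cases h0 : j = 0
    · rw [h0, if_pos rfl, if_neg (by omega), if_pos rfl, Nat.sub_zero, mul_zero, zero_sub]
      have h1 : topv (h.natDegree * E) (C (h.coeff 0) - M) θ
          = topv (h.natDegree * E) (C (h.coeff 0)) θ - topv (h.natDegree * E) M θ := by
        unfold topv
        rw [map_sub, map_sub]
      rw [h1, topv_Cpos θ _ (by positivity), zero_sub]
    · rw [if_neg h0, if_neg h0, sub_zero, sub_zero]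
      split_ifs with h1
      · rw [h1, Nat.sub_self, zero_mul, mul_one, topv_C0]
        rfl
      · rw [topv_Cpos θ _ (Nat.mul_pos (by omega) hE), mul_zero]
  · rw [if_neg (by omega), if_neg (by omega), sub_zero, mul_zero]
    unfold pnf
    rw [Polynomial.finsetSum_coeff]
    refine Finset.sum_eq_zero fun i hi => ?_
    have hi' := Finset.mem_range.1 hi
    rw [hy_deg] at hi'
    rw [Polynomial.coeff_C_mul, Polynomial.coeff_X_pow, if_neg (by omega), mul_zero]

lemma hy_sep (hh : 0 < h.natDegree) {E : ℕ} (hE : 0 < E) {θ : σ → ℝ}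
    (h2 : topv (h.natDegree * E) M θ ≠ 0) : (pnf (hy h M) E 0 θ).Separable := by
  rw [hy_pnf hh hE]
  have h1 : (h.leadingCoeff : ℝ) ≠ 0 := by
    have : h.leadingCoeff ≠ 0 := by
      rw [Ne, Polynomial.leadingCoeff_eq_zero]
      rintro rfl
      simp at hh
    exact_mod_cast this
  set u : ℝ := (h.leadingCoeff : ℝ) with hu
  set v := topv (h.natDegree * E) M θ with hv
  have h3 : Polynomial.C u * Polynomial.X ^ h.natDegree - Polynomial.C v
      = Polynomial.C u * (Polynomial.X ^ h.natDegree - Polynomial.C (v / u)) := by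
    rw [mul_sub, ← Polynomial.C_mul, mul_div_cancel₀ _ h1]
  rw [h3]
  have h4 : (Polynomial.X ^ h.natDegree - Polynomial.C (v / u) : Polynomial ℝ).Separable :=
    Polynomial.separable_X_pow_sub_C _ (by exact_mod_cast hh.ne') (div_ne_zero h2 h1)
  exact Polynomial.Separable.unit_mul (Polynomial.isUnit_C.2 (isUnit_iff_ne_zero.2 h1)) h4

lemma hy_eval (q : ℕ) (x : σ → ℤ) (z : ℤ) :
    ((hy h M).map (evx q x ℂ)).eval (z : ℂ) = (((h.eval z - eval (px q x) M : ℤ) : ℝ) : ℂ) := by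
  rw [hy, Polynomial.map_sub, Polynomial.map_C, Polynomial.map_map, Polynomial.eval_sub,
    Polynomial.eval_C]
  have h1 : (evx q x ℂ).comp (C : ℤ →+* MvPolynomial (Option σ) ℤ) = Int.castRingHom ℂ :=
    RingHom.ext_int _ _
  have h2 : (h.map (Int.castRingHom ℂ)).eval (z : ℂ) = ((h.eval z : ℤ) : ℂ) :=
    Polynomial.eval_intCast_map (Int.castRingHom ℂ) h z
  rw [h1, h2]
  push_cast
  rfl

end

/-! ### the polynomial with shifts -/

/-- `v ∏ (Y + k) ^ (c k)` -/
noncomputable def shp {t : ℕ} (v : ℤ) (c : Fin t → ℕ) : Polynomial ℤ :=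
  Polynomial.C v * ∏ k : Fin t, (Polynomial.X + Polynomial.C ((k : ℕ) : ℤ)) ^ (c k)

lemma shp_eval {t : ℕ} (v : ℤ) (c : Fin t → ℕ) (z : ℤ) :
    (shp v c).eval z = v * ∏ k : Fin t, (z + ((k : ℕ) : ℤ)) ^ (c k) := by
  rw [shp, Polynomial.eval_mul, Polynomial.eval_C, Polynomial.eval_prod]
  simp

lemma shp_deg {t : ℕ} {v : ℤ} (hv : v ≠ 0) (c : Fin t → ℕ) : (shp v c).natDegree = ∑ k, c k := by
  rw [shp, Polynomial.natDegree_C_mul hv, Polynomial.natDegree_prod_of_monic]
  · refine Finset.sum_congr rfl fun k _ => ?_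
    rw [Polynomial.natDegree_pow, Polynomial.natDegree_X_add_C, mul_one]
  · intro k _
    exact (Polynomial.monic_X_add_C _).pow _

section
variable {σ : Type} [Fintype σ] [DecidableEq σ]

/-- the product of shifts of a polynomial -/
noncomputable def shM {s : ℕ} (F : MvPolynomial (Option σ) ℤ) (u : ℤ) (a : Fin s → ℕ) :
    MvPolynomial (Option σ) ℤ :=
  C u * ∏ i : Fin s, (F + C ((i : ℕ) : ℤ)) ^ (a i)

lemma sh_top {θ : σ → ℝ} {F : MvPolynomial (Option σ) ℤ} {D : ℕ} (hF : F.totalDegree ≤ D) (hD : 0 < D)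
    (z : ℤ) : (F + C z).totalDegree ≤ D ∧ topv D (F + C z) θ = topv D F θ := by
  constructor
  · refine (totalDegree_add _ _).trans (max_le hF ?_)
    rw [totalDegree_C]
    exact Nat.zero_le _
  · have h1 : topv D (F + C z) θ = topv D F θ + topv D (C z) θ := by
      unfold topv
      rw [map_add, map_add]
    rw [h1, topv_Cpos θ z hD, add_zero]

lemma shM_top {s : ℕ} {θ : σ → ℝ} {F : MvPolynomial (Option σ) ℤ} {D : ℕ} (hF : F.totalDegree ≤ D)
    (hD : 0 < D) (htop : topv D F θ ≠ 0) {u : ℤ} (hu : u ≠ 0) (a : Fin s → ℕ) :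
    (shM F u a).totalDegree ≤ (∑ i, a i) * D ∧ topv ((∑ i, a i) * D) (shM F u a) θ ≠ 0 := by
  classical
  obtain ⟨h1, h2⟩ := topv_prod θ Finset.univ (fun i : Fin s => F + C ((i : ℕ) : ℤ)) (fun _ => D) a
    (fun i => (sh_top (θ := θ) hF hD _).1)
  rw [← Finset.sum_mul] at h1 h2
  have h0 : (C u : MvPolynomial (Option σ) ℤ).totalDegree ≤ 0 := by rw [totalDegree_C]
  constructor
  · refine (totalDegree_mul _ _).trans ?_
    rw [totalDegree_C, zero_add]
    exact h1
  · have h3 := topv_mul θ h0 h1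
    rw [zero_add] at h3
    change topv ((∑ i, a i) * D) (C u * ∏ i : Fin s, (F + C ((i : ℕ) : ℤ)) ^ (a i)) θ ≠ 0
    rw [h3, topv_C0, h2]
    refine mul_ne_zero (by exact_mod_cast hu) (Finset.prod_ne_zero_iff.2 fun i _ => pow_ne_zero _ ?_)
    rw [(sh_top hF hD _).2]
    exact htop

lemma shM_eval {s : ℕ} (F : MvPolynomial (Option σ) ℤ) (u : ℤ) (a : Fin s → ℕ) (z : Option σ → ℤ) :
    eval z (shM F u a) = u * ∏ i : Fin s, (eval z F + ((i : ℕ) : ℤ)) ^ (a i) := by
  rw [shM, map_mul, eval_C, map_prod]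
  simp only [map_pow, map_add, eval_C]

/-- the degree of the difference -/
theorem sh_deg {s t : ℕ} {θ : σ → ℝ} {F : MvPolynomial (Option σ) ℤ} {D E : ℕ} (hF : F.totalDegree ≤ D)
    (hD : 0 < D) (hE0 : 0 < E) (htop : topv D F θ ≠ 0) {u v : ℤ} (hu : u ≠ 0) (hv : v ≠ 0) (hs : 0 < s)
    (a : Fin s → ℕ) (c : Fin t → ℕ) (hc : 0 < ∑ k, c k) (hE : (∑ k, c k) * E = (∑ i, a i) * D)
    (G : MvPolynomial (Option σ) ℚ)
    (hne : C (v : ℚ) * ∏ k : Fin t, (G + C ((k : ℕ) : ℚ)) ^ (c k)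
      - MvPolynomial.map (Int.castRingHom ℚ) (shM F u a) ≠ 0) :
    (∑ i, a i) * D + 1 ≤ (Psi θ (C (v : ℚ) * ∏ k : Fin t, (G + C ((k : ℕ) : ℚ)) ^ (c k)
      - MvPolynomial.map (Int.castRingHom ℚ) (shM F u a))).natDegree + (s * D + t * E) := by
  classical
  set Fi : Fin s → Polynomial (MvPolynomial σ ℝ) := fun i =>
    Phi θ (MvPolynomial.map (Int.castRingHom ℝ) (F + C ((i : ℕ) : ℤ))) with hFi
  have hPC : ∀ z : ℚ, Psi θ (C z) = Polynomial.C (C (z : ℝ)) := by
    intro z
    unfold Psi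
    rw [RingHom.comp_apply, map_C]
    exact (Phi θ).commutes (z : ℝ)
  set g := Psi θ G with hg
  set Gk : Fin t → Polynomial (MvPolynomial σ ℝ) := fun k => g + Polynomial.C (C (((k : ℕ) : ℚ) : ℝ)) with hGk
  have h1 : Psi θ (C (v : ℚ) * ∏ k : Fin t, (G + C ((k : ℕ) : ℚ)) ^ (c k))
      = Polynomial.C (C ((v : ℚ) : ℝ)) * ∏ k, Gk k ^ (c k) := by
    rw [map_mul, hPC, map_prod]
    congr 1
    refine Finset.prod_congr rfl fun k _ => ?_
    rw [map_pow, map_add, hPC]
  have h2 : Psi θ (MvPolynomial.map (Int.castRingHom ℚ) (shM F u a))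
      = Polynomial.C (C ((u : ℚ) : ℝ)) * ∏ i, Fi i ^ (a i) := by
    rw [shM, map_mul, map_mul, map_C, hPC, map_prod, map_prod]
    congr 1
    refine Finset.prod_congr rfl fun i _ => ?_
    rw [map_pow, map_pow, Psi_int]
  have hFid : ∀ i, (Fi i).natDegree = D := fun i =>
    Phi_eq θ (sh_top (θ := θ) hF hD _).1 (by rw [(sh_top hF hD _).2]; exact htop)
  have hFi0 : ∀ i, Fi i ≠ 0 := by
    intro i h
    have h3 := hFid i
    rw [h, Polynomial.natDegree_zero] at h3
    omega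
  have hu' : (C ((u : ℚ) : ℝ) : MvPolynomial σ ℝ) ≠ 0 := by
    rw [Ne, C_eq_zero]
    exact_mod_cast hu
  have hv' : (C ((v : ℚ) : ℝ) : MvPolynomial σ ℝ) ≠ 0 := by
    rw [Ne, C_eq_zero]
    exact_mod_cast hv
  have hR : Psi θ (C (v : ℚ) * ∏ k : Fin t, (G + C ((k : ℕ) : ℚ)) ^ (c k)
      - MvPolynomial.map (Int.castRingHom ℚ) (shM F u a))
      = Polynomial.C (C ((v : ℚ) : ℝ)) * ∏ k, Gk k ^ (c k)
        - Polynomial.C (C ((u : ℚ) : ℝ)) * ∏ i, Fi i ^ (a i) := by
    rw [map_sub, h1, h2]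
  have hR0 : Polynomial.C (C ((v : ℚ) : ℝ)) * ∏ k, Gk k ^ (c k)
        - Polynomial.C (C ((u : ℚ) : ℝ)) * ∏ i, Fi i ^ (a i) ≠ 0 := by
    rw [← hR]
    intro h
    exact hne (Psi_inj θ (h.trans (map_zero _).symm))
  have hXd : (Polynomial.C (C ((u : ℚ) : ℝ)) * ∏ i, Fi i ^ (a i)).natDegree = (∑ i, a i) * D := by
    rw [Polynomial.natDegree_C_mul hu', Polynomial.natDegree_prod _ _ (fun i _ => pow_ne_zero _ (hFi0 i)),
      Finset.sum_mul]
    refine Finset.sum_congr rfl fun i _ => ?_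
    rw [Polynomial.natDegree_pow, hFid]
  rw [hR]
  have hsD : 1 ≤ s * D := Nat.mul_pos hs hD
  by_cases hgE : g.natDegree = E
  · have hGkd : ∀ k, (Gk k).natDegree = E := by
      intro k
      rw [hGk]
      simp only []
      rw [Polynomial.natDegree_add_C, hgE]
    have hGk0 : ∀ k, Gk k ≠ 0 := by
      intro k h
      have h3 := hGkd k
      rw [h, Polynomial.natDegree_zero] at h3
      omega
    have h3 := lw_poly2 Fi Gk D E a c hFi0 hFid hGk0 hGkd hu' hE (by
      rw [Fintype.card_fin]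
      omega) hR0
    rw [Fintype.card_fin, Fintype.card_fin] at h3
    exact h3
  · have hle : ∀ k, (Gk k).natDegree = g.natDegree := by
      intro k
      rw [hGk]
      simp only []
      rw [Polynomial.natDegree_add_C]
    have hprodle : (∏ k, Gk k ^ (c k)).natDegree ≤ (∑ k, c k) * g.natDegree := by
      refine (Polynomial.natDegree_prod_le _ _).trans ?_
      rw [Finset.sum_mul]
      refine Finset.sum_le_sum fun k _ => ?_
      refine Polynomial.natDegree_pow_le.trans ?_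
      rw [hle]
    rcases Nat.lt_or_gt_of_ne hgE with hlt | hgt
    · have h3 : (Polynomial.C (C ((v : ℚ) : ℝ)) * ∏ k, Gk k ^ (c k)).natDegree
          < (Polynomial.C (C ((u : ℚ) : ℝ)) * ∏ i, Fi i ^ (a i)).natDegree := by
        rw [hXd, ← hE, Polynomial.natDegree_C_mul hv']
        exact lt_of_le_of_lt hprodle (Nat.mul_lt_mul_of_pos_left hlt hc)
      rw [Polynomial.natDegree_sub_eq_right_of_natDegree_lt h3, hXd]
      omega
    · have hGk0 : ∀ k, Gk k ≠ 0 := by
        intro k h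
        have h3 := hle k
        rw [h, Polynomial.natDegree_zero] at h3
        omega
      have h4 : (Polynomial.C (C ((v : ℚ) : ℝ)) * ∏ k, Gk k ^ (c k)).natDegree
          = (∑ k, c k) * g.natDegree := by
        rw [Polynomial.natDegree_C_mul hv', Polynomial.natDegree_prod _ _
          (fun i _ => pow_ne_zero _ (hGk0 i)), Finset.sum_mul]
        refine Finset.sum_congr rfl fun i _ => ?_
        rw [Polynomial.natDegree_pow, hle]
      have h3 : (Polynomial.C (C ((u : ℚ) : ℝ)) * ∏ i, Fi i ^ (a i)).natDegree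
          < (Polynomial.C (C ((v : ℚ) : ℝ)) * ∏ k, Gk k ^ (c k)).natDegree := by
        rw [hXd, ← hE, h4]
        exact Nat.mul_lt_mul_of_pos_left hgt hc
      rw [Polynomial.natDegree_sub_eq_left_of_natDegree_lt h3]
      omega

end

end Pool.Agent.Q4.Hall
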