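import Mathlib
import Pool.Agent.Q4.Hall.Prod

set_option autoImplicit false
set_option linter.unusedSectionVars false

/-!
# Products of shifts along sequences
-/

namespace Pool.Agent.Q4.Hall

open Filter Topology Pool.Agent.TH932.Abs Pool.Agent.TH932.Germs Pool.Agent.TH932.Chi
open Pool.Agent.TH796.AL Pool.Agent.Q4.Blk Pool.Agent.Q4.Gcd Pool.Agent.Q4.Cov Module MvPolynomial
open Pool.Agent.Q4.Tube

section
variable {σ : Type} [Fintype σ] [DecidableEq σ]

/-- the polynomial whose value is the difference -/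
noncomputable def dif {s t : ℕ} (F : MvPolynomial (Option σ) ℤ) (u v : ℤ) (a : Fin s → ℕ)
    (c : Fin t → ℕ) (G : MvPolynomial (Option σ) ℚ) : MvPolynomial (Option σ) ℚ :=
  C (v : ℚ) * ∏ k : Fin t, (G + C ((k : ℕ) : ℚ)) ^ (c k)
    - MvPolynomial.map (Int.castRingHom ℚ) (shM F u a)

lemma dif_val {s t : ℕ} (F : MvPolynomial (Option σ) ℤ) (u v : ℤ) (a : Fin s → ℕ)
    (c : Fin t → ℕ) (G : MvPolynomial (Option σ) ℚ) (q : ℕ) (x : σ → ℤ) (z : ℤ)
    (hz : (z : ℚ) = va q x G) :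
    va q x (dif F u v a c G) = (((shp v c).eval z - eval (px q x) (shM F u a) : ℤ) : ℚ) := by
  have hC : ∀ y : ℚ, va q x (C y) = y := by
    intro y
    unfold va
    rw [aeval_C]
    rfl
  rw [dif, map_sub, map_mul, hC, map_prod, map_px, shp_eval]
  simp only [map_pow, map_add, hC, ← hz]
  push_cast
  rfl

variable (S : Finset ℕ) (hS : ∀ p ∈ S, p.Prime) {θ : σ → ℝ} (halg : ∀ s, IsAlgebraic ℚ (θ s))
  (hind : LinearIndependent ℚ (fun o : Option σ => (o.elim 1 (fun s => θ s) : ℝ)))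
  {q : ℕ → ℕ} {x : ℕ → σ → ℤ} (H : Tub S θ q x)

include hS halg hind H

/-- products of shifts near a ray -/
theorem prod_seqT {s t : ℕ} {F : MvPolynomial (Option σ) ℤ} {D E : ℕ} (hF : F.totalDegree ≤ D)
    (hD : 0 < D) (hE0 : 0 < E) (htop : topv D F θ ≠ 0) {u v : ℤ} (hu : u ≠ 0) (hv : v ≠ 0) (hs : 0 < s)
    (a : Fin s → ℕ) (c : Fin t → ℕ) (hc : 0 < ∑ k, c k) (hE : (∑ k, c k) * E = (∑ i, a i) * D)
    (z : ℕ → ℤ) (hne : ∀ᶠ n in (UU : Filter ℕ),
      (shp v c).eval (z n) - eval (px (q n) (x n)) (shM F u a) ≠ 0) {ε : ℝ} (hε : 0 < ε)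
    (ht : 0 < t) :
    ∀ᶠ n in (UU : Filter ℕ),
      (q n : ℝ) ^ ((((∑ i, a i) * D + 1 : ℕ) : ℝ) - ((s * D + t * E : ℕ) : ℝ) - ε)
      ≤ |(((shp v c).eval (z n) - eval (px (q n) (x n)) (shM F u a) : ℤ) : ℝ)| := by
  classical
  by_contra hcon
  have hcon' := Ultrafilter.eventually_not.2 hcon
  obtain ⟨hMd, hMt⟩ := shM_top hF hD htop hu a
  set m := (∑ i, a i) * D with hm
  have hhd : (shp v c).natDegree = ∑ k, c k := shp_deg hv c
  have hh : 0 < (shp v c).natDegree := by rw [hhd]; exact hc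
  have hME : (shM F u a).totalDegree ≤ (shp v c).natDegree * E := by rw [hhd, hE]; exact hMd
  have hlc0 : (shp v c).leadingCoeff ≠ 0 := by
    rw [Ne, Polynomial.leadingCoeff_eq_zero]
    intro h
    rw [h] at hh
    simp at hh
  have hsm : Sm q (((((hy (shp v c) (shM F u a)).natDegree - 1) * E + 0 : ℕ) : ℝ) - ε)
      (fun n => ((hy (shp v c) (shM F u a)).map (evx (q n) (x n) ℂ)).eval (z n : ℂ)) := by
    intro ε' hε'
    filter_upwards [hcon'] with n hn
    rw [not_le] at hn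
    rw [hy_eval, Complex.norm_real, Real.norm_eq_abs, hy_deg, hhd]
    refine hn.le.trans (Real.rpow_le_rpow_of_exponent_le (qone H.big n) ?_)
    have h2 : ((m + 1 : ℕ) : ℝ) ≤ (((((∑ k, c k) - 1) * E + 0) + (s * D + t * E) : ℕ) : ℝ) := by
      have h3 : ((∑ k, c k) - 1) * E + E = m := by
        rw [← hE]
        obtain ⟨k, hk⟩ : ∃ k, ∑ k, c k = k + 1 := ⟨∑ k, c k - 1, by omega⟩
        rw [hk, Nat.add_sub_cancel]
        ring
      have h4 : 1 ≤ s * D := Nat.mul_pos hs hD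
      have h5 : E ≤ t * E := Nat.le_mul_of_pos_left E ht
      exact_mod_cast (by omega)
    push_cast at h2 ⊢
    linarith
  obtain ⟨G, -, hG⟩ := near_rootT S hS halg hind H (P := hy (shp v c) (shM F u a)) (D := E) (d := 0)
    (by rw [hy_deg]; exact hh) (by
      rw [hy_lc hh, topv_C0]
      exact_mod_cast hlc0) (by rw [hy_lc hh, totalDegree_C])
    (fun i => hy_hdeg hh hME i) (hy_sep hh hE0 (by rw [hhd, hE]; exact hMt)) z hε hsm
  have hRv : ∀ᶠ n in (UU : Filter ℕ), va (q n) (x n) (dif F u v a c G)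
      = (((shp v c).eval (z n) - eval (px (q n) (x n)) (shM F u a) : ℤ) : ℚ) := by
    filter_upwards [hG] with n hn
    exact dif_val F u v a c G (q n) (x n) (z n) hn
  have hR0 : dif F u v a c G ≠ 0 := by
    intro h
    obtain ⟨n, hn, hnn⟩ := (hRv.and hne).exists
    rw [h, map_zero] at hn
    exact hnn (by exact_mod_cast hn.symm)
  have hdav : m + 1 ≤ (Psi θ (dif F u v a c G)).natDegree + (s * D + t * E) :=
    sh_deg hF hD hE0 htop hu hv hs a c hc hE G hR0
  have hRR0 : map (algebraMap ℚ ℝ) (dif F u v a c G) ≠ 0 := by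
    intro h
    exact hR0 (map_injective _ (algebraMap ℚ ℝ).injective (h.trans (map_zero _).symm))
  have hlow := realT S hS halg hind H (map (algebraMap ℚ ℝ) (dif F u v a c G)) (fun m => by
    rw [coeff_map]
    exact isAlgebraic_algebraMap _) hRR0 (half_pos hε)
  obtain ⟨n, h1, h2, h3⟩ := (hcon'.and (hlow.and hRv)).exists
  rw [eval_real_va S hS halg hind H, h3, ← Phi_natDegree] at h2
  rw [not_le] at h1
  have h5 := h2.trans_lt (by
    push_cast at h1 ⊢
    exact h1)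
  have h6 := (Real.rpow_lt_rpow_left_iff (by
    have := H.big n
    exact_mod_cast (by omega : 1 < q n))).1 h5
  have h7 : ((m + 1 : ℕ) : ℝ) ≤ (((Psi θ (dif F u v a c G)).natDegree + (s * D + t * E) : ℕ) : ℝ) := by
    exact_mod_cast hdav
  have h8 : (Phi θ (map (algebraMap ℚ ℝ) (dif F u v a c G))).natDegree
      = (Psi θ (dif F u v a c G)).natDegree := rfl
  rw [h8] at h6
  push_cast at h6 h7
  linarith

end

end Pool.Agent.Q4.Hall

namespace Pool.Agent.Q4.Hall

open Filter Topology Pool.Agent.TH932.Abs Pool.Agent.TH932.Germs Pool.Agent.TH932.Chi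
open Pool.Agent.TH796.AL Pool.Agent.Q4.Blk Pool.Agent.Q4.Gcd Pool.Agent.Q4.Cov Module
open Pool.Agent.Q4.Tube hiding Near sm_fr sm_vs sm_dl dl_tendsto dl_le_one sm_ord sm_any lim_evr branch' expand' px_ne root_bnd approxS root_exp deriv_seq sm_px
open Pool.Agent.Q4.Opt
open MvPolynomial

section
variable {S : Finset ℕ} {hS : ∀ p ∈ S, p.Prime} {θ : Unit → ℝ} {q : ℕ → ℕ} {x : ℕ → Unit → ℤ}

/-- products of shifts at nearly optimal approximations -/
theorem prod_seqO (H : Ext S hS θ q x (fun _ => 0) (fun _ => 1)) (halg : IsAlgebraic ℚ (θ ()))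
    (h3 : 3 ≤ (minpoly ℚ (θ ())).natDegree)
    {s t : ℕ} {F : MvPolynomial (Option Unit) ℤ} {D E : ℕ} (hF : F.totalDegree ≤ D)
    (hD : 0 < D) (hE0 : 0 < E) (htop : topv D F θ ≠ 0) {u v : ℤ} (hu : u ≠ 0) (hv : v ≠ 0) (hs : 0 < s)
    (a : Fin s → ℕ) (c : Fin t → ℕ) (hc : 0 < ∑ k, c k) (hE : (∑ k, c k) * E = (∑ i, a i) * D)
    (z : ℕ → ℤ) (hne : ∀ᶠ n in (UU : Filter ℕ),
      (shp v c).eval (z n) - eval (px (q n) (x n)) (shM F u a) ≠ 0) {ε : ℝ} (hε : 0 < ε)
    (ht : 0 < t) (hg : s * D + t * E ≤ (∑ i, a i) * D + 1) :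
    ∀ᶠ n in (UU : Filter ℕ),
      (q n : ℝ) ^ ((1 - 2 / ((minpoly ℚ (θ ())).natDegree : ℝ))
        * ((((∑ i, a i) * D + 1 : ℕ) : ℝ) - ((s * D + t * E : ℕ) : ℝ)) - ε)
      ≤ |(((shp v c).eval (z n) - eval (px (q n) (x n)) (shM F u a) : ℤ) : ℝ)| := by
  classical
  by_contra hcon
  have hcon' := Ultrafilter.eventually_not.2 hcon
  have hind : ∀ R : MvPolynomial (Option Unit) ℚ, Rel q x R → R = 0 :=
    fun R hR => indep H halg h3 (by simp) R hR
  set dd : ℝ := ((minpoly ℚ (θ ())).natDegree : ℝ) with hdd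
  have hdd3 : 3 ≤ dd := by rw [hdd]; exact_mod_cast h3
  have hfac0 : 0 < 1 - 2 / dd := by
    rw [sub_pos, div_lt_one (by linarith)]
    linarith
  have hfac1 : 1 - 2 / dd ≤ 1 := by
    have : 0 < 2 / dd := by positivity
    linarith
  obtain ⟨hMd, hMt⟩ := shM_top hF hD htop hu a
  set m := (∑ i, a i) * D with hm
  have hhd : (shp v c).natDegree = ∑ k, c k := shp_deg hv c
  have hh : 0 < (shp v c).natDegree := by rw [hhd]; exact hc
  have hME : (shM F u a).totalDegree ≤ (shp v c).natDegree * E := by rw [hhd, hE]; exact hMd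
  have hlc0 : (shp v c).leadingCoeff ≠ 0 := by
    rw [Ne, Polynomial.leadingCoeff_eq_zero]
    intro h
    rw [h] at hh
    simp at hh
  set g : ℝ := ((m + 1 : ℕ) : ℝ) - ((s * D + t * E : ℕ) : ℝ) with hgd
  have hg0 : 0 ≤ g := by
    rw [hgd, sub_nonneg]
    exact_mod_cast hg
  have hsm0 : Sm q ((1 - 2 / dd) * g - ε)
      (fun n => ((((shp v c).eval (z n) - eval (px (q n) (x n)) (shM F u a) : ℤ) : ℝ) : ℂ)) := by
    intro ε' hε'
    filter_upwards [hcon'] with n hn
    rw [not_le] at hn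
    rw [Complex.norm_real, Real.norm_eq_abs]
    exact hn.le.trans (Real.rpow_le_rpow_of_exponent_le (qone H.big n) (by linarith))
  have hsm : Sm q (((((hy (shp v c) (shM F u a)).natDegree - 1) * E + 0 : ℕ) : ℝ) - ε)
      (fun n => ((hy (shp v c) (shM F u a)).map (evx (q n) (x n) ℂ)).eval (z n : ℂ)) := by
    refine (hsm0.mono H.big ?_).congr (Eventually.of_forall fun n => ?_)
    · rw [hy_deg, hhd]
      have h2 : ((m + 1 : ℕ) : ℝ) ≤ (((((∑ k, c k) - 1) * E + 0) + (s * D + t * E) : ℕ) : ℝ) := by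
        have h3 : ((∑ k, c k) - 1) * E + E = m := by
          rw [← hE]
          obtain ⟨k, hk⟩ : ∃ k, ∑ k, c k = k + 1 := ⟨∑ k, c k - 1, by omega⟩
          rw [hk, Nat.add_sub_cancel]
          ring
        have h4 : 1 ≤ s * D := Nat.mul_pos hs hD
        have h5 : E ≤ t * E := Nat.le_mul_of_pos_left E ht
        exact_mod_cast (by omega)
      have h3 : (1 - 2 / dd) * g ≤ g := by nlinarith
      push_cast at h2 hgd ⊢
      linarith
    · rw [hy_eval]
  obtain ⟨G, -, hG⟩ := near_rootO H (fun _ => halg) hind (P := hy (shp v c) (shM F u a)) (D := E)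
    (d := 0) (by rw [hy_deg]; exact hh) (by
      rw [hy_lc hh, topv_C0]
      exact_mod_cast hlc0) (by rw [hy_lc hh, totalDegree_C])
    (fun i => hy_hdeg hh hME i) (hy_sep hh hE0 (by rw [hhd, hE]; exact hMt)) z hε hsm
  have hRv : ∀ᶠ n in (UU : Filter ℕ), va (q n) (x n) (dif F u v a c G)
      = (((shp v c).eval (z n) - eval (px (q n) (x n)) (shM F u a) : ℤ) : ℚ) := by
    filter_upwards [hG] with n hn
    exact dif_val F u v a c G (q n) (x n) (z n) hn
  have hR0 : dif F u v a c G ≠ 0 := by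
    intro h
    obtain ⟨n, hn, hnn⟩ := (hRv.and hne).exists
    rw [h, map_zero] at hn
    exact hnn (by exact_mod_cast hn.symm)
  have hdav : m + 1 ≤ (Psi θ (dif F u v a c G)).natDegree + (s * D + t * E) :=
    sh_deg hF hD hE0 htop hu hv hs a c hc hE G hR0
  have h1 : (Psi θ (dif F u v a c G)).natDegree ≤ (dif F u v a c G).totalDegree := Phi_le_total θ _
  have h2 := notsmO' H halg h3 (dif F u v a c G) hR0 _ (hsm0.congr (by
    filter_upwards [hRv] with n hn
    rw [hn]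
    push_cast
    rfl))
  rw [← hdd] at h2
  have h4 : g ≤ (dif F u v a c G).totalDegree := by
    have h5 : ((m + 1 : ℕ) : ℝ) ≤ (((dif F u v a c G).totalDegree + (s * D + t * E) : ℕ) : ℝ) := by
      exact_mod_cast (by omega)
    push_cast at h5 hgd ⊢
    linarith
  have h5 : (1 - 2 / dd) * g ≤ (1 - 2 / dd) * (dif F u v a c G).totalDegree :=
    mul_le_mul_of_nonneg_left h4 hfac0.le
  linarith

end

end Pool.Agent.Q4.Hall
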