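import Mathlib
import Pool.Agent.Q4.Hall.ProdSeq
import Pool.Agent.Q4.Hall.Bound

set_option autoImplicit false
set_option linter.unusedSectionVars false

/-!
# `A X + B Y = C Z` with `X` a product of shifts of a value of a polynomial
-/

namespace Pool.Agent.Q4.Hall

lemma fin_num {Q Xv Yv B g τ m ε : ℝ} (hQ : 1 < Q) (hB : B ≤ Q ^ ε)
    (hlow : Q ^ (g - ε) ≤ B * Yv) (hY : Yv ≤ Xv ^ τ) (hX : Xv ≤ Q ^ (m + ε)) (hX0 : 0 ≤ Xv)
    (hτ : 0 ≤ τ) (hlt : τ * (m + ε) + 2 * ε < g) (hY0 : 0 ≤ Yv) : False := by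
  have hQ0 : 0 < Q := by linarith
  have h1 : Yv ≤ Q ^ (τ * (m + ε)) := by
    refine hY.trans ((Real.rpow_le_rpow hX0 hX hτ).trans (le_of_eq ?_))
    rw [← Real.rpow_mul hQ0.le, mul_comm]
  have h2 : B * Yv ≤ Q ^ ε * Q ^ (τ * (m + ε)) := mul_le_mul hB h1 hY0 (by positivity)
  rw [← Real.rpow_add hQ0] at h2
  have h3 := (Real.rpow_le_rpow_left_iff hQ).1 (hlow.trans h2)
  linarith

/-- the number of indices with a given value -/
def cnt {n s : ℕ} (i : Fin n → Fin s) (v : Fin s) : ℕ := (Finset.univ.filter (fun j => i j = v)).card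

lemma cnt_sum {n s : ℕ} (i : Fin n → Fin s) : ∑ v, cnt i v = n := by
  have h := Finset.card_eq_sum_card_fiberwise (s := Finset.univ) (t := Finset.univ) (f := i)
    (fun _ _ => Finset.mem_univ _)
  rw [Finset.card_univ, Fintype.card_fin] at h
  exact h.symm

lemma cnt_prod {n s : ℕ} {R : Type*} [CommMonoid R] (i : Fin n → Fin s) (f : Fin s → R) :
    ∏ j, f (i j) = ∏ v, f v ^ (cnt i v) := by
  rw [Finset.prod_comp f i]
  refine Finset.prod_subset (Finset.subset_univ _) fun v _ hv => ?_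
  have h1 : cnt i v = 0 := by
    rw [cnt, Finset.card_eq_zero, Finset.filter_eq_empty_iff]
    intro j _ h2
    exact hv (Finset.mem_image.2 ⟨j, Finset.mem_univ _, h2⟩)
  change f v ^ (cnt i v) = 1
  rw [h1, pow_zero]

open Filter Topology Pool.Agent.TH932.Abs Pool.Agent.TH932.Germs Pool.Agent.TH932.Chi
open Pool.Agent.TH796.AL Pool.Agent.Q4.Blk Pool.Agent.Q4.Gcd Pool.Agent.Q4.Cov Module MvPolynomial
open Pool.Agent.Q4.Tube

/-- the value of the product of shifts -/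
noncomputable def Xval {σ : Type} (F : MvPolynomial (Option σ) ℤ) {s : ℕ} (a : Fin s → ℕ)
    (x : Option σ → ℤ) : ℤ := ∏ i : Fin s, (eval x F + ((i : ℕ) : ℤ)) ^ (a i)

lemma choose_eps {m g τ : ℝ} (hτ : 0 ≤ τ) (h : τ * m < g) :
    ∃ ε : ℝ, 0 < ε ∧ τ * (m + ε) + 2 * ε < g ∧ ε ≤ 1 / 2 := by
  refine ⟨min ((g - τ * m) / (2 * (τ + 2))) (1 / 2), lt_min (by
    have : 0 < g - τ * m := by linarith
    positivity) (by norm_num), ?_, min_le_right _ _⟩
  have h1 : min ((g - τ * m) / (2 * (τ + 2))) (1 / 2) ≤ (g - τ * m) / (2 * (τ + 2)) := min_le_left _ _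
  have h2 : (τ + 2) * min ((g - τ * m) / (2 * (τ + 2))) (1 / 2)
      ≤ (τ + 2) * ((g - τ * m) / (2 * (τ + 2))) := mul_le_mul_of_nonneg_left h1 (by linarith)
  have h3 : (τ + 2) * ((g - τ * m) / (2 * (τ + 2))) = (g - τ * m) / 2 := by
    have : τ + 2 ≠ 0 := by linarith
    field_simp
  nlinarith

section
variable {σ : Type} [Fintype σ] [DecidableEq σ]

theorem prod_coreT (S : Finset ℕ) (hS : ∀ p ∈ S, p.Prime) {θ : σ → ℝ}
    (halg : ∀ s, IsAlgebraic ℚ (θ s))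
    (hind : LinearIndependent ℚ (fun o : Option σ => (o.elim 1 (fun s => θ s) : ℝ)))
    {s t : ℕ} {F : MvPolynomial (Option σ) ℤ} {D E : ℕ} (hF : F.totalDegree ≤ D)
    (hD : 0 < D) (hE0 : 0 < E) (htop : topv D F θ ≠ 0) {A B C' : ℤ} (hA : A ≠ 0) (hB : B ≠ 0)
    (hC : C' ≠ 0) (hs : 0 < s) (ht : 0 < t)
    (a : Fin s → ℕ) (c : Fin t → ℕ) (hc : 0 < ∑ k, c k) (hE : (∑ k, c k) * E = (∑ i, a i) * D)
    {τ : ℝ} (hτ : τ * (((∑ i, a i) * D : ℕ) : ℝ)
      < (((∑ i, a i) * D + 1 : ℕ) : ℝ) - ((s * D + t * E : ℕ) : ℝ)) :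
    ∃ (η : ℝ) (N : ℕ), 0 < η ∧ ∀ q ≥ N, ∀ x, Near S θ η q x → ∀ z Y : ℤ, Y ≠ 0 →
      A * Xval F a (px q x) + B * Y = C' * ∏ k : Fin t, (z + ((k : ℕ) : ℤ)) ^ (c k) →
      |((Xval F a (px q x) : ℤ) : ℝ)| ^ τ < |(Y : ℝ)| := by
  classical
  set m := (∑ i, a i) * D with hm
  have hm0 : 0 < m := by rw [← hE]; positivity
  obtain ⟨η, N, hη, h⟩ := none_left S θ (Δ := ℤ × ℤ) (fun q x d => d.2 ≠ 0 ∧
      A * Xval F a (px q x) + B * d.2 = C' * ∏ k : Fin t, (d.1 + ((k : ℕ) : ℤ)) ^ (c k) ∧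
      |(d.2 : ℝ)| ≤ |((Xval F a (px q x) : ℤ) : ℝ)| ^ τ) (by
    intro q x d H hd
    obtain ⟨hMd, hMt⟩ := shM_top hF hD htop one_ne_zero a
    have hXe : ∀ n, eval (px (q n) (x n)) (shM F 1 a) = Xval F a (px (q n) (x n)) := by
      intro n
      rw [shM_eval, one_mul]
      rfl
    rcases lt_or_ge τ 0 with hneg | hnn
    · obtain ⟨n, h1, h2⟩ := ((low_val S hS halg hind H hMd hMt (show (0 : ℝ) < 1 / 2 by norm_num)).and
        (big_ev H.big 2 (show (0 : ℝ) < 1 / 2 by norm_num))).exists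
      rw [hXe] at h1
      have hX1 : 1 < |((Xval F a (px (q n) (x n)) : ℤ) : ℝ)| := by
        have h3 : (q n : ℝ) ^ (1 / 2 : ℝ) ≤ (q n : ℝ) ^ ((m : ℝ) - 1 / 2) := by
          apply Real.rpow_le_rpow_of_exponent_le (qone H.big n)
          have : (1 : ℝ) ≤ m := by exact_mod_cast hm0
          linarith
        linarith
      have h4 := Real.rpow_lt_one_of_one_lt_of_neg hX1 hneg
      have h5 : (1 : ℝ) ≤ |((d n).2 : ℝ)| := by exact_mod_cast Int.one_le_abs (hd n).1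
      have h6 := (hd n).2.2
      linarith
    · obtain ⟨ε', hε'0, hε', -⟩ := choose_eps (m := (m : ℝ)) hnn hτ
      have hdiff : ∀ n, (shp C' c).eval (d n).1 - eval (px (q n) (x n)) (shM F A a)
          = B * (d n).2 := by
        intro n
        rw [shp_eval, shM_eval]
        have h1 := (hd n).2.1
        unfold Xval at h1
        linarith
      obtain ⟨n, h1, h2, h3⟩ := ((prod_seqT S hS halg hind H hF hD hE0 htop hA hC hs a c hc hE
        (fun n => (d n).1) (Eventually.of_forall fun n => by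
          rw [hdiff]
          exact mul_ne_zero hB (hd n).1) hε'0 ht).and ((sm_val S H (shM F 1 a) hMd ε' hε'0).and
        (big_ev H.big |(B : ℝ)| hε'0))).exists
      rw [hdiff, Int.cast_mul, abs_mul] at h1
      rw [Complex.norm_intCast, hXe] at h2
      exact fin_num (by
        have := H.big n
        exact_mod_cast (by omega : 1 < q n)) h3 h1 (hd n).2.2 h2 (abs_nonneg _) hnn hε' (abs_nonneg _))
  refine ⟨η, N, hη, fun q hq x hx z Y hY heq => ?_⟩
  by_contra hcon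
  exact h q hq x hx (z, Y) ⟨hY, heq, not_lt.1 hcon⟩

end

end Pool.Agent.Q4.Hall

namespace Pool.Agent.Q4.Hall

open Filter Topology Pool.Agent.TH932.Abs Pool.Agent.TH932.Germs Pool.Agent.TH932.Chi
open Pool.Agent.TH796.AL Pool.Agent.Q4.Blk Pool.Agent.Q4.Gcd Pool.Agent.Q4.Cov Module
open Pool.Agent.Q4.Tube hiding Near sm_fr sm_vs sm_dl dl_tendsto dl_le_one sm_ord sm_any lim_evr branch' expand' px_ne root_bnd approxS root_exp deriv_seq sm_px
open Pool.Agent.Q4.Opt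
open MvPolynomial

theorem prod_coreO (θ : Unit → ℝ) (halg : IsAlgebraic ℚ (θ ()))
    (h3 : 3 ≤ (minpoly ℚ (θ ())).natDegree)
    {s t : ℕ} {F : MvPolynomial (Option Unit) ℤ} {D E : ℕ} (hF : F.totalDegree ≤ D)
    (hD : 0 < D) (hE0 : 0 < E) (htop : topv D F θ ≠ 0) {A B C' : ℤ} (hA : A ≠ 0) (hB : B ≠ 0)
    (hC : C' ≠ 0) (hs : 0 < s) (ht : 0 < t)
    (a : Fin s → ℕ) (c : Fin t → ℕ) (hc : 0 < ∑ k, c k) (hE : (∑ k, c k) * E = (∑ i, a i) * D)
    {τ : ℝ} (hτ : τ * (((∑ i, a i) * D : ℕ) : ℝ)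
      < (1 - 2 / ((minpoly ℚ (θ ())).natDegree : ℝ))
        * ((((∑ i, a i) * D + 1 : ℕ) : ℝ) - ((s * D + t * E : ℕ) : ℝ))) :
    ∃ (η : ℝ) (N : ℕ), 0 < η ∧ ∀ q ≥ N, ∀ x : Unit → ℤ,
      (q : ℝ) * |θ () * q - x ()| ≤ (q : ℝ) ^ η → ∀ z Y : ℤ, Y ≠ 0 →
      A * Xval F a (px q x) + B * Y = C' * ∏ k : Fin t, (z + ((k : ℕ) : ℤ)) ^ (c k) →
      |((Xval F a (px q x) : ℤ) : ℝ)| ^ τ < |(Y : ℝ)| := by
  classical
  set m := (∑ i, a i) * D with hm
  have hm0 : 0 < m := by rw [← hE]; positivity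
  set dd : ℝ := ((minpoly ℚ (θ ())).natDegree : ℝ) with hdd
  have hdd3 : 3 ≤ dd := by rw [hdd]; exact_mod_cast h3
  have hfac0 : 0 < 1 - 2 / dd := by
    rw [sub_pos, div_lt_one (by linarith)]
    linarith
  obtain ⟨η, N, hη, h⟩ := none_leftO ∅ (by simp) θ (Δ := ℤ × ℤ) (fun η q x d =>
      ((q : ℝ) * |θ () * q - x ()| ≤ (q : ℝ) ^ η) ∧ d.2 ≠ 0 ∧
      A * Xval F a (px q x) + B * d.2 = C' * ∏ k : Fin t, (d.1 + ((k : ℕ) : ℤ)) ^ (c k) ∧
      |(d.2 : ℝ)| ≤ |((Xval F a (px q x) : ℤ) : ℝ)| ^ τ) (by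
    intro q x d β w H' _ hd
    have H : Ext ∅ (by simp) θ q x (fun _ => 0) (fun _ => 1) := ext_one H'.big (fun n => (hd n).1)
    obtain ⟨hMd, hMt⟩ := shM_top hF hD htop one_ne_zero a
    have hXe : ∀ n, eval (px (q n) (x n)) (shM F 1 a) = Xval F a (px (q n) (x n)) := by
      intro n
      rw [shM_eval, one_mul]
      rfl
    rcases lt_or_ge τ 0 with hneg | hnn
    · obtain ⟨n, h1, h2⟩ := ((low_valN H.nr (fun _ => halg) hMd hMt
        (show (0 : ℝ) < 1 / 2 by norm_num)).and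
        (big_ev H.big 2 (show (0 : ℝ) < 1 / 2 by norm_num))).exists
      rw [hXe] at h1
      have hX1 : 1 < |((Xval F a (px (q n) (x n)) : ℤ) : ℝ)| := by
        have h3 : (q n : ℝ) ^ (1 / 2 : ℝ) ≤ (q n : ℝ) ^ ((m : ℝ) - 1 / 2) := by
          apply Real.rpow_le_rpow_of_exponent_le (qone H.big n)
          have : (1 : ℝ) ≤ m := by exact_mod_cast hm0
          linarith
        linarith
      have h4 := Real.rpow_lt_one_of_one_lt_of_neg hX1 hneg
      have h5 : (1 : ℝ) ≤ |((d n).2 : ℝ)| := by exact_mod_cast Int.one_le_abs (hd n).2.1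
      have h6 := (hd n).2.2.2
      linarith
    · have hg : s * D + t * E ≤ m + 1 := by
        by_contra hcon
        push Not at hcon
        have h1 : ((m + 1 : ℕ) : ℝ) < ((s * D + t * E : ℕ) : ℝ) := by exact_mod_cast hcon
        have h2 : 0 ≤ τ * (m : ℝ) := by positivity
        nlinarith
      obtain ⟨ε', hε'0, hε', -⟩ := choose_eps (m := (m : ℝ)) hnn hτ
      have hdiff : ∀ n, (shp C' c).eval (d n).1 - eval (px (q n) (x n)) (shM F A a)
          = B * (d n).2 := by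
        intro n
        rw [shp_eval, shM_eval]
        have h1 := (hd n).2.2.1
        unfold Xval at h1
        linarith
      obtain ⟨n, h1, h2, h4⟩ := ((prod_seqO H halg h3 hF hD hE0 htop hA hC hs a c hc hE
        (fun n => (d n).1) (Eventually.of_forall fun n => by
          rw [hdiff]
          exact mul_ne_zero hB (hd n).2.1) hε'0 ht hg).and (((H.sm_val (shM F 1 a)).mono H.big
        (show (((shM F 1 a).totalDegree : ℕ) : ℝ) ≤ (m : ℝ) by exact_mod_cast hMd) ε' hε'0).and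
        (big_ev H.big |(B : ℝ)| hε'0))).exists
      rw [hdiff, Int.cast_mul, abs_mul] at h1
      rw [Complex.norm_intCast, hXe] at h2
      exact fin_num (by
        have := H.big n
        exact_mod_cast (by omega : 1 < q n)) h4 h1 (hd n).2.2.2 h2 (abs_nonneg _) hnn hε'
          (abs_nonneg _))
  refine ⟨η, N, hη, fun q hq x hx z Y hY heq => ?_⟩
  by_contra hcon
  exact h q hq x ⟨1, q, (one_mul q).symm, by simp, hx⟩ (z, Y) ⟨hx, hY, heq, not_lt.1 hcon⟩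

end Pool.Agent.Q4.Hall
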